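import Mathlib

/-!
Entropy bounds: a Gibbs type inequality and the block coding bound.
-/

open MeasureTheory Filter Topology

namespace Pool.Agent.MP_3779a0

section Gibbs

variable {X : Type*} [MeasurableSpace X]

/-- Pointwise form of the Gibbs inequality on one cell. -/
theorem gibbs_cell (ν : Measure X) [IsProbabilityMeasure ν] (A : Set X)
    (hA : MeasurableSet A) (Q : ℝ) (hQ0 : 0 ≤ Q) (cost : X → ℝ) (hc : Integrable cost ν)
    (h : ∀ᵐ x ∂ν, x ∈ A → Real.exp (-cost x) ≤ Q) :
    Real.negMulLog (ν.real A) ≤ ∫ x in A, cost x ∂ν + Q - ν.real A := by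
  rcases (measureReal_nonneg (μ := ν) (s := A)).eq_or_lt with h0 | hpos
  · rw [← h0]
    have hz : ν A = 0 := by
      have := h0.symm
      rw [measureReal_eq_zero_iff] at this
      exact this
    have : ∫ x in A, cost x ∂ν = 0 := by
      rw [Measure.restrict_eq_zero.mpr hz]
      simp
    rw [this]
    simpa using hQ0
  · -- positive measure
    have hνA : ν A ≠ 0 := by
      intro hz
      rw [measureReal_def, hz] at hpos
      simp at hpos
    -- Q > 0
    have hex : ∃ x, x ∈ A ∧ Real.exp (-cost x) ≤ Q := by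
      by_contra hne
      push Not at hne
      apply hνA
      have : A ⊆ {x | ¬ (x ∈ A → Real.exp (-cost x) ≤ Q)} := by
        intro x hx hx2
        exact absurd (hx2 hx) (not_le.mpr (hne x hx))
      exact measure_mono_null this (ae_iff.mp h)
    obtain ⟨x0, _, hx0⟩ := hex
    have hQ : 0 < Q := lt_of_lt_of_le (Real.exp_pos _) hx0
    have hint : -(ν.real A * Real.log Q) ≤ ∫ x in A, cost x ∂ν := by
      have h1 : ∫ _ in A, (-Real.log Q) ∂ν ≤ ∫ x in A, cost x ∂ν := by
        apply setIntegral_mono_ae_restrict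
        · exact (integrable_const _).integrableOn
        · exact hc.integrableOn
        · have h2 := (ae_restrict_iff' hA).mpr h
          filter_upwards [h2] with x hx
          have := Real.log_le_log (Real.exp_pos _) hx
          rw [Real.log_exp] at this
          linarith
      rw [setIntegral_const, smul_eq_mul] at h1
      linarith
    have hlog : ν.real A * (Real.log Q - Real.log (ν.real A)) ≤ Q - ν.real A := by
      have h3 := Real.log_le_sub_one_of_pos (div_pos hQ hpos)
      rw [Real.log_div hQ.ne' hpos.ne'] at h3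
      have h4 := mul_le_mul_of_nonneg_left h3 hpos.le
      have h5 : ν.real A * (Q / ν.real A - 1) = Q - ν.real A := by
        field_simp
      linarith
    rw [Real.negMulLog]
    nlinarith [hint, hlog]

/-- Gibbs inequality for a finite partition. -/
theorem gibbs {W : Type*} [Fintype W] (ν : Measure X) [IsProbabilityMeasure ν]
    (w : X → W) (hw : ∀ a, MeasurableSet {x | w x = a}) (Q : W → ℝ) (hQ0 : ∀ a, 0 ≤ Q a)
    (hQ : ∑ a, Q a ≤ 1) (cost : X → ℝ) (hc : Integrable cost ν)
    (h : ∀ᵐ x ∂ν, Real.exp (-cost x) ≤ Q (w x)) :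
    ∑ a, Real.negMulLog (ν.real {x | w x = a}) ≤ ∫ x, cost x ∂ν := by
  classical
  have hdisj : Pairwise (Function.onFun Disjoint fun a => {x | w x = a}) := by
    intro a b hab
    refine Set.disjoint_left.mpr ?_
    intro x hx hy
    exact hab (hx.symm.trans hy)
  have hU : (⋃ a, {x | w x = a}) = Set.univ := by
    ext x
    simp
  have h1 : ∑ a, ∫ x in {x | w x = a}, cost x ∂ν = ∫ x, cost x ∂ν := by
    rw [← integral_iUnion_fintype hw hdisj (fun a => hc.integrableOn), hU, setIntegral_univ]
  have h2 : ∑ a, ν.real {x | w x = a} = 1 := by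
    have := measureReal_iUnion_fintype (μ := ν) hdisj hw
    rw [hU] at this
    rw [← this]
    simp
  calc ∑ a, Real.negMulLog (ν.real {x | w x = a})
      ≤ ∑ a, (∫ x in {x | w x = a}, cost x ∂ν + Q a - ν.real {x | w x = a}) := by
        apply Finset.sum_le_sum
        intro a _
        apply gibbs_cell ν _ (hw a) (Q a) (hQ0 a) cost hc
        filter_upwards [h] with x hx hxa
        have : w x = a := hxa
        rw [this] at hx
        exact hx
    _ = (∑ a, ∫ x in {x | w x = a}, cost x ∂ν) + ∑ a, Q a - ∑ a, ν.real {x | w x = a} := by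
        rw [Finset.sum_sub_distrib, Finset.sum_add_distrib]
    _ ≤ ∫ x, cost x ∂ν := by rw [h1, h2]; linarith

end Gibbs

section Kernel

variable {Y : Type*} [Fintype Y]

/-- Total mass of a sub-Markov path measure. -/
theorem path_sum_le (K : Y → Y → ℝ) (hK0 : ∀ y z, 0 ≤ K y z) (hK : ∀ y, ∑ z, K y z ≤ 1) :
    ∀ (k : ℕ) (I : Y → ℝ), (∀ y, 0 ≤ I y) →
      ∑ c : Fin (k + 1) → Y, I (c 0) * ∏ i : Fin k, K (c i.castSucc) (c i.succ) ≤ ∑ y, I y := by
  classical
  intro k
  induction k with
  | zero =>
    intro I _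
    simp only [Finset.univ_eq_empty, Finset.prod_empty, mul_one]
    have := Fintype.sum_equiv (Equiv.funUnique (Fin 1) Y) (fun c : Fin 1 → Y => I (c 0)) I
      (fun c => rfl)
    exact this.le
  | succ k ih =>
    intro I hI
    have h1 : ∑ c : Fin (k + 2) → Y, I (c 0) * ∏ i : Fin (k + 1), K (c i.castSucc) (c i.succ)
        = ∑ p : Y × (Fin (k + 1) → Y), I p.1 * (K p.1 (p.2 0) *
            ∏ i : Fin k, K (p.2 i.castSucc) (p.2 i.succ)) := by
      refine (Fintype.sum_equiv (Fin.consEquiv (fun _ : Fin (k + 2) => Y)) _ _ ?_).symm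
      rintro ⟨y, c⟩
      simp only [Fin.consEquiv_apply, Fin.cons_zero]
      rw [Fin.prod_univ_succ]
      simp [Fin.cons_succ]
    rw [h1, Fintype.sum_prod_type_right]
    have h2 : ∀ c : Fin (k + 1) → Y, ∑ y, I y * (K y (c 0) *
        ∏ i : Fin k, K (c i.castSucc) (c i.succ))
        = (∑ y, I y * K y (c 0)) * ∏ i : Fin k, K (c i.castSucc) (c i.succ) := by
      intro c
      rw [Finset.sum_mul]
      refine Finset.sum_congr rfl ?_
      intro y _
      ring
    simp only [h2]
    refine (ih (fun z => ∑ y, I y * K y z) ?_).trans ?_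
    · intro z
      exact Finset.sum_nonneg (fun y _ => mul_nonneg (hI y) (hK0 y z))
    · rw [Finset.sum_comm]
      apply Finset.sum_le_sum
      intro y _
      rw [← Finset.mul_sum]
      exact mul_le_of_le_one_right (hI y) (hK y)

end Kernel

section Block

variable {X : Type*} [MeasurableSpace X] {U V W : Type*}
  [Fintype U] [MeasurableSpace U] [MeasurableSingletonClass U]
  [Fintype V] [MeasurableSpace V] [MeasurableSingletonClass V]
  [Fintype W] [MeasurableSpace W] [MeasurableSingletonClass W]

theorem integrable_comp_fintype (ν : Measure X) [IsProbabilityMeasure ν] (α : X → U)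
    (hα : Measurable α) (g : U → ℝ) : Integrable (fun x => g (α x)) ν := by
  refine Integrable.of_bound ((measurable_of_finite g).comp hα).aestronglyMeasurable
    (∑ u, ‖g u‖) ?_
  refine Eventually.of_forall (fun x => ?_)
  exact Finset.single_le_sum (f := fun u => ‖g u‖) (fun u _ => norm_nonneg _)
    (Finset.mem_univ (α x))

/-- The block coding bound. -/
theorem block_entropy [Nonempty V] (ν : Measure X) [IsProbabilityMeasure ν]
    (T : X → X) (hT : MeasurePreserving T ν ν)
    (α : X → U) (hα : Measurable α) (S : U → Finset U)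
    (hS : ∀ᵐ x ∂ν, α (T x) ∈ S (α x))
    (b : X → V) (hb : Measurable b) (F : U → V) (δ : ℝ) (hδ0 : 0 < δ) (hδ1 : δ < 1)
    (n : ℕ) (hn : 1 ≤ n) (π : (Fin n → V) → W) :
    ∑ a, Real.negMulLog (ν.real {x | π (fun i : Fin n => b (T^[i] x)) = a}) ≤
      Real.log (Fintype.card U) + n * ∫ x, Real.log ((S (α x)).card : ℝ) ∂ν
        + n * (-Real.log (1 - δ) + Real.log (Fintype.card V / δ) * ν.real {x | b x ≠ F (α x)}) := by
  classical
  obtain ⟨k, rfl⟩ : ∃ k, n = k + 1 := ⟨n - 1, by omega⟩
  have hXne : Nonempty X := by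
    have h0 : ν Set.univ ≠ 0 := by simp
    obtain ⟨x, _⟩ := nonempty_of_measure_ne_zero h0
    exact ⟨x⟩
  have : Nonempty U := ⟨α hXne.some⟩
  set cU : ℝ := (Fintype.card U : ℝ) with hcU
  have hcU0 : 0 < cU := by rw [hcU]; exact_mod_cast Fintype.card_pos
  set cV : ℝ := (Fintype.card V : ℝ) with hcV
  have hcV1 : 1 ≤ cV := by rw [hcV]; exact_mod_cast Fintype.card_pos
  have hcV0 : 0 < cV := by linarith
  have h1δ : 0 < 1 - δ := by linarith
  have hVδ : 1 ≤ cV / δ := by
    rw [le_div_iff₀ hδ0]; linarith
  -- kernels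
  let E : U → V → ℝ := fun u v => if v = F u then 1 - δ else δ / cV
  have hE0 : ∀ u v, 0 ≤ E u v := by
    intro u v
    simp only [E]
    split_ifs
    · exact h1δ.le
    · positivity
  have hE1 : ∀ u, ∑ v, E u v ≤ 1 := by
    intro u
    have h1 : ∑ v, E u v ≤ ∑ v, ((if v = F u then 1 - δ else 0) + δ / cV) := by
      apply Finset.sum_le_sum
      intro v _
      simp only [E]
      split_ifs
      · have : 0 ≤ δ / cV := by positivity
        linarith
      · linarith
    rw [Finset.sum_add_distrib] at h1
    simp only [Finset.sum_ite_eq', Finset.mem_univ, if_true, Finset.sum_const,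
      Finset.card_univ, nsmul_eq_mul] at h1
    rw [← hcV] at h1
    have h2 : cV * (δ / cV) = δ := by field_simp
    rw [h2] at h1
    linarith
  let P : U → U → ℝ := fun u u' => if u' ∈ S u then 1 / ((S u).card : ℝ) else 0
  have hP0 : ∀ u u', 0 ≤ P u u' := by
    intro u u'
    simp only [P]
    split_ifs
    · positivity
    · exact le_refl _
  have hP1 : ∀ u, ∑ u', P u u' ≤ 1 := by
    intro u
    simp only [P]
    rw [← Finset.sum_filter, Finset.filter_mem_eq_inter, Finset.univ_inter, Finset.sum_const,
      nsmul_eq_mul]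
    by_cases h : (S u).card = 0
    · rw [h]; simp
    · have : ((S u).card : ℝ) ≠ 0 := by exact_mod_cast h
      rw [mul_one_div, div_self this]
  let K : U × V → U × V → ℝ := fun y z => P y.1 z.1 * E z.1 z.2
  have hK0 : ∀ y z, 0 ≤ K y z := fun y z => mul_nonneg (hP0 _ _) (hE0 _ _)
  have hK1 : ∀ y, ∑ z, K y z ≤ 1 := by
    intro y
    rw [Fintype.sum_prod_type]
    simp only [K]
    calc ∑ u, ∑ v, P y.1 u * E u v = ∑ u, P y.1 u * ∑ v, E u v := by
          simp only [Finset.mul_sum]
      _ ≤ ∑ u, P y.1 u := by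
          apply Finset.sum_le_sum
          intro u _
          exact mul_le_of_le_one_right (hP0 _ _) (hE1 u)
      _ ≤ 1 := hP1 _
  let I : U × V → ℝ := fun y => 1 / cU * E y.1 y.2
  have hI0 : ∀ y, 0 ≤ I y := fun y => mul_nonneg (by positivity) (hE0 _ _)
  have hI1 : ∑ y, I y ≤ 1 := by
    rw [Fintype.sum_prod_type]
    simp only [I]
    calc ∑ u, ∑ v, 1 / cU * E u v = ∑ u, 1 / cU * ∑ v, E u v := by
          simp only [Finset.mul_sum]
      _ ≤ ∑ _u : U, 1 / cU := by
          apply Finset.sum_le_sum
          intro u _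
          exact mul_le_of_le_one_right (by positivity) (hE1 u)
      _ ≤ 1 := by
          rw [Finset.sum_const, Finset.card_univ, nsmul_eq_mul, ← hcU, mul_one_div,
            div_self hcU0.ne']
  -- weights of codes and words
  let q : (Fin (k + 1) → U × V) → ℝ := fun c =>
    I (c 0) * ∏ i : Fin k, K (c i.castSucc) (c i.succ)
  have hq0 : ∀ c, 0 ≤ q c := fun c =>
    mul_nonneg (hI0 _) (Finset.prod_nonneg (fun i _ => hK0 _ _))
  have hq1 : ∑ c, q c ≤ 1 := (path_sum_le K hK0 hK1 k I hI0).trans hI1
  let κ : X → (Fin (k + 1) → U × V) := fun x i => (α (T^[i] x), b (T^[i] x))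
  let pr : (Fin (k + 1) → U × V) → W := fun c => π (fun i => (c i).2)
  let Q : W → ℝ := fun a => ∑ c, if pr c = a then q c else 0
  have hQ0 : ∀ a, 0 ≤ Q a := by
    intro a
    apply Finset.sum_nonneg
    intro c _
    split_ifs
    · exact hq0 c
    · exact le_refl _
  have hQ1 : ∑ a, Q a ≤ 1 := by
    simp only [Q]
    rw [Finset.sum_comm]
    simp only [Finset.sum_ite_eq, Finset.mem_univ, if_true]
    exact hq1
  have hqQ : ∀ c, q c ≤ Q (pr c) := by
    intro c
    have := Finset.single_le_sum (f := fun c' => if pr c' = pr c then q c' else 0)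
      (fun c' _ => by
        show 0 ≤ (if pr c' = pr c then q c' else 0)
        split_ifs
        · exact hq0 c'
        · exact le_refl _) (Finset.mem_univ c)
    simpa using this
  -- costs
  let s : X → ℝ := fun x => Real.log ((S (α x)).card : ℝ)
  let e : X → ℝ := fun x => -Real.log (1 - δ) + Real.log (cV / δ) *
    (if b x ≠ F (α x) then 1 else 0)
  have hs_int : Integrable s ν :=
    integrable_comp_fintype ν α hα (fun u => Real.log ((S u).card : ℝ))
  have hmeas_ne : MeasurableSet {x | b x ≠ F (α x)} := by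
    have h1 : Measurable (fun x => F (α x)) := (measurable_of_finite F).comp hα
    have h2 : MeasurableSet {x | b x = F (α x)} := measurableSet_eq_fun hb h1
    exact h2.compl
  have hind : (fun x => (if b x ≠ F (α x) then (1 : ℝ) else 0))
      = Set.indicator {x | b x ≠ F (α x)} (fun _ => (1 : ℝ)) := by
    funext x
    simp [Set.indicator_apply]
  have hind_int : Integrable (fun x => (if b x ≠ F (α x) then (1 : ℝ) else 0)) ν := by
    rw [hind]
    exact (integrable_const _).indicator hmeas_ne
  have he_int : Integrable e ν := (integrable_const _).add (hind_int.const_mul _)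
  have he_val : ∫ x, e x ∂ν = -Real.log (1 - δ) +
      Real.log (cV / δ) * ν.real {x | b x ≠ F (α x)} := by
    simp only [e]
    rw [integral_add (integrable_const _) (hind_int.const_mul _), integral_const_mul, hind,
      integral_indicator hmeas_ne]
    simp
  have hTi : ∀ i : ℕ, MeasurePreserving (T^[i]) ν ν := fun i => hT.iterate i
  have hcomp_int : ∀ (g : X → ℝ), Integrable g ν → ∀ i : ℕ,
      Integrable (fun x => g (T^[i] x)) ν := fun g hg i => (hTi i).integrable_comp_of_integrable hg
  have hcomp_val : ∀ (g : X → ℝ), Integrable g ν → ∀ i : ℕ,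
      ∫ x, g (T^[i] x) ∂ν = ∫ x, g x ∂ν := by
    intro g hg i
    have h1 := integral_map (μ := ν) (hTi i).measurable.aemeasurable
      (f := g) (by rw [(hTi i).map_eq]; exact hg.aestronglyMeasurable)
    rw [(hTi i).map_eq] at h1
    exact h1.symm
  let cost : X → ℝ := fun x => Real.log cU + (∑ i : Fin k, s (T^[i] x)
    + ∑ i : Fin (k + 1), e (T^[i] x))
  have hc_int : Integrable cost ν := by
    refine (integrable_const _).add ((integrable_finsetSum _ ?_).add (integrable_finsetSum _ ?_))
    · intro i _; exact hcomp_int s hs_int i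
    · intro i _; exact hcomp_int e he_int i
  have hc_val : ∫ x, cost x ∂ν = Real.log cU + (k * ∫ x, s x ∂ν
      + (k + 1 : ℕ) * ∫ x, e x ∂ν) := by
    simp only [cost]
    rw [integral_add (integrable_const _), integral_add, integral_finsetSum,
      integral_finsetSum]
    · simp only [hcomp_val s hs_int, hcomp_val e he_int]
      simp
    · intro i _; exact hcomp_int e he_int i
    · intro i _; exact hcomp_int s hs_int i
    · exact integrable_finsetSum _ (fun i _ => hcomp_int s hs_int i)
    · exact integrable_finsetSum _ (fun i _ => hcomp_int e he_int i)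
    · exact (integrable_finsetSum (Finset.univ : Finset (Fin k))
        (fun i _ => hcomp_int s hs_int i)).add
        (integrable_finsetSum (Finset.univ : Finset (Fin (k + 1)))
        (fun i _ => hcomp_int e he_int i))
  have hs_nonneg : 0 ≤ ∫ x, s x ∂ν := by
    apply integral_nonneg_of_ae
    filter_upwards [hS] with x hx
    apply Real.log_nonneg
    have : 1 ≤ (S (α x)).card := Finset.card_pos.mpr ⟨_, hx⟩
    exact_mod_cast this
  -- pointwise comparison
  have hEe : ∀ x, Real.exp (-e x) ≤ E (α x) (b x) := by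
    intro x
    simp only [e, E]
    by_cases h : b x = F (α x)
    · simp only [h, ne_eq, not_true_eq_false, if_false, mul_zero, add_zero, neg_neg, if_true]
      rw [Real.exp_log h1δ]
    · simp only [h, ne_eq, not_false_eq_true, if_true, if_false, mul_one, neg_add, neg_neg]
      rw [Real.exp_add, Real.exp_log h1δ, Real.exp_neg, Real.exp_log (by positivity), inv_div]
      have : 0 ≤ δ / cV := by positivity
      exact mul_le_of_le_one_left this (by linarith)
  have hpt : ∀ᵐ x ∂ν, Real.exp (-cost x) ≤ q (κ x) := by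
    have hall : ∀ᵐ x ∂ν, ∀ i : ℕ, α (T (T^[i] x)) ∈ S (α (T^[i] x)) := by
      rw [ae_all_iff]
      intro i
      exact (hTi i).quasiMeasurePreserving.ae hS
    filter_upwards [hall] with x hx
    have hsP : ∀ i : Fin k, Real.exp (-s (T^[i] x)) = P (κ x i.castSucc).1 (κ x i.succ).1 := by
      intro i
      have hxi := hx i
      have e1 : (κ x i.castSucc).1 = α (T^[(i : ℕ)] x) := by simp [κ]
      have e2 : (κ x i.succ).1 = α (T (T^[(i : ℕ)] x)) := by
        simp [κ, Function.iterate_succ_apply']
      rw [e1, e2]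
      simp only [P, hxi, if_true, s]
      have hcard : 0 < ((S (α (T^[(i : ℕ)] x))).card : ℝ) := by
        exact_mod_cast Finset.card_pos.mpr ⟨_, hxi⟩
      rw [Real.exp_neg, Real.exp_log hcard, one_div]
    have hcost : Real.exp (-cost x) = (1 / cU * Real.exp (-e x)) *
        ∏ i : Fin k, (Real.exp (-s (T^[i] x)) * Real.exp (-e (T^[(i : ℕ) + 1] x))) := by
      simp only [cost]
      rw [Fin.sum_univ_succ, Finset.prod_mul_distrib, ← Real.exp_sum, ← Real.exp_sum]
      have : (1 : ℝ) / cU = Real.exp (-Real.log cU) := by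
        rw [Real.exp_neg, Real.exp_log hcU0, one_div]
      rw [this, ← Real.exp_add, ← Real.exp_add, ← Real.exp_add]
      congr 1
      simp only [Finset.sum_neg_distrib, Fin.val_zero, Function.iterate_zero, id_eq,
        Fin.val_succ]
      ring
    rw [hcost]
    simp only [q, I, K]
    have hk0 : κ x 0 = (α x, b x) := by simp [κ]
    rw [hk0]
    apply mul_le_mul
    · exact mul_le_mul_of_nonneg_left (hEe x) (by positivity)
    · apply Finset.prod_le_prod
      · intro i _; positivity
      · intro i _
        rw [hsP i]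
        refine mul_le_mul_of_nonneg_left ?_ (hP0 _ _)
        have := hEe (T^[(i : ℕ) + 1] x)
        simpa [κ] using this
    · apply Finset.prod_nonneg
      intro i _; positivity
    · exact mul_nonneg (by positivity) (hE0 _ _)
  have hprκ : ∀ x, pr (κ x) = π (fun i : Fin (k + 1) => b (T^[i] x)) := fun x => rfl
  have hmeasw : Measurable (fun x => π (fun i : Fin (k + 1) => b (T^[i] x))) := by
    refine (measurable_of_finite π).comp ?_
    exact measurable_pi_lambda _ (fun i => hb.comp (hTi i).measurable)
  have hG := gibbs ν (fun x => π (fun i : Fin (k + 1) => b (T^[i] x)))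
    (fun a => hmeasw (measurableSet_singleton a)) Q hQ0 hQ1 cost hc_int (by
      filter_upwards [hpt] with x hx
      exact hx.trans ((hqQ _).trans_eq (by rw [hprκ])))
  rw [hc_val, he_val] at hG
  have hk : ((k : ℕ) : ℝ) * ∫ x, s x ∂ν ≤ ((k + 1 : ℕ) : ℝ) * ∫ x, s x ∂ν := by
    apply mul_le_mul_of_nonneg_right _ hs_nonneg
    push_cast
    linarith
  have hfinal : Real.log cU + (k * ∫ x, s x ∂ν + (k + 1 : ℕ) * (-Real.log (1 - δ) +
      Real.log (cV / δ) * ν.real {x | b x ≠ F (α x)})) ≤
      Real.log cU + (k + 1 : ℕ) * ∫ x, s x ∂ν + (k + 1 : ℕ) * (-Real.log (1 - δ) +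
      Real.log (cV / δ) * ν.real {x | b x ≠ F (α x)}) := by
    linarith
  exact hG.trans hfinal

end Block

end Pool.Agent.MP_3779a0
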