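import Mathlib

/-!
Entropy bounds: approximation of a partition by a fine grid and the grid counting bound.
-/

open MeasureTheory Filter Topology

namespace Pool.Agent.MP_3779a0

/-- A finite measurable partition is, up to small measure, a function of any sufficiently
fine partition. -/
theorem exists_approx {V : Type*} [Fintype V] [Nonempty V]
    [MeasurableSpace V] [MeasurableSingletonClass V]
    (ν : Measure (ℂ × ℂ)) [IsProbabilityMeasure ν] (b : ℂ × ℂ → V) (hb : Measurable b)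
    (η : ℝ) (hη : 0 < η) :
    ∃ e1 : ℝ, 0 < e1 ∧ ∀ e, 0 < e → e < e1 → ∀ (U : Type) (α : ℂ × ℂ → U) (Λ : Set (ℂ × ℂ)),
      (∀ x ∈ Λ, ∀ y ∈ Λ, α x = α y → dist x y ≤ 2 * e) →
      ∃ F : U → V, ν.real {x | x ∈ Λ ∧ b x ≠ F (α x)} ≤ η := by
  classical
  have hcV : (0 : ℝ) < Fintype.card V := by exact_mod_cast Fintype.card_pos
  have hη' : 0 < η / Fintype.card V := div_pos hη hcV
  have hK : ∀ v : V, ∃ K : Set (ℂ × ℂ), K ⊆ {x | b x = v} ∧ IsCompact K ∧
      ν ({x | b x = v} \ K) < ENNReal.ofReal (η / Fintype.card V) := by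
    intro v
    have hm : MeasurableSet {x | b x = v} := hb (measurableSet_singleton v)
    obtain ⟨K, h1, h2, h3⟩ := hm.exists_isCompact_sdiff_lt (measure_ne_top ν _)
      (ENNReal.ofReal_pos.mpr hη').ne'
    exact ⟨K, h1, h2, h3⟩
  choose K hKsub hKc hKm using hK
  have hsep : ∀ v w : V, ∀ᶠ e in 𝓝[>] (0 : ℝ), v ≠ w → ∀ x ∈ K v, ∀ y ∈ K w,
      2 * e < dist x y := by
    intro v w
    by_cases hvw : v = w
    · exact Eventually.of_forall (fun e h => absurd hvw h)
    · have hd : Disjoint (K v) (K w) := by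
        refine Set.disjoint_left.mpr ?_
        intro x hx hy
        exact hvw ((hKsub v hx).symm.trans (hKsub w hy))
      obtain ⟨δ, hδ, hdis⟩ := hd.exists_thickenings (hKc v) (hKc w).isClosed
      have : ∀ᶠ e in 𝓝[>] (0 : ℝ), e < δ / 2 :=
        (eventually_lt_nhds (by positivity : (0 : ℝ) < δ / 2)).filter_mono nhdsWithin_le_nhds
      filter_upwards [this] with e he _ x hx y hy
      by_contra hcon
      push Not at hcon
      have h1 : y ∈ Metric.thickening δ (K v) := by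
        rw [Metric.mem_thickening_iff]
        exact ⟨x, hx, by rw [dist_comm]; linarith⟩
      have h2 : y ∈ Metric.thickening δ (K w) := Metric.self_subset_thickening hδ _ hy
      exact Set.disjoint_left.mp hdis h1 h2
  have hall : ∀ᶠ e in 𝓝[>] (0 : ℝ), ∀ v w : V, v ≠ w → ∀ x ∈ K v, ∀ y ∈ K w,
      2 * e < dist x y := by
    rw [eventually_all]
    intro v
    rw [eventually_all]
    intro w
    exact hsep v w
  obtain ⟨e1, he1, hsub⟩ := mem_nhdsGT_iff_exists_Ioo_subset.mp hall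
  refine ⟨e1, he1, ?_⟩
  intro e he0 he U α Λ hΛ
  have hsep' : ∀ v w : V, v ≠ w → ∀ x ∈ K v, ∀ y ∈ K w, 2 * e < dist x y := hsub ⟨he0, he⟩
  let F : U → V := fun u =>
    if h : ∃ v : V, ∃ x, x ∈ Λ ∧ x ∈ K v ∧ α x = u then h.choose else Classical.arbitrary V
  refine ⟨F, ?_⟩
  have hF : ∀ x ∈ Λ, ∀ v, x ∈ K v → F (α x) = v := by
    intro x hx v hxv
    have h : ∃ v : V, ∃ y, y ∈ Λ ∧ y ∈ K v ∧ α y = α x := ⟨v, x, hx, hxv, rfl⟩
    simp only [F, dif_pos h]
    obtain ⟨y, hy, hyK, hyx⟩ := h.choose_spec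
    by_contra hne
    have h1 := hsep' _ _ hne y hyK x hxv
    have h2 := hΛ y hy x hx hyx
    linarith
  have hsubset : {x | x ∈ Λ ∧ b x ≠ F (α x)} ⊆ ⋃ v : V, ({x | b x = v} \ K v) := by
    rintro x ⟨hx, hne⟩
    rw [Set.mem_iUnion]
    refine ⟨b x, rfl, ?_⟩
    intro hxK
    exact hne (hF x hx (b x) hxK).symm
  calc ν.real {x | x ∈ Λ ∧ b x ≠ F (α x)}
      ≤ ν.real (⋃ v : V, ({x | b x = v} \ K v)) := measureReal_mono hsubset
    _ ≤ ∑ v : V, ν.real ({x | b x = v} \ K v) := measureReal_iUnion_fintype_le _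
    _ ≤ ∑ _v : V, η / Fintype.card V := by
        apply Finset.sum_le_sum
        intro v _
        have := (ENNReal.toReal_lt_toReal (measure_ne_top ν _) ENNReal.ofReal_ne_top).mpr (hKm v)
        rw [ENNReal.toReal_ofReal hη'.le] at this
        exact this.le
    _ = η := by
        rw [Finset.sum_const, Finset.card_univ, nsmul_eq_mul]
        field_simp

section Grid

/-- Grid index of a real number in `[-R, R]` with mesh `e`. -/
noncomputable def gr (R e : ℝ) (t : ℝ) : Fin (⌊2 * R / e⌋₊ + 1) :=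
  ⟨min ⌊(t + R) / e⌋₊ ⌊2 * R / e⌋₊, by omega⟩

theorem gr_val {R e t : ℝ} (he : 0 < e) (ht : |t| ≤ R) :
    ((gr R e t : ℕ) : ℕ) = ⌊(t + R) / e⌋₊ := by
  unfold gr
  simp only
  apply min_eq_left
  apply Nat.floor_le_floor
  have := (abs_le.mp ht).2
  apply div_le_div_of_nonneg_right _ he.le
  linarith

theorem gr_close {R e t s : ℝ} (he : 0 < e) (ht : |t| ≤ R) (hs : |s| ≤ R)
    (h : gr R e t = gr R e s) : |t - s| ≤ e := by
  have h1 : ⌊(t + R) / e⌋₊ = ⌊(s + R) / e⌋₊ := by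
    rw [← gr_val he ht, ← gr_val he hs, h]
  have ht0 : 0 ≤ (t + R) / e := div_nonneg (by linarith [(abs_le.mp ht).1]) he.le
  have hs0 : 0 ≤ (s + R) / e := div_nonneg (by linarith [(abs_le.mp hs).1]) he.le
  have a1 := Nat.floor_le ht0
  have a2 := Nat.lt_floor_add_one ((t + R) / e)
  have a3 := Nat.floor_le hs0
  have a4 := Nat.lt_floor_add_one ((s + R) / e)
  rw [h1] at a1 a2
  have h2 : |(t + R) / e - (s + R) / e| ≤ 1 := by
    rw [abs_le]; constructor <;> linarith
  have h3 : (t + R) / e - (s + R) / e = (t - s) / e := by ring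
  rw [h3, abs_div, abs_of_pos he, div_le_one he] at h2
  exact h2

theorem gr_far {R e t s M : ℝ} (he : 0 < e) (ht : |t| ≤ R) (hs : |s| ≤ R)
    (h : |t - s| ≤ M * (2 * e)) :
    |((gr R e t : ℕ) : ℝ) - ((gr R e s : ℕ) : ℝ)| ≤ 2 * M + 1 := by
  rw [gr_val he ht, gr_val he hs]
  have ht0 : 0 ≤ (t + R) / e := div_nonneg (by linarith [(abs_le.mp ht).1]) he.le
  have hs0 : 0 ≤ (s + R) / e := div_nonneg (by linarith [(abs_le.mp hs).1]) he.le
  have a1 := Nat.floor_le ht0
  have a2 := Nat.lt_floor_add_one ((t + R) / e)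
  have a3 := Nat.floor_le hs0
  have a4 := Nat.lt_floor_add_one ((s + R) / e)
  have h3 : (t + R) / e - (s + R) / e = (t - s) / e := by ring
  have h2 : |(t + R) / e - (s + R) / e| ≤ 2 * M := by
    rw [h3, abs_div, abs_of_pos he, div_le_iff₀ he]
    linarith
  rw [abs_le] at h2 ⊢
  constructor <;> linarith [h2.1, h2.2]

theorem measurable_gr (R e : ℝ) : Measurable (gr R e) := by
  have h1 : Measurable (fun t : ℝ => ⌊(t + R) / e⌋₊) :=
    Nat.measurable_floor.comp ((measurable_id.add_const R).div_const e)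
  have h2 : Measurable (fun n : ℕ => (⟨min n ⌊2 * R / e⌋₊, by omega⟩ :
      Fin (⌊2 * R / e⌋₊ + 1))) := measurable_from_nat
  exact h2.comp h1

/-- Counting grid indices near a given one. -/
theorem card_near (L : ℕ) (a : ℕ) (M : ℝ) (hM : 1 ≤ M) (J : Finset (Fin L))
    (hJ : ∀ j ∈ J, |((j : ℕ) : ℝ) - a| ≤ 2 * M + 1) : (J.card : ℝ) ≤ 7 * M := by
  classical
  set r : ℤ := ⌊2 * M + 1⌋ with hr
  have hr0 : 0 ≤ r := Int.floor_nonneg.mpr (by linarith)
  have h1 : J.card ≤ (Finset.Icc ((a : ℤ) - r) (a + r)).card := by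
    apply Finset.card_le_card_of_injOn (fun j : Fin L => ((j : ℕ) : ℤ))
    · intro j hj
      have h2 := hJ j hj
      rw [abs_le] at h2
      simp only [Finset.coe_Icc, Set.mem_Icc]
      have h3 : ((j : ℕ) : ℤ) - a ≤ r := by
        rw [hr, Int.le_floor]
        push_cast
        exact h2.2
      have h4 : (a : ℤ) - (j : ℕ) ≤ r := by
        rw [hr, Int.le_floor]
        push_cast
        linarith [h2.1]
      constructor <;> linarith
    · intro i _ j _ hij
      apply Fin.ext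
      have h2 : ((i : ℕ) : ℤ) = ((j : ℕ) : ℤ) := hij
      exact_mod_cast h2
  rw [Int.card_Icc] at h1
  have h5 : ((a : ℤ) + r + 1 - (a - r)).toNat = (2 * r + 1).toNat := by congr 1; ring
  rw [h5] at h1
  have h6 : ((2 * r + 1).toNat : ℤ) = 2 * r + 1 := Int.toNat_of_nonneg (by linarith)
  have h7 : (J.card : ℤ) ≤ 2 * r + 1 := by rw [← h6]; exact_mod_cast h1
  have h8 : (J.card : ℝ) ≤ 2 * (r : ℝ) + 1 := by exact_mod_cast h7
  have h9 : (r : ℝ) ≤ 2 * M + 1 := Int.floor_le _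
  linarith

/-- Grid cell of a point of `ℂ × ℂ`. -/
noncomputable def cell (R e : ℝ) (x : ℂ × ℂ) :
    (Fin (⌊2 * R / e⌋₊ + 1) × Fin (⌊2 * R / e⌋₊ + 1)) ×
    (Fin (⌊2 * R / e⌋₊ + 1) × Fin (⌊2 * R / e⌋₊ + 1)) :=
  ((gr R e x.1.re, gr R e x.1.im), (gr R e x.2.re, gr R e x.2.im))

theorem measurable_cell (R e : ℝ) : Measurable (cell R e) := by
  unfold cell
  refine Measurable.prodMk (Measurable.prodMk ?_ ?_) (Measurable.prodMk ?_ ?_)
  · exact (measurable_gr R e).comp (Complex.measurable_re.comp measurable_fst)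
  · exact (measurable_gr R e).comp (Complex.measurable_im.comp measurable_fst)
  · exact (measurable_gr R e).comp (Complex.measurable_re.comp measurable_snd)
  · exact (measurable_gr R e).comp (Complex.measurable_im.comp measurable_snd)

theorem coord_bound {R : ℝ} {x : ℂ × ℂ} (hx : x ∈ Metric.ball (0 : ℂ × ℂ) R) :
    |x.1.re| ≤ R ∧ |x.1.im| ≤ R ∧ |x.2.re| ≤ R ∧ |x.2.im| ≤ R := by
  rw [mem_ball_zero_iff] at hx
  have h1 : ‖x.1‖ ≤ ‖x‖ := norm_fst_le x
  have h2 : ‖x.2‖ ≤ ‖x‖ := norm_snd_le x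
  refine ⟨(Complex.abs_re_le_norm _).trans (by linarith), (Complex.abs_im_le_norm _).trans
    (by linarith), (Complex.abs_re_le_norm _).trans (by linarith),
    (Complex.abs_im_le_norm _).trans (by linarith)⟩

theorem cell_close {R e : ℝ} (he : 0 < e) {x y : ℂ × ℂ} (hx : x ∈ Metric.ball (0 : ℂ × ℂ) R)
    (hy : y ∈ Metric.ball (0 : ℂ × ℂ) R) (h : cell R e x = cell R e y) :
    dist x y ≤ 2 * e := by
  obtain ⟨a1, a2, a3, a4⟩ := coord_bound hx
  obtain ⟨b1, b2, b3, b4⟩ := coord_bound hy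
  unfold cell at h
  simp only [Prod.mk.injEq] at h
  obtain ⟨⟨h1, h2⟩, h3, h4⟩ := h
  have c1 := gr_close he a1 b1 h1
  have c2 := gr_close he a2 b2 h2
  have c3 := gr_close he a3 b3 h3
  have c4 := gr_close he a4 b4 h4
  rw [Prod.dist_eq]
  apply max_le
  · rw [dist_eq_norm]
    have := Complex.norm_le_abs_re_add_abs_im (x.1 - y.1)
    simp only [Complex.sub_re, Complex.sub_im] at this
    linarith
  · rw [dist_eq_norm]
    have := Complex.norm_le_abs_re_add_abs_im (x.2 - y.2)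
    simp only [Complex.sub_re, Complex.sub_im] at this
    linarith

/-- The set of cells reached from a given cell. -/
noncomputable def reach (R e : ℝ) (T : ℂ × ℂ → ℂ × ℂ) (Λ : Set (ℂ × ℂ))
    (c : (Fin (⌊2 * R / e⌋₊ + 1) × Fin (⌊2 * R / e⌋₊ + 1)) ×
    (Fin (⌊2 * R / e⌋₊ + 1) × Fin (⌊2 * R / e⌋₊ + 1))) :
    Finset ((Fin (⌊2 * R / e⌋₊ + 1) × Fin (⌊2 * R / e⌋₊ + 1)) ×
    (Fin (⌊2 * R / e⌋₊ + 1) × Fin (⌊2 * R / e⌋₊ + 1))) := by
  classical
  exact Finset.univ.filter (fun u => ∃ y ∈ Λ, cell R e y = c ∧ cell R e (T y) = u)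

theorem card_reach {R e : ℝ} (he : 0 < e) (T : ℂ × ℂ → ℂ × ℂ) (Λ : Set (ℂ × ℂ))
    (hΛ : ∀ y ∈ Λ, T y ∈ Metric.ball (0 : ℂ × ℂ) R) (x : ℂ × ℂ) (hx : x ∈ Λ) (M : ℝ)
    (hM : 1 ≤ M)
    (h : ∀ y ∈ Λ, cell R e y = cell R e x → dist (T y) (T x) ≤ M * (2 * e)) :
    ((reach R e T Λ (cell R e x)).card : ℝ) ≤ (7 * M) ^ 4 := by
  classical
  let J : ℝ → Finset (Fin (⌊2 * R / e⌋₊ + 1)) := fun t =>
    Finset.univ.filter (fun j => |((j : ℕ) : ℝ) - ((gr R e t : ℕ) : ℝ)| ≤ 2 * M + 1)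
  have hJ : ∀ t, ((J t).card : ℝ) ≤ 7 * M := by
    intro t
    apply card_near _ (gr R e t : ℕ) M hM
    intro j hj
    exact (Finset.mem_filter.mp hj).2
  obtain ⟨b1, b2, b3, b4⟩ := coord_bound (hΛ x hx)
  have hsub : reach R e T Λ (cell R e x) ⊆
      (J (T x).1.re ×ˢ J (T x).1.im) ×ˢ (J (T x).2.re ×ˢ J (T x).2.im) := by
    intro u hu
    unfold reach at hu
    rw [Finset.mem_filter] at hu
    obtain ⟨_, y, hy, hyx, rfl⟩ := hu
    have hd := h y hy hyx
    obtain ⟨a1, a2, a3, a4⟩ := coord_bound (hΛ y hy)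
    rw [Prod.dist_eq, max_le_iff, dist_eq_norm, dist_eq_norm] at hd
    obtain ⟨hd1, hd2⟩ := hd
    simp only [Finset.mem_product, cell, J, Finset.mem_filter, Finset.mem_univ, true_and]
    refine ⟨⟨gr_far he a1 b1 ?_, gr_far he a2 b2 ?_⟩, gr_far he a3 b3 ?_, gr_far he a4 b4 ?_⟩
    · have := Complex.abs_re_le_norm ((T y).1 - (T x).1)
      simp only [Complex.sub_re] at this
      linarith
    · have := Complex.abs_im_le_norm ((T y).1 - (T x).1)
      simp only [Complex.sub_im] at this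
      linarith
    · have := Complex.abs_re_le_norm ((T y).2 - (T x).2)
      simp only [Complex.sub_re] at this
      linarith
    · have := Complex.abs_im_le_norm ((T y).2 - (T x).2)
      simp only [Complex.sub_im] at this
      linarith
  have h1 := Finset.card_le_card hsub
  rw [Finset.card_product, Finset.card_product, Finset.card_product] at h1
  have h2 : ((reach R e T Λ (cell R e x)).card : ℝ) ≤
      (((J (T x).1.re).card : ℝ) * (J (T x).1.im).card) *
      (((J (T x).2.re).card : ℝ) * (J (T x).2.im).card) := by exact_mod_cast h1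
  refine h2.trans ?_
  have h7 : (0 : ℝ) ≤ 7 * M := by linarith
  calc (((J (T x).1.re).card : ℝ) * (J (T x).1.im).card) *
      (((J (T x).2.re).card : ℝ) * (J (T x).2.im).card)
      ≤ ((7 * M) * (7 * M)) * ((7 * M) * (7 * M)) := by
        apply mul_le_mul
        · exact mul_le_mul (hJ _) (hJ _) (by positivity) h7
        · exact mul_le_mul (hJ _) (hJ _) (by positivity) h7
        · positivity
        · positivity
    _ = (7 * M) ^ 4 := by ring

end Grid

end Pool.Agent.MP_3779a0
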