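import Pool.Agent.MP_3779a0.Defs
import Pool.Agent.MP_3779a0.B12
import Pool.Agent.MP_3779a0.B34

/-!
Entropy bound for maps whose iterates expand at most by a given cocycle.
-/

open MeasureTheory Filter Topology

namespace Pool.Agent.MP_3779a0

/-- Real form of the bound for one finite partition. -/
theorem wordEntropy_bound (f : ℂ × ℂ → ℂ × ℂ)
    (ν : Measure (ℂ × ℂ)) (hν : IsInvProb f ν) (R : ℝ)
    (hR : ∀ᵐ x ∂ν, ∀ n : ℕ, f^[n] x ∈ Metric.ball (0 : ℂ × ℂ) R)
    (d : ℂ × ℂ → ℝ) (hd : Continuous d) (hd0 : ∀ x, 0 ≤ d x) (C C1 : ℝ) (hC : 0 ≤ C)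
    (hC1 : 1 ≤ C1)
    (hexp : ∀ (m : ℕ) (η : ℝ), 0 < η → ∃ ε0 > 0,
      ∀ x y : ℂ × ℂ, (∀ i < m, f^[i] x ∈ Metric.ball (0 : ℂ × ℂ) R) → dist x y ≤ ε0 →
        dist (f^[m] x) (f^[m] y) ≤
          C1 * (∏ i ∈ Finset.range m, (1 + C * (d (f^[i] x) + η))) * dist x y)
    {k : ℕ} (β : ℂ × ℂ → Fin k) (hβ : Measurable β) (ε : ℝ) (hε : 0 < ε) :
    ∃ A : ℝ, ∀ N : ℕ, wordEntropy f ν β N ≤ A + N * (4 * C * ∫ x, d x ∂ν + ε) := by
  classical
  obtain ⟨hP, hpres⟩ := hν
  -- the good set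
  set Λ : Set (ℂ × ℂ) := {x | ∀ n : ℕ, f^[n] x ∈ Metric.ball (0 : ℂ × ℂ) R} with hΛdef
  have hΛ1 : ∀ᵐ x ∂ν, x ∈ Λ := hR
  have hΛball : ∀ x ∈ Λ, x ∈ Metric.ball (0 : ℂ × ℂ) R := fun x hx => hx 0
  have hΛf : ∀ x ∈ Λ, ∀ m : ℕ, f^[m] x ∈ Λ := by
    intro x hx m n
    rw [← Function.iterate_add_apply]
    exact hx _
  -- nonempty index type
  have hXne : Nonempty (Fin k) := ⟨β 0⟩
  -- d is integrable along the orbit
  obtain ⟨D, hD⟩ : ∃ D : ℝ, ∀ x ∈ Metric.closedBall (0 : ℂ × ℂ) R, ‖d x‖ ≤ D :=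
    (isCompact_closedBall (0 : ℂ × ℂ) R).exists_bound_of_continuousOn hd.continuousOn
  have hd_int : Integrable d ν := by
    refine Integrable.of_bound hd.aestronglyMeasurable D ?_
    filter_upwards [hΛ1] with x hx
    exact hD x (Metric.ball_subset_closedBall (hΛball x hx))
  have hTi : ∀ i : ℕ, MeasurePreserving (f^[i]) ν ν := fun i => hpres.iterate i
  have hcomp_int : ∀ i : ℕ, Integrable (fun x => d (f^[i] x)) ν :=
    fun i => (hTi i).integrable_comp_of_integrable hd_int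
  have hcomp_val : ∀ i : ℕ, ∫ x, d (f^[i] x) ∂ν = ∫ x, d x ∂ν := by
    intro i
    have h1 := integral_map (μ := ν) (hTi i).measurable.aemeasurable
      (f := d) (by rw [(hTi i).map_eq]; exact hd_int.aestronglyMeasurable)
    rw [(hTi i).map_eq] at h1
    exact h1.symm
  set I : ℝ := ∫ x, d x ∂ν with hI
  have hI0 : 0 ≤ I := integral_nonneg hd0
  -- choice of the parameters
  set η : ℝ := ε / (8 * (C + 1)) with hηdef
  have hη : 0 < η := by positivity
  have hCη : 4 * C * η ≤ ε / 2 := by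
    rw [hηdef]
    have : 4 * C * (ε / (8 * (C + 1))) = (ε / 2) * (C / (C + 1)) := by
      field_simp
      ring
    rw [this]
    have h2 : C / (C + 1) ≤ 1 := by
      rw [div_le_one (by linarith)]; linarith
    exact mul_le_of_le_one_right (by positivity) h2
  set B : ℝ := 4 * Real.log (7 * C1) + Real.log 2 + 1 with hB
  have hlogC1 : 0 ≤ Real.log (7 * C1) := Real.log_nonneg (by linarith)
  have hlog2 : 0 ≤ Real.log 2 := Real.log_nonneg (by norm_num)
  have hB0 : 0 < B := by rw [hB]; linarith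
  obtain ⟨m, hm⟩ : ∃ m : ℕ, 2 * B / ε < m := exists_nat_gt _
  have hmpos : 0 < (m : ℝ) := lt_of_le_of_lt (by positivity) hm
  have hm1 : 0 < m := by exact_mod_cast hmpos
  have hBm : B ≤ m * (ε / 2) := by
    rw [div_lt_iff₀ hε] at hm
    linarith
  obtain ⟨ε0, hε0, hexp0⟩ := hexp m η hη
  -- the block partition
  let V := Fin m → Fin k
  let b : ℂ × ℂ → V := fun x j => β (f^[j] x)
  have hb : Measurable b := measurable_pi_lambda _ (fun j => hβ.comp (hTi j).measurable)
  set LV : ℝ := Real.log ((Fintype.card V : ℝ) / (1 / 2)) with hLV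
  have hcV : (1 : ℝ) ≤ Fintype.card V := by exact_mod_cast Fintype.card_pos
  have hLV0 : 0 ≤ LV := Real.log_nonneg (by
    rw [le_div_iff₀ (by norm_num)]; linarith)
  set δ' : ℝ := 1 / (LV + 1) with hδ'
  have hδ'0 : 0 < δ' := by positivity
  have hLVδ : LV * δ' ≤ 1 := by
    rw [hδ', mul_one_div, div_le_one (by linarith)]
    linarith
  obtain ⟨e1, he1, happ⟩ := exists_approx ν b hb δ' hδ'0
  -- the mesh
  set e : ℝ := min (e1 / 2) (ε0 / 2) with he
  have hepos : 0 < e := lt_min (by positivity) (by positivity)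
  have hee1 : e < e1 := lt_of_le_of_lt (min_le_left _ _) (by linarith)
  have heε0 : 2 * e ≤ ε0 := by
    have := min_le_right (e1 / 2) (ε0 / 2)
    rw [← he] at this
    linarith
  obtain ⟨F, hF⟩ := happ e hepos hee1 _ (cell R e) Λ (fun x hx y hy h =>
    cell_close hepos (hΛball x hx) (hΛball y hy) h)
  let T : ℂ × ℂ → ℂ × ℂ := f^[m]
  let S := reach R e T Λ
  -- the expansion factor
  let Mx : ℂ × ℂ → ℝ := fun x => C1 * (∏ i ∈ Finset.range m, (1 + C * (d (f^[i] x) + η)))
  have hfac : ∀ x i, 1 ≤ 1 + C * (d (f^[i] x) + η) := by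
    intro x i
    have : 0 ≤ C * (d (f^[i] x) + η) := mul_nonneg hC (by linarith [hd0 (f^[i] x)])
    linarith
  have hprod : ∀ x, 1 ≤ ∏ i ∈ Finset.range m, (1 + C * (d (f^[i] x) + η)) := by
    intro x
    refine Finset.prod_induction _ (fun r : ℝ => 1 ≤ r) ?_ le_rfl (fun i _ => hfac x i)
    intro a b ha hb'
    exact one_le_mul_of_one_le_of_one_le ha hb'
  have hMx : ∀ x, 1 ≤ Mx x := fun x => one_le_mul_of_one_le_of_one_le hC1 (hprod x)
  have hScard : ∀ x ∈ Λ, ((S (cell R e x)).card : ℝ) ≤ (7 * Mx x) ^ 4 := by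
    intro x hx
    apply card_reach hepos T Λ (fun y hy => hΛball _ (hΛf y hy m)) x hx (Mx x) (hMx x)
    intro y hy hyx
    have h1 : dist x y ≤ 2 * e := cell_close hepos (hΛball x hx) (hΛball y hy) hyx.symm
    have h2 := hexp0 x y (fun i _ => hx i) (h1.trans heε0)
    rw [dist_comm]
    exact h2.trans (mul_le_mul_of_nonneg_left h1 (by linarith [hMx x]))
  have hSmem : ∀ᵐ x ∂ν, cell R e (T x) ∈ S (cell R e x) := by
    filter_upwards [hΛ1] with x hx
    show cell R e (T x) ∈ reach R e T Λ (cell R e x)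
    unfold reach
    rw [Finset.mem_filter]
    exact ⟨Finset.mem_univ _, x, hx, rfl, rfl⟩
  -- integral of the log of the number of successors
  let up : ℂ × ℂ → ℝ := fun x => 4 * (Real.log (7 * C1) +
    ∑ i ∈ Finset.range m, C * (d (f^[i] x) + η))
  have hterm_int : ∀ i : ℕ, Integrable (fun x => C * (d (f^[i] x) + η)) ν := fun i =>
    ((hcomp_int i).add (integrable_const _)).const_mul C
  have hsum_int : Integrable (fun x => ∑ i ∈ Finset.range m, C * (d (f^[i] x) + η)) ν :=
    integrable_finsetSum _ (fun i _ => hterm_int i)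
  have hup_int : Integrable up ν := by
    exact ((integrable_const _).add hsum_int).const_mul 4
  have hup_val : ∫ x, up x ∂ν = 4 * (Real.log (7 * C1) + m * (C * (I + η))) := by
    simp only [up]
    rw [integral_const_mul, integral_add (integrable_const _) hsum_int,
      integral_finsetSum _ (fun i _ => hterm_int i)]
    have h1 : ∀ i ∈ Finset.range m, ∫ x, C * (d (f^[i] x) + η) ∂ν = C * (I + η) := by
      intro i _
      rw [integral_const_mul, integral_add (hcomp_int i) (integrable_const _), hcomp_val i]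
      simp
    rw [Finset.sum_congr rfl h1]
    simp
  have hlogS : ∫ x, Real.log ((S (cell R e x)).card : ℝ) ∂ν ≤ ∫ x, up x ∂ν := by
    apply integral_mono_ae
    · exact integrable_comp_fintype ν (cell R e) (measurable_cell R e)
        (fun u => Real.log ((S u).card : ℝ))
    · exact hup_int
    · filter_upwards [hΛ1, hSmem] with x hx hxS
      have hpos : 0 < ((S (cell R e x)).card : ℝ) := by
        exact_mod_cast Finset.card_pos.mpr ⟨_, hxS⟩
      have h7 : 0 < 7 * Mx x := by linarith [hMx x]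
      have h1 := Real.log_le_log hpos (hScard x hx)
      rw [Real.log_pow] at h1
      have h2 : Real.log (7 * Mx x) = Real.log (7 * C1) +
          ∑ i ∈ Finset.range m, Real.log (1 + C * (d (f^[i] x) + η)) := by
        simp only [Mx]
        rw [← mul_assoc, Real.log_mul (by linarith) (by linarith [hprod x]),
          Real.log_prod]
        intro i _
        linarith [hfac x i]
      have h3 : ∑ i ∈ Finset.range m, Real.log (1 + C * (d (f^[i] x) + η)) ≤
          ∑ i ∈ Finset.range m, C * (d (f^[i] x) + η) := by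
        apply Finset.sum_le_sum
        intro i _
        have := Real.log_le_sub_one_of_pos (lt_of_lt_of_le one_pos (hfac x i))
        linarith
      simp only [up]
      push_cast at h1
      linarith
  -- final constant
  set cU : ℝ := (Fintype.card ((Fin (⌊2 * R / e⌋₊ + 1) × Fin (⌊2 * R / e⌋₊ + 1)) ×
    (Fin (⌊2 * R / e⌋₊ + 1) × Fin (⌊2 * R / e⌋₊ + 1))) : ℝ) with hcU
  set c' : ℝ := m * (4 * C * I + ε) with hc'
  have hbad : ν.real {x | b x ≠ F (cell R e x)} ≤ δ' := by
    have h1 : ν.real {x | b x ≠ F (cell R e x)} =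
        ν.real {x | x ∈ Λ ∧ b x ≠ F (cell R e x)} := by
      apply measureReal_congr
      filter_upwards [hΛ1] with x hx
      apply propext
      show b x ≠ F (cell R e x) ↔ (x ∈ Λ ∧ b x ≠ F (cell R e x))
      constructor
      · intro h; exact ⟨hx, h⟩
      · intro h; exact h.2
    rw [h1]
    exact hF
  have hstep : ∫ x, Real.log ((S (cell R e x)).card : ℝ) ∂ν +
      (-Real.log (1 - 1 / 2) + LV * ν.real {x | b x ≠ F (cell R e x)}) ≤ c' := by
    have h1 : -Real.log (1 - 1 / 2) = Real.log 2 := by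
      rw [show (1 : ℝ) - 1 / 2 = 2⁻¹ by norm_num, Real.log_inv, neg_neg]
    have h2 : LV * ν.real {x | b x ≠ F (cell R e x)} ≤ 1 :=
      (mul_le_mul_of_nonneg_left hbad hLV0).trans hLVδ
    have h3 := hlogS
    rw [hup_val] at h3
    have h4 : (m : ℝ) * (4 * C * η) ≤ m * (ε / 2) := mul_le_mul_of_nonneg_left hCη hmpos.le
    rw [h1, hc']
    have h5 : 4 * (Real.log (7 * C1) + m * (C * (I + η))) + (Real.log 2 + 1) =
        B + m * (4 * C * I) + m * (4 * C * η) := by rw [hB]; ring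
    have h6 : (m : ℝ) * (4 * C * I + ε) = m * (4 * C * I) + m * (ε / 2) + m * (ε / 2) := by ring
    linarith
  refine ⟨Real.log cU + c', ?_⟩
  intro N
  let n : ℕ := N / m + 1
  let π : (Fin n → V) → (Fin N → Fin k) := fun v j =>
    v ⟨j / m, by
      have : (j : ℕ) / m ≤ N / m := Nat.div_le_div_right j.2.le
      omega⟩ ⟨j % m, Nat.mod_lt _ hm1⟩
  have hblock := block_entropy ν T (hTi m) (cell R e) (measurable_cell R e) S hSmem b hb F
    (1 / 2) (by norm_num) (by norm_num) n (Nat.succ_pos _) π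
  have hword : ∀ x, π (fun i : Fin n => b (T^[i] x)) = fun j : Fin N => β (f^[j] x) := by
    intro x
    funext j
    simp only [π, b, T]
    rw [← Function.iterate_mul, ← Function.iterate_add_apply]
    congr 2
    rw [Nat.mod_add_div]
  have hsets : ∀ w : Fin N → Fin k, {x | π (fun i : Fin n => b (T^[i] x)) = w} =
      {x | ∀ i : Fin N, β (f^[i] x) = w i} := by
    intro w
    ext x
    simp only [Set.mem_ofPred_eq, hword x]
    exact funext_iff
  have hlhs : wordEntropy f ν β N =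
      ∑ a, Real.negMulLog (ν.real {x | π (fun i : Fin n => b (T^[i] x)) = a}) := by
    unfold wordEntropy
    apply Finset.sum_congr rfl
    intro w _
    rw [hsets w]
  rw [hlhs]
  have hn : ((n : ℕ) : ℝ) * m ≤ N + m := by
    have h1 : N / m * m ≤ N := Nat.div_mul_le_self N m
    have h2 : ((N / m : ℕ) : ℝ) * m ≤ N := by exact_mod_cast h1
    simp only [n]
    push_cast
    linarith
  have hpos : 0 ≤ 4 * C * I + ε := by positivity
  calc ∑ a, Real.negMulLog (ν.real {x | π (fun i : Fin n => b (T^[i] x)) = a})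
      ≤ Real.log cU + n * ∫ x, Real.log ((S (cell R e x)).card : ℝ) ∂ν
        + n * (-Real.log (1 - 1 / 2) + LV * ν.real {x | b x ≠ F (cell R e x)}) := hblock
    _ = Real.log cU + n * (∫ x, Real.log ((S (cell R e x)).card : ℝ) ∂ν +
      (-Real.log (1 - 1 / 2) + LV * ν.real {x | b x ≠ F (cell R e x)})) := by ring
    _ ≤ Real.log cU + n * c' := by
        have := mul_le_mul_of_nonneg_left hstep (Nat.cast_nonneg n : (0 : ℝ) ≤ n)
        linarith
    _ ≤ Real.log cU + c' + N * (4 * C * I + ε) := by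
        rw [hc']
        have := mul_le_mul_of_nonneg_right hn hpos
        nlinarith

theorem entropy_le_of_expansion (f : ℂ × ℂ → ℂ × ℂ) (_hf : Continuous f)
    (ν : Measure (ℂ × ℂ)) (hν : IsInvProb f ν) (R : ℝ)
    (hR : ∀ᵐ x ∂ν, ∀ n : ℕ, f^[n] x ∈ Metric.ball (0 : ℂ × ℂ) R)
    (d : ℂ × ℂ → ℝ) (hd : Continuous d) (hd0 : ∀ x, 0 ≤ d x) (C C1 : ℝ) (hC : 0 ≤ C)
    (hC1 : 1 ≤ C1)
    (hexp : ∀ (m : ℕ) (η : ℝ), 0 < η → ∃ ε0 > 0,
      ∀ x y : ℂ × ℂ, (∀ i < m, f^[i] x ∈ Metric.ball (0 : ℂ × ℂ) R) → dist x y ≤ ε0 →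
        dist (f^[m] x) (f^[m] y) ≤
          C1 * (∏ i ∈ Finset.range m, (1 + C * (d (f^[i] x) + η))) * dist x y) :
    entropy f ν ≤ ((4 * C * ∫ x, d x ∂ν : ℝ) : EReal) := by
  unfold entropy
  refine iSup_le (fun k => iSup_le (fun β => iSup_le (fun hβ => ?_)))
  rw [← EReal.le_of_forall_lt_iff_le]
  intro z hz
  have hz' : 4 * C * ∫ x, d x ∂ν < z := by exact_mod_cast hz
  set ε : ℝ := (z - 4 * C * ∫ x, d x ∂ν) / 2 with hε
  have hε0 : 0 < ε := by rw [hε]; linarith
  obtain ⟨A, hA⟩ := wordEntropy_bound f ν hν R hR d hd hd0 C C1 hC hC1 hexp β hβ ε hε0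
  apply limsup_le_of_le
  · isBoundedDefault
  · have h1 : ∀ᶠ N : ℕ in atTop, A / N < ε :=
      (tendsto_const_div_atTop_nhds_zero_nat A).eventually_lt_const hε0
    filter_upwards [h1, eventually_gt_atTop 0] with N hN hN0
    have hNpos : (0 : ℝ) < N := by exact_mod_cast hN0
    have h2 : wordEntropy f ν β N / N ≤ z := by
      rw [div_le_iff₀ hNpos]
      have h3 := hA N
      have h4 : A < ε * N := by rwa [div_lt_iff₀ hNpos] at hN
      have h5 : z = 4 * C * ∫ x, d x ∂ν + 2 * ε := by rw [hε]; ring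
      rw [h5]
      nlinarith
    exact_mod_cast h2

end Pool.Agent.MP_3779a0
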