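import Pool.Agent.MP_3779a0.Objects

/-! Module C1: unique ergodicity of the rotation by `√2` on the circle. -/

open MeasureTheory Filter Topology

namespace Pool.Agent.MP_3779a0

theorem fourier_add_sqrt (n : ℤ) (θ : UnitAddCircle) :
    fourier n (θ + ((Real.sqrt 2 : ℝ) : UnitAddCircle)) =
      Complex.exp (2 * Real.pi * Complex.I * n * (Real.sqrt 2 : ℝ)) * fourier n θ := by
  have h1 : (fourier n ((Real.sqrt 2 : ℝ) : UnitAddCircle) : ℂ) =
      Complex.exp (2 * Real.pi * Complex.I * n * (Real.sqrt 2 : ℝ)) := by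
    rw [fourier_coe_apply]; simp
  rw [← h1, fourier_apply, fourier_apply, fourier_apply, smul_add, AddCircle.toCircle_add,
    Circle.coe_mul, mul_comm]

theorem exp_sqrt_ne_one {n : ℤ} (hn : n ≠ 0) :
    Complex.exp (2 * Real.pi * Complex.I * n * (Real.sqrt 2 : ℝ)) ≠ 1 := by
  intro h
  rw [Complex.exp_eq_one_iff] at h
  obtain ⟨m, hm⟩ := h
  have h2 : (2 * Real.pi * Complex.I : ℂ) ≠ 0 := Complex.two_pi_I_ne_zero
  have h3 : (n : ℂ) * (Real.sqrt 2 : ℝ) = m := by
    have : (2 * Real.pi * Complex.I : ℂ) * ((n : ℂ) * (Real.sqrt 2 : ℝ)) =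
        (2 * Real.pi * Complex.I : ℂ) * m := by
      rw [← mul_assoc, hm]; ring
    exact mul_left_cancel₀ h2 this
  have h4 : (n : ℝ) * Real.sqrt 2 = m := by exact_mod_cast h3
  have h5 : Irrational ((n : ℝ) * Real.sqrt 2) := irrational_sqrt_two.intCast_mul hn
  exact h5 ⟨m, by rw [h4]; simp⟩

theorem integral_fourier_eq_zero (ν : Measure UnitAddCircle) [IsProbabilityMeasure ν]
    (h : MeasurePreserving (fun θ => θ + ((Real.sqrt 2 : ℝ) : UnitAddCircle)) ν ν) {n : ℤ}
    (hn : n ≠ 0) : ∫ θ, (fourier n θ : ℂ) ∂ν = 0 := by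
  have hm : MeasurableEmbedding (fun θ : UnitAddCircle => θ + ((Real.sqrt 2 : ℝ) : UnitAddCircle)) :=
    (Homeomorph.addRight ((Real.sqrt 2 : ℝ) : UnitAddCircle)).measurableEmbedding
  have h1 := h.integral_comp hm (fun θ => (fourier n θ : ℂ))
  simp_rw [fourier_add_sqrt] at h1
  rw [integral_const_mul] at h1
  have h2 : (Complex.exp (2 * Real.pi * Complex.I * n * (Real.sqrt 2 : ℝ)) - 1) *
      ∫ θ, (fourier n θ : ℂ) ∂ν = 0 := by
    rw [sub_mul, h1]; ring
  rcases mul_eq_zero.1 h2 with h3 | h3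
  · exact absurd (sub_eq_zero.1 h3) (exp_sqrt_ne_one hn)
  · exact h3

theorem circle_unique (ν₁ ν₂ : Measure UnitAddCircle) [IsProbabilityMeasure ν₁]
    [IsProbabilityMeasure ν₂]
    (h₁ : MeasurePreserving (fun θ => θ + ((Real.sqrt 2 : ℝ) : UnitAddCircle)) ν₁ ν₁)
    (h₂ : MeasurePreserving (fun θ => θ + ((Real.sqrt 2 : ℝ) : UnitAddCircle)) ν₂ ν₂) :
    ν₁ = ν₂ := by
  have hF : ∀ n : ℤ, ∫ θ, (fourier n θ : ℂ) ∂ν₁ = ∫ θ, (fourier n θ : ℂ) ∂ν₂ := by
    intro n
    by_cases hn : n = 0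
    · subst hn; simp
    · rw [integral_fourier_eq_zero ν₁ h₁ hn, integral_fourier_eq_zero ν₂ h₂ hn]
  -- all continuous functions
  have hint : ∀ (ν : Measure UnitAddCircle) [IsProbabilityMeasure ν] (f : C(UnitAddCircle, ℂ)),
      Integrable f ν := fun ν _ f => f.continuous.integrable_of_hasCompactSupport
        (HasCompactSupport.of_compactSpace _)
  have hall : ∀ f : C(UnitAddCircle, ℂ), ∫ θ, f θ ∂ν₁ = ∫ θ, f θ ∂ν₂ := by
    let S : Submodule ℂ C(UnitAddCircle, ℂ) :=
      { carrier := {f | ∫ θ, f θ ∂ν₁ = ∫ θ, f θ ∂ν₂}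
        add_mem' := by
          intro f g hf hg
          simp only [Set.mem_ofPred_eq, ContinuousMap.add_apply] at *
          rw [integral_add (hint ν₁ f) (hint ν₁ g), integral_add (hint ν₂ f) (hint ν₂ g), hf, hg]
        zero_mem' := by simp
        smul_mem' := by
          intro c f hf
          simp only [Set.mem_ofPred_eq, ContinuousMap.smul_apply] at *
          rw [integral_smul, integral_smul, hf] }
    have hSc : IsClosed (S : Set C(UnitAddCircle, ℂ)) := by
      have hc : ∀ (ν : Measure UnitAddCircle) [IsProbabilityMeasure ν],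
          Continuous fun f : C(UnitAddCircle, ℂ) => ∫ θ, f θ ∂ν := by
        intro ν _
        refine LipschitzWith.continuous (K := 1) (LipschitzWith.of_dist_le_mul fun f g => ?_)
        rw [dist_eq_norm, ← integral_sub (hint ν f) (hint ν g)]
        refine (norm_integral_le_of_norm_le_const (C := dist f g)
          (Eventually.of_forall fun θ => ?_)).trans ?_
        · rw [← dist_eq_norm]; exact ContinuousMap.dist_apply_le_dist θ
        · simp
      exact isClosed_eq (hc ν₁) (hc ν₂)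
    have hle : Submodule.span ℂ (Set.range (@fourier 1)) ≤ S := by
      rw [Submodule.span_le]
      rintro _ ⟨n, rfl⟩
      exact hF n
    have htop : (⊤ : Submodule ℂ C(UnitAddCircle, ℂ)) ≤ S := by
      rw [← span_fourier_closure_eq_top]
      exact Submodule.topologicalClosure_minimal _ hle hSc
    intro f
    exact htop (Submodule.mem_top (x := f))
  refine ext_of_forall_integral_eq_of_IsFiniteMeasure fun f => ?_
  let F : C(UnitAddCircle, ℂ) := ⟨fun θ => (f θ : ℂ), Complex.continuous_ofReal.comp f.continuous⟩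
  have h3 := hall F
  have h4 : ∀ ν : Measure UnitAddCircle, ∫ θ, F θ ∂ν = ((∫ θ, f θ ∂ν : ℝ) : ℂ) :=
    fun ν => integral_ofReal
  rw [h4, h4] at h3
  exact_mod_cast h3

end Pool.Agent.MP_3779a0
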