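import Pool.Agent.MP_3779a0.Objects

open MeasureTheory Filter Topology

namespace Pool.Agent.MP_3779a0

theorem lam_pow_eq (m : ℕ) :
    lam ^ m = Complex.exp (Complex.I * ((2 * Real.pi * (m * Real.sqrt 2) : ℝ) : ℂ)) := by
  unfold lam
  rw [← Complex.exp_nat_mul]
  congr 1
  push_cast
  ring

theorem lam_norm : ‖lam‖ = 1 := by
  have h := lam_pow_eq 1
  rw [pow_one] at h
  rw [h, mul_comm]
  exact Complex.norm_exp_ofReal_mul_I _

theorem lam_ne_zero : lam ≠ 0 := by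
  intro h
  have := lam_norm
  rw [h] at this
  simp at this

theorem lam_pow_norm (m : ℕ) : ‖lam ^ m‖ = 1 := by
  rw [norm_pow, lam_norm, one_pow]

theorem lam_pow_sub_one_eq (m : ℕ) (p : ℤ) :
    ‖lam ^ m - 1‖ = 2 * |Real.sin (Real.pi * (m * Real.sqrt 2 - p))| := by
  have h1 : lam ^ m = Complex.exp (Complex.I * ((2 * Real.pi * (m * Real.sqrt 2 - p) : ℝ) : ℂ)) := by
    rw [lam_pow_eq]
    have : (Complex.I * ((2 * Real.pi * (m * Real.sqrt 2 - p) : ℝ) : ℂ))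
        = Complex.I * ((2 * Real.pi * (m * Real.sqrt 2) : ℝ) : ℂ) - p * (2 * Real.pi * Complex.I) := by
      push_cast
      ring
    rw [this, Complex.exp_sub, Complex.exp_int_mul_two_pi_mul_I, div_one]
  rw [h1, Complex.norm_exp_I_mul_ofReal_sub_one]
  rw [Real.norm_eq_abs, abs_mul, abs_two]
  congr 3
  ring

theorem sqrt_two_approx_ne (m : ℕ) (hm : 1 ≤ m) (p : ℤ) : (2 * (m : ℤ) ^ 2 - p ^ 2 : ℤ) ≠ 0 := by
  intro h
  have hirr := irrational_sqrt_two
  apply hirr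
  refine ⟨(|p| : ℤ) / (m : ℤ), ?_⟩
  have h2 : ((|p| : ℤ) : ℝ) ^ 2 = 2 * (m : ℝ) ^ 2 := by
    have : (p ^ 2 : ℤ) = 2 * (m : ℤ) ^ 2 := by linarith
    have h3 : ((|p| : ℤ)) ^ 2 = 2 * (m : ℤ) ^ 2 := by rw [sq_abs]; exact this
    exact_mod_cast h3
  have hm' : (0 : ℝ) < m := by exact_mod_cast hm
  push_cast
  rw [eq_comm, Real.sqrt_eq_iff_mul_self_eq (by norm_num) (by positivity)]
  field_simp
  push_cast at h2
  linarith [h2]

theorem lam_pow_sub_one (m : ℕ) (hm : 1 ≤ m) : 1 / (m : ℝ) ≤ ‖lam ^ m - 1‖ := by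
  have hm' : (1 : ℝ) ≤ m := by exact_mod_cast hm
  set p : ℤ := round ((m : ℝ) * Real.sqrt 2) with hp
  set x : ℝ := (m : ℝ) * Real.sqrt 2 - p with hx
  have hx1 : |x| ≤ 1 / 2 := abs_sub_round _
  have hs0 : (0 : ℝ) ≤ Real.sqrt 2 := Real.sqrt_nonneg 2
  have hs1 : Real.sqrt 2 * Real.sqrt 2 = 2 := Real.mul_self_sqrt (by norm_num)
  have hs2 : Real.sqrt 2 ≤ 3 / 2 := by
    nlinarith
  have hprod : x * ((m : ℝ) * Real.sqrt 2 + p) = ((2 * (m : ℤ) ^ 2 - p ^ 2 : ℤ) : ℝ) := by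
    rw [hx]
    push_cast
    linear_combination ((m : ℝ) ^ 2) * hs1
  have hge : (1 : ℝ) ≤ |x * ((m : ℝ) * Real.sqrt 2 + p)| := by
    rw [hprod]
    have := Int.one_le_abs (sqrt_two_approx_ne m hm p)
    exact_mod_cast this
  have hub : |(m : ℝ) * Real.sqrt 2 + p| ≤ 4 * m := by
    have h1 := abs_le.mp hx1
    rw [abs_le]
    have h2 : (p : ℝ) = m * Real.sqrt 2 - x := by rw [hx]; ring
    have h3 : (m : ℝ) * Real.sqrt 2 ≤ m * (3 / 2) := by
      exact mul_le_mul_of_nonneg_left hs2 (by linarith)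
    have h4 : 0 ≤ (m : ℝ) * Real.sqrt 2 := by positivity
    constructor <;> nlinarith
  have hxm : 1 ≤ |x| * (4 * m) := by
    calc (1 : ℝ) ≤ |x * ((m : ℝ) * Real.sqrt 2 + p)| := hge
      _ = |x| * |(m : ℝ) * Real.sqrt 2 + p| := abs_mul _ _
      _ ≤ |x| * (4 * m) := by gcongr
  rw [lam_pow_sub_one_eq m p]
  have hsin := Real.mul_abs_le_abs_sin (x := Real.pi * x) (by
    rw [abs_mul, abs_of_pos Real.pi_pos]
    nlinarith [Real.pi_pos])
  rw [abs_mul, abs_of_pos Real.pi_pos] at hsin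
  have h5 : 2 / Real.pi * (Real.pi * |x|) = 2 * |x| := by
    field_simp
  rw [h5] at hsin
  rw [div_le_iff₀ (by linarith)]
  nlinarith [hsin]

theorem lam_pow_sub_one_le (m : ℕ) (p : ℤ) :
    ‖lam ^ m - 1‖ ≤ 2 * Real.pi * |(m : ℝ) * Real.sqrt 2 - p| := by
  rw [lam_pow_sub_one_eq m p]
  have := Real.abs_sin_le_abs (x := Real.pi * (m * Real.sqrt 2 - p))
  rw [abs_mul Real.pi, abs_of_pos Real.pi_pos] at this
  linarith

theorem lam_pow_ne_one (m : ℕ) (hm : 1 ≤ m) : lam ^ m ≠ 1 := by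
  intro h
  have h1 := lam_pow_sub_one m hm
  rw [h] at h1
  simp at h1
  omega

/-- Pell recursion. -/
def pell : ℕ → ℕ × ℕ
  | 0 => (1, 1)
  | n + 1 => ((pell n).1 + 2 * (pell n).2, (pell n).1 + (pell n).2)

theorem pell_eq (n : ℕ) :
    |2 * ((pell n).2 : ℤ) ^ 2 - ((pell n).1 : ℤ) ^ 2| = 1 := by
  induction n with
  | zero => simp [pell]
  | succ n ih =>
    simp only [pell]
    push_cast
    have : 2 * (((pell n).1 : ℤ) + (pell n).2) ^ 2 - ((pell n).1 + 2 * (pell n).2) ^ 2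
      = -(2 * ((pell n).2 : ℤ) ^ 2 - ((pell n).1 : ℤ) ^ 2) := by ring
    rw [this, abs_neg, ih]

theorem pell_le (n : ℕ) : (pell n).2 ≤ (pell n).1 := by
  cases n with
  | zero => simp [pell]
  | succ n => simp only [pell]; omega

theorem pell_growth (n : ℕ) : 2 * (pell n).2 ≤ (pell (n + 1)).2 := by
  have := pell_le n
  simp only [pell]; omega

theorem pell_ge (n : ℕ) : 2 ^ n ≤ (pell n).2 := by
  induction n with
  | zero => simp [pell]
  | succ n ih =>
    have := pell_growth n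
    rw [pow_succ]
    omega

/-- Pell numbers: a sequence `q` with growth and `|lam^q - 1| ≤ 2π/q`. -/
theorem exists_pell : ∃ q : ℕ → ℕ, (∀ k, 2 ^ k ≤ q k) ∧ StrictMono q ∧
    ∀ k, ‖lam ^ (q k) - 1‖ ≤ 2 * Real.pi / q k := by
  refine ⟨fun k => (pell k).2, pell_ge, strictMono_nat_of_lt_succ ?_, ?_⟩
  · intro n
    have h1 := pell_growth n
    have h2 := pell_ge n
    have h3 : 0 < 2 ^ n := by positivity
    omega
  · intro k
    have h1 := lam_pow_sub_one_le (pell k).2 ((pell k).1 : ℤ)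
    refine h1.trans ?_
    have hq : (1 : ℝ) ≤ (pell k).2 := by
      have h2 := pell_ge k
      have h3 : 0 < 2 ^ k := by positivity
      have : 1 ≤ (pell k).2 := by omega
      exact_mod_cast this
    have hs1 : Real.sqrt 2 * Real.sqrt 2 = 2 := Real.mul_self_sqrt (by norm_num)
    have hs0 : (1 : ℝ) ≤ Real.sqrt 2 := by
      rw [Real.one_le_sqrt]; norm_num
    have hp := pell_eq k
    have hp' : |2 * ((pell k).2 : ℝ) ^ 2 - ((pell k).1 : ℝ) ^ 2| = 1 := by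
      exact_mod_cast hp
    have hfac : (2 * ((pell k).2 : ℝ) ^ 2 - ((pell k).1 : ℝ) ^ 2)
        = (((pell k).2 : ℝ) * Real.sqrt 2 - (pell k).1) * ((pell k).2 * Real.sqrt 2 + (pell k).1) := by
      linear_combination (-((pell k).2 : ℝ) ^ 2) * hs1
    rw [hfac, abs_mul] at hp'
    have hpos : (0 : ℝ) < (pell k).2 * Real.sqrt 2 + (pell k).1 := by
      have : (0 : ℝ) ≤ (pell k).1 := by positivity
      nlinarith
    rw [abs_of_pos hpos] at hp'
    have hle : ((pell k).2 : ℝ) ≤ (pell k).2 * Real.sqrt 2 + (pell k).1 := by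
      have : (0 : ℝ) ≤ (pell k).1 := by positivity
      nlinarith
    rw [div_eq_mul_inv]
    have hcast : (((pell k).1 : ℤ) : ℝ) = ((pell k).1 : ℝ) := by push_cast; rfl
    rw [hcast]
    gcongr
    rw [← one_div, le_div_iff₀ (by linarith)]
    calc |((pell k).2 : ℝ) * Real.sqrt 2 - (pell k).1| * ((pell k).2 : ℝ)
        ≤ |((pell k).2 : ℝ) * Real.sqrt 2 - (pell k).1| * ((pell k).2 * Real.sqrt 2 + (pell k).1) := by
          gcongr
      _ = 1 := hp'

end Pool.Agent.MP_3779a0
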