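import Pool.Agent.MP_3779a0.C1
import Pool.Agent.MP_3779a0.SmallDiv

/-! Module C2: the lacunary observable on the circle. -/

open MeasureTheory Filter Topology

namespace Pool.Agent.MP_3779a0

theorem lam_pow_eq_exp (n : ℕ) :
    lam ^ n = Complex.exp (2 * Real.pi * Complex.I * ((n : ℤ) : ℂ) * (Real.sqrt 2 : ℝ)) := by
  rw [lam, ← Complex.exp_nat_mul]
  congr 1
  push_cast
  ring

theorem norm_fourier_apply (n : ℤ) (θ : UnitAddCircle) : ‖(fourier n θ : ℂ)‖ = 1 := by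
  rw [fourier_apply]; exact Circle.norm_coe _

theorem norm_fourier_sub_one_le (n : ℤ) (z : UnitAddCircle) :
    ‖(fourier n z : ℂ) - 1‖ ≤ 2 * Real.pi * |(n : ℝ)| * ‖z‖ := by
  obtain ⟨x, rfl⟩ := QuotientAddGroup.mk_surjective z
  set t : ℝ := x - round x with ht
  have hxt : ((x : ℝ) : UnitAddCircle) = ((t : ℝ) : UnitAddCircle) := by
    rw [ht, AddCircle.coe_sub]
    have : (((round x : ℤ) : ℝ) : UnitAddCircle) = 0 := by
      have := AddCircle.coe_period (p := (1 : ℝ))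
      rw [show ((round x : ℤ) : ℝ) = (round x : ℤ) • (1 : ℝ) by simp, AddCircle.coe_zsmul, this]
      simp
    rw [this, sub_zero]
  have hn : ‖((x : ℝ) : UnitAddCircle)‖ = |t| := by
    rw [AddCircle.norm_eq]
    simp [ht]
  show ‖(fourier n ((x : ℝ) : UnitAddCircle) : ℂ) - 1‖ ≤ 2 * Real.pi * |(n : ℝ)| *
    ‖((x : ℝ) : UnitAddCircle)‖
  rw [hn, hxt, fourier_coe_apply]
  have e : 2 * Real.pi * Complex.I * (n : ℂ) * (t : ℂ) / ((1 : ℝ) : ℂ) =
      Complex.I * ((2 * Real.pi * n * t : ℝ) : ℂ) := by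
    push_cast; ring
  rw [e]
  refine (Real.norm_exp_I_mul_ofReal_sub_one_le).trans ?_
  rw [Real.norm_eq_abs, abs_mul, abs_mul, abs_mul, abs_of_pos Real.pi_pos, abs_two]

theorem norm_fourier_sub_le (n : ℤ) (x y : UnitAddCircle) :
    ‖(fourier n x : ℂ) - fourier n y‖ ≤ 2 * Real.pi * |(n : ℝ)| * dist x y := by
  have h1 : (fourier n x : ℂ) = fourier n (x - y) * fourier n y := by
    rw [fourier_apply, fourier_apply, fourier_apply, smul_sub, ← Circle.coe_mul,
      ← AddCircle.toCircle_add, sub_add_cancel]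
  have h2 : (fourier n x : ℂ) - fourier n y = (fourier n (x - y) - 1) * fourier n y := by
    rw [h1]; ring
  rw [h2, norm_mul, norm_fourier_apply, mul_one, dist_eq_norm]
  exact norm_fourier_sub_one_le n (x - y)

/-- The Hoelder bound of one character. -/
theorem fourier_holder (n : ℕ) (x y : UnitAddCircle) :
    |((fourier (n : ℤ) x : ℂ)).re - ((fourier (n : ℤ) y : ℂ)).re| ≤
      4 * (n : ℝ) ^ (1 / 4 : ℝ) * dist x y ^ (1 / 4 : ℝ) := by
  set a : ℝ := |((fourier (n : ℤ) x : ℂ)).re - ((fourier (n : ℤ) y : ℂ)).re| with ha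
  have ha0 : 0 ≤ a := abs_nonneg _
  have h1 : a ≤ 2 := by
    calc a = |((fourier (n : ℤ) x : ℂ) - fourier (n : ℤ) y).re| := by simp [ha]
      _ ≤ ‖(fourier (n : ℤ) x : ℂ) - fourier (n : ℤ) y‖ := Complex.abs_re_le_norm _
      _ ≤ ‖(fourier (n : ℤ) x : ℂ)‖ + ‖(fourier (n : ℤ) y : ℂ)‖ := norm_sub_le _ _
      _ = 2 := by rw [norm_fourier_apply, norm_fourier_apply]; norm_num
  have h2 : a ≤ 2 * Real.pi * n * dist x y := by
    calc a = |((fourier (n : ℤ) x : ℂ) - fourier (n : ℤ) y).re| := by simp [ha]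
      _ ≤ ‖(fourier (n : ℤ) x : ℂ) - fourier (n : ℤ) y‖ := Complex.abs_re_le_norm _
      _ ≤ 2 * Real.pi * |((n : ℤ) : ℝ)| * dist x y := norm_fourier_sub_le _ _ _
      _ = _ := by simp
  have h3 : a = a ^ (3 / 4 : ℝ) * a ^ (1 / 4 : ℝ) := by
    rw [← Real.rpow_add_of_nonneg ha0 (by norm_num) (by norm_num)]
    norm_num
  have h4 : a ^ (3 / 4 : ℝ) ≤ 2 := by
    calc a ^ (3 / 4 : ℝ) ≤ 2 ^ (3 / 4 : ℝ) := Real.rpow_le_rpow ha0 h1 (by norm_num)
      _ ≤ 2 ^ (1 : ℝ) := Real.rpow_le_rpow_of_exponent_le (by norm_num) (by norm_num)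
      _ = 2 := by simp
  have h5 : a ^ (1 / 4 : ℝ) ≤ 2 * ((n : ℝ) ^ (1 / 4 : ℝ) * dist x y ^ (1 / 4 : ℝ)) := by
    calc a ^ (1 / 4 : ℝ) ≤ (2 * Real.pi * n * dist x y) ^ (1 / 4 : ℝ) :=
          Real.rpow_le_rpow ha0 h2 (by norm_num)
      _ ≤ (16 * (n * dist x y)) ^ (1 / 4 : ℝ) := by
          refine Real.rpow_le_rpow (by positivity) ?_ (by norm_num)
          have hpi := Real.pi_lt_four
          have hp : 0 ≤ (n : ℝ) * dist x y := by positivity
          nlinarith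
      _ = 16 ^ (1 / 4 : ℝ) * ((n : ℝ) ^ (1 / 4 : ℝ) * dist x y ^ (1 / 4 : ℝ)) := by
          rw [Real.mul_rpow (by norm_num) (by positivity), Real.mul_rpow (by positivity) dist_nonneg]
      _ = _ := by
          congr 1
          rw [show (16 : ℝ) = 2 ^ (4 : ℝ) by norm_num, ← Real.rpow_mul (by norm_num)]
          norm_num
  calc a = a ^ (3 / 4 : ℝ) * a ^ (1 / 4 : ℝ) := h3
    _ ≤ 2 * (2 * ((n : ℝ) ^ (1 / 4 : ℝ) * dist x y ^ (1 / 4 : ℝ))) :=
        mul_le_mul h4 h5 (Real.rpow_nonneg ha0 _) (by norm_num)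
    _ = _ := by ring

/-- coefficient `q^(-1/2)` -/
noncomputable def cq (q : ℕ → ℕ) (k : ℕ) : ℝ := (q k : ℝ) ^ (-(1 / 2) : ℝ)

theorem cq_nonneg (q : ℕ → ℕ) (k : ℕ) : 0 ≤ cq q k := Real.rpow_nonneg (Nat.cast_nonneg _) _

theorem rpow_neg_le {q : ℕ → ℕ} (hq : ∀ k, 2 ^ k ≤ q k) {s : ℝ} (hs : 0 ≤ s) (k : ℕ) :
    (q k : ℝ) ^ (-s) ≤ ((2 : ℝ) ^ (-s)) ^ k := by
  have h1 : (2 : ℝ) ^ k ≤ q k := by exact_mod_cast hq k
  calc (q k : ℝ) ^ (-s) ≤ ((2 : ℝ) ^ k) ^ (-s) :=
        Real.rpow_le_rpow_of_nonpos (by positivity) h1 (by linarith)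
    _ = ((2 : ℝ) ^ (-s)) ^ k := by
        rw [← Real.rpow_natCast, ← Real.rpow_natCast, ← Real.rpow_mul (by norm_num),
          ← Real.rpow_mul (by norm_num), mul_comm]

theorem summable_rpow_neg {q : ℕ → ℕ} (hq : ∀ k, 2 ^ k ≤ q k) {s : ℝ} (hs : 0 < s) :
    Summable fun k => (q k : ℝ) ^ (-s) := by
  refine Summable.of_nonneg_of_le (fun k => Real.rpow_nonneg (Nat.cast_nonneg _) _)
    (fun k => rpow_neg_le hq hs.le k) ?_
  refine summable_geometric_of_lt_one (Real.rpow_nonneg (by norm_num) _) ?_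
  exact Real.rpow_lt_one_of_one_lt_of_neg (by norm_num) (by linarith)

/-- one term of the observable -/
noncomputable def tq (q : ℕ → ℕ) (k : ℕ) (θ : UnitAddCircle) : ℝ :=
  cq q k * ((fourier (q k : ℤ) θ : ℂ)).re

theorem abs_tq_le (q : ℕ → ℕ) (k : ℕ) (θ : UnitAddCircle) : |tq q k θ| ≤ cq q k := by
  unfold tq
  rw [abs_mul, abs_of_nonneg (cq_nonneg q k)]
  have : |((fourier (q k : ℤ) θ : ℂ)).re| ≤ 1 :=
    (Complex.abs_re_le_norm _).trans (norm_fourier_apply (q k : ℤ) θ).le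
  exact mul_le_of_le_one_right (cq_nonneg q k) this

theorem continuous_tq (q : ℕ → ℕ) (k : ℕ) : Continuous (tq q k) :=
  continuous_const.mul (Complex.continuous_re.comp (fourier (q k : ℤ)).continuous)

/-- the observable -/
noncomputable def obs (q : ℕ → ℕ) (θ : UnitAddCircle) : ℝ := ∑' k, tq q k θ

section

variable {q : ℕ → ℕ} (hq : ∀ k, 2 ^ k ≤ q k)

include hq

theorem summable_cq : Summable (cq q) := summable_rpow_neg hq (by norm_num)

theorem summable_tq (θ : UnitAddCircle) : Summable fun k => tq q k θ :=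
  Summable.of_norm_bounded (summable_cq hq) fun k => abs_tq_le q k θ

theorem continuous_obs : Continuous (obs q) :=
  continuous_tsum (continuous_tq q) (summable_cq hq) fun k θ => abs_tq_le q k θ

theorem obs_holder : ∃ C : ℝ, 0 ≤ C ∧ ∀ x y, |obs q x - obs q y| ≤ C * dist x y ^ (1 / 4 : ℝ) := by
  have hs : Summable fun k => (q k : ℝ) ^ (-(1 / 4) : ℝ) := summable_rpow_neg hq (by norm_num)
  refine ⟨4 * ∑' k, (q k : ℝ) ^ (-(1 / 4) : ℝ), by positivity, fun x y => ?_⟩
  have hterm : ∀ k, |tq q k x - tq q k y| ≤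
      4 * dist x y ^ (1 / 4 : ℝ) * (q k : ℝ) ^ (-(1 / 4) : ℝ) := by
    intro k
    have hq0 : 0 < (q k : ℝ) := by
      have : 0 < 2 ^ k := by positivity
      exact_mod_cast lt_of_lt_of_le this (hq k)
    have e1 : tq q k x - tq q k y = cq q k * (((fourier (q k : ℤ) x : ℂ)).re -
        ((fourier (q k : ℤ) y : ℂ)).re) := by
      unfold tq; ring
    rw [e1, abs_mul, abs_of_nonneg (cq_nonneg q k)]
    calc cq q k * |((fourier (q k : ℤ) x : ℂ)).re - ((fourier (q k : ℤ) y : ℂ)).re|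
        ≤ cq q k * (4 * (q k : ℝ) ^ (1 / 4 : ℝ) * dist x y ^ (1 / 4 : ℝ)) :=
          mul_le_mul_of_nonneg_left (fourier_holder (q k) x y) (cq_nonneg q k)
      _ = 4 * dist x y ^ (1 / 4 : ℝ) * (cq q k * (q k : ℝ) ^ (1 / 4 : ℝ)) := by ring
      _ = _ := by
          unfold cq
          rw [← Real.rpow_add hq0]
          norm_num
  have hsum : Summable fun k => tq q k x - tq q k y := (summable_tq hq x).sub (summable_tq hq y)
  have e2 : obs q x - obs q y = ∑' k, (tq q k x - tq q k y) := by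
    unfold obs
    rw [(summable_tq hq x).tsum_sub (summable_tq hq y)]
  have hs2 : Summable fun k => 4 * dist x y ^ (1 / 4 : ℝ) * (q k : ℝ) ^ (-(1 / 4) : ℝ) :=
    hs.mul_left _
  have hs3 : Summable fun k => ‖tq q k x - tq q k y‖ :=
    Summable.of_nonneg_of_le (fun _ => norm_nonneg _) (fun k => hterm k) hs2
  rw [e2]
  calc |∑' k, (tq q k x - tq q k y)| ≤ ∑' k, ‖tq q k x - tq q k y‖ := norm_tsum_le_tsum_norm hs3
    _ ≤ ∑' k, 4 * dist x y ^ (1 / 4 : ℝ) * (q k : ℝ) ^ (-(1 / 4) : ℝ) :=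
        hs3.tsum_le_tsum (fun k => hterm k) hs2
    _ = 4 * dist x y ^ (1 / 4 : ℝ) * ∑' k, (q k : ℝ) ^ (-(1 / 4) : ℝ) := tsum_mul_left
    _ = _ := by ring

end

theorem haar_rot : MeasurePreserving (fun θ => θ + ((Real.sqrt 2 : ℝ) : UnitAddCircle))
    (AddCircle.haarAddCircle : Measure UnitAddCircle) AddCircle.haarAddCircle :=
  measurePreserving_add_right _ _

theorem integral_haar_fourier {n : ℤ} (hn : n ≠ 0) :
    ∫ θ, (fourier n θ : ℂ) ∂(AddCircle.haarAddCircle : Measure UnitAddCircle) = 0 :=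
  integral_fourier_eq_zero _ haar_rot hn

theorem integrable_of_cont {F : UnitAddCircle → ℂ} (hF : Continuous F) :
    Integrable F (AddCircle.haarAddCircle : Measure UnitAddCircle) :=
  hF.integrable_of_hasCompactSupport (HasCompactSupport.of_compactSpace _)

theorem re_fourier (n : ℤ) (θ : UnitAddCircle) :
    (((fourier n θ : ℂ)).re : ℂ) = (1 / 2 : ℂ) * fourier n θ + (1 / 2 : ℂ) * fourier (-n) θ := by
  rw [fourier_neg, Complex.re_eq_add_conj]
  ring

theorem integral_re_fourier {n : ℤ} (hn : n ≠ 0) :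
    ∫ θ, (((fourier n θ : ℂ)).re : ℂ) ∂(AddCircle.haarAddCircle : Measure UnitAddCircle) = 0 := by
  simp_rw [re_fourier]
  rw [integral_add, integral_const_mul, integral_const_mul, integral_haar_fourier hn,
    integral_haar_fourier (neg_ne_zero.2 hn)]
  · simp
  · exact integrable_of_cont (continuous_const.mul (fourier n).continuous)
  · exact integrable_of_cont (continuous_const.mul (fourier (-n)).continuous)

theorem integral_fourier_mul_re {m n : ℤ} (hm : 0 < m) (hn : 0 < n) :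
    ∫ θ, (fourier m θ : ℂ) * (((fourier n θ : ℂ)).re : ℂ)
      ∂(AddCircle.haarAddCircle : Measure UnitAddCircle) = if m = n then 1 / 2 else 0 := by
  have e : ∀ θ : UnitAddCircle, (fourier m θ : ℂ) * (((fourier n θ : ℂ)).re : ℂ) =
      (1 / 2 : ℂ) * fourier (m + n) θ + (1 / 2 : ℂ) * fourier (m + -n) θ := by
    intro θ
    rw [re_fourier, fourier_add, fourier_add]; ring
  simp_rw [e]
  rw [integral_add, integral_const_mul, integral_const_mul, integral_haar_fourier (by omega)]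
  · split_ifs with h
    · subst h; simp
    · rw [integral_haar_fourier (by omega)]; simp
  · exact integrable_of_cont (continuous_const.mul (fourier (m + n)).continuous)
  · exact integrable_of_cont (continuous_const.mul (fourier (m + -n)).continuous)

section

variable {q : ℕ → ℕ} (hq : ∀ k, 2 ^ k ≤ q k)

include hq

theorem q_pos (k : ℕ) : 0 < q k := lt_of_lt_of_le (by positivity) (hq k)

theorem hasSum_integral_mul (F : C(UnitAddCircle, ℂ)) (hF : ∀ θ, ‖F θ‖ ≤ 1) :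
    HasSum (fun k => ∫ θ, F θ * (tq q k θ : ℂ) ∂(AddCircle.haarAddCircle : Measure UnitAddCircle))
      (∫ θ, F θ * (obs q θ : ℂ) ∂(AddCircle.haarAddCircle : Measure UnitAddCircle)) := by
  have h1 : ∀ k, Integrable (fun θ => F θ * (tq q k θ : ℂ))
      (AddCircle.haarAddCircle : Measure UnitAddCircle) := fun k =>
    integrable_of_cont (F.continuous.mul (Complex.continuous_ofReal.comp (continuous_tq q k)))
  have hb : ∀ k θ, ‖F θ * (tq q k θ : ℂ)‖ ≤ cq q k := by
    intro k θ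
    rw [norm_mul, Complex.norm_real, Real.norm_eq_abs]
    calc ‖F θ‖ * |tq q k θ| ≤ 1 * cq q k :=
          mul_le_mul (hF θ) (abs_tq_le q k θ) (abs_nonneg _) (by norm_num)
      _ = _ := one_mul _
  have h2 : Summable fun k => ∫ θ, ‖F θ * (tq q k θ : ℂ)‖
      ∂(AddCircle.haarAddCircle : Measure UnitAddCircle) := by
    refine Summable.of_nonneg_of_le (fun k => integral_nonneg fun _ => norm_nonneg _) (fun k => ?_)
      (summable_cq hq)
    calc ∫ θ, ‖F θ * (tq q k θ : ℂ)‖ ∂(AddCircle.haarAddCircle : Measure UnitAddCircle)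
        ≤ ∫ _, cq q k ∂(AddCircle.haarAddCircle : Measure UnitAddCircle) :=
          integral_mono (h1 k).norm (integrable_const _) (fun θ => hb k θ)
      _ = cq q k := by simp
  have h3 := hasSum_integral_of_summable_integral_norm h1 h2
  have h4 : ∀ θ, ∑' k, F θ * (tq q k θ : ℂ) = F θ * (obs q θ : ℂ) := by
    intro θ
    rw [tsum_mul_left, obs, Complex.ofReal_tsum]
  simp_rw [h4] at h3
  exact h3

theorem integral_obs : ∫ θ, obs q θ ∂(AddCircle.haarAddCircle : Measure UnitAddCircle) = 0 := by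
  have h := hasSum_integral_mul hq (1 : C(UnitAddCircle, ℂ)) (fun θ => by simp)
  have h0 : ∀ k, ∫ θ, (1 : C(UnitAddCircle, ℂ)) θ * (tq q k θ : ℂ)
      ∂(AddCircle.haarAddCircle : Measure UnitAddCircle) = 0 := by
    intro k
    have e : ∀ θ, (1 : C(UnitAddCircle, ℂ)) θ * (tq q k θ : ℂ) =
        (cq q k : ℂ) * (((fourier (q k : ℤ) θ : ℂ)).re : ℂ) := by
      intro θ; simp [tq]
    simp_rw [e]
    rw [integral_const_mul, integral_re_fourier, mul_zero]
    have := q_pos hq k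
    omega
  simp_rw [h0] at h
  have h1 := h.unique hasSum_zero
  have e : ∀ θ, (1 : C(UnitAddCircle, ℂ)) θ * (obs q θ : ℂ) = ((obs q θ : ℝ) : ℂ) := by
    intro θ; simp
  simp_rw [e] at h1
  rw [integral_complex_ofReal] at h1
  exact_mod_cast h1

theorem integral_fourier_mul_obs (hinj : Function.Injective q) (j : ℕ) :
    ∫ θ, (fourier (q j : ℤ) θ : ℂ) * (obs q θ : ℂ)
      ∂(AddCircle.haarAddCircle : Measure UnitAddCircle) = ((cq q j / 2 : ℝ) : ℂ) := by
  have h := hasSum_integral_mul hq (fourier (q j : ℤ)) (fun θ => (norm_fourier_apply _ θ).le)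
  have h0 : ∀ k, ∫ θ, (fourier (q j : ℤ) θ : ℂ) * (tq q k θ : ℂ)
      ∂(AddCircle.haarAddCircle : Measure UnitAddCircle) =
      if k = j then ((cq q j / 2 : ℝ) : ℂ) else 0 := by
    intro k
    have e : ∀ θ, (fourier (q j : ℤ) θ : ℂ) * (tq q k θ : ℂ) =
        (cq q k : ℂ) * ((fourier (q j : ℤ) θ : ℂ) * (((fourier (q k : ℤ) θ : ℂ)).re : ℂ)) := by
      intro θ; simp only [tq]; push_cast; ring
    simp_rw [e]
    have hk := q_pos hq k
    have hj := q_pos hq j
    rw [integral_const_mul, integral_fourier_mul_re (by omega) (by omega)]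
    by_cases hkj : k = j
    · subst hkj; simp; ring
    · have : ¬ ((q j : ℤ) = (q k : ℤ)) := by
        intro h; exact hkj (hinj (by exact_mod_cast h.symm))
      simp [this, hkj]
  simp_rw [h0] at h
  exact h.unique (hasSum_ite_eq j _)

theorem obs_not_coboundary (hinj : Function.Injective q)
    (hp : ∀ k, ‖lam ^ (q k) - 1‖ ≤ 2 * Real.pi / q k) :
    ¬ ∃ Φ : UnitAddCircle → ℝ, Integrable Φ AddCircle.haarAddCircle ∧
      ∀ᵐ θ ∂(AddCircle.haarAddCircle : Measure UnitAddCircle),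
        obs q θ = Φ (θ + ((Real.sqrt 2 : ℝ) : UnitAddCircle)) - Φ θ := by
  rintro ⟨Φ, hΦ, hcob⟩
  set N : ℝ := ∫ θ, |Φ θ| ∂(AddCircle.haarAddCircle : Measure UnitAddCircle) with hN
  have hN0 : 0 ≤ N := integral_nonneg fun _ => abs_nonneg _
  have hiΦ : ∀ n : ℤ, Integrable (fun θ => (fourier n θ : ℂ) * (Φ θ : ℂ))
      (AddCircle.haarAddCircle : Measure UnitAddCircle) := by
    intro n
    refine Integrable.bdd_mul (c := 1) hΦ.ofReal (fourier n).continuous.aestronglyMeasurable ?_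
    exact Eventually.of_forall fun θ => (norm_fourier_apply n θ).le
  have key : ∀ j, cq q j / 2 ≤ 2 * Real.pi / q j * N := by
    intro j
    set n : ℤ := (q j : ℤ) with hn
    set e : ℂ := Complex.exp (2 * Real.pi * Complex.I * (n : ℂ) * (Real.sqrt 2 : ℝ)) with he
    have he1 : ‖e‖ = 1 := by
      rw [he, show 2 * Real.pi * Complex.I * (n : ℂ) * ((Real.sqrt 2 : ℝ) : ℂ) =
        ((2 * Real.pi * n * Real.sqrt 2 : ℝ) : ℂ) * Complex.I by push_cast; ring]
      exact Complex.norm_exp_ofReal_mul_I _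
    have he0 : e ≠ 0 := by
      intro h; rw [h] at he1; simp at he1
    -- the integral of `fourier n * Φ(· + √2)`
    have hrot : ∫ θ, (fourier n (θ + ((Real.sqrt 2 : ℝ) : UnitAddCircle)) : ℂ) *
        (Φ (θ + ((Real.sqrt 2 : ℝ) : UnitAddCircle)) : ℂ)
        ∂(AddCircle.haarAddCircle : Measure UnitAddCircle) =
        ∫ θ, (fourier n θ : ℂ) * (Φ θ : ℂ) ∂(AddCircle.haarAddCircle : Measure UnitAddCircle) :=
      integral_add_right_eq_self (fun θ => (fourier n θ : ℂ) * (Φ θ : ℂ)) _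
    have hrot2 : ∫ θ, (fourier n (θ + ((Real.sqrt 2 : ℝ) : UnitAddCircle)) : ℂ) *
        (Φ (θ + ((Real.sqrt 2 : ℝ) : UnitAddCircle)) : ℂ)
        ∂(AddCircle.haarAddCircle : Measure UnitAddCircle) =
        e * ∫ θ, (fourier n θ : ℂ) * (Φ (θ + ((Real.sqrt 2 : ℝ) : UnitAddCircle)) : ℂ)
        ∂(AddCircle.haarAddCircle : Measure UnitAddCircle) := by
      rw [← integral_const_mul]
      refine integral_congr_ae (Eventually.of_forall fun θ => ?_)
      show (fourier n (θ + ((Real.sqrt 2 : ℝ) : UnitAddCircle)) : ℂ) * _ = _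
      rw [fourier_add_sqrt]; ring
    have hΦr : Integrable (fun θ => Φ (θ + ((Real.sqrt 2 : ℝ) : UnitAddCircle)))
        (AddCircle.haarAddCircle : Measure UnitAddCircle) :=
      haar_rot.integrable_comp_of_integrable hΦ
    have hi2 : Integrable (fun θ => (fourier n θ : ℂ) *
        (Φ (θ + ((Real.sqrt 2 : ℝ) : UnitAddCircle)) : ℂ))
        (AddCircle.haarAddCircle : Measure UnitAddCircle) := by
      refine Integrable.bdd_mul (c := 1) hΦr.ofReal (fourier n).continuous.aestronglyMeasurable ?_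
      exact Eventually.of_forall fun θ => (norm_fourier_apply n θ).le
    set I : ℂ := ∫ θ, (fourier n θ : ℂ) * (Φ θ : ℂ)
      ∂(AddCircle.haarAddCircle : Measure UnitAddCircle) with hI
    have hI2 : ∫ θ, (fourier n θ : ℂ) * (Φ (θ + ((Real.sqrt 2 : ℝ) : UnitAddCircle)) : ℂ)
        ∂(AddCircle.haarAddCircle : Measure UnitAddCircle) = e⁻¹ * I := by
      rw [← hrot, hrot2, ← mul_assoc, inv_mul_cancel₀ he0, one_mul]
    have hIN : ‖I‖ ≤ N := by
      rw [hI, hN]
      refine (norm_integral_le_integral_norm _).trans (le_of_eq ?_)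
      refine integral_congr_ae (Eventually.of_forall fun θ => ?_)
      show ‖(fourier n θ : ℂ) * (Φ θ : ℂ)‖ = |Φ θ|
      rw [norm_mul, norm_fourier_apply, one_mul, Complex.norm_real, Real.norm_eq_abs]
    have hmain : ((cq q j / 2 : ℝ) : ℂ) = (e⁻¹ - 1) * I := by
      rw [← integral_fourier_mul_obs hq hinj j]
      have : ∫ θ, (fourier n θ : ℂ) * (obs q θ : ℂ)
          ∂(AddCircle.haarAddCircle : Measure UnitAddCircle) =
          ∫ θ, ((fourier n θ : ℂ) * (Φ (θ + ((Real.sqrt 2 : ℝ) : UnitAddCircle)) : ℂ) -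
            (fourier n θ : ℂ) * (Φ θ : ℂ)) ∂(AddCircle.haarAddCircle : Measure UnitAddCircle) := by
        refine integral_congr_ae ?_
        filter_upwards [hcob] with θ hθ
        rw [hθ]; push_cast; ring
      rw [this, integral_sub hi2 (hiΦ n), hI2, ← hI]
      ring
    have hnorm : ‖e⁻¹ - 1‖ ≤ 2 * Real.pi / q j := by
      have h1 : e⁻¹ - 1 = -(e⁻¹ * (e - 1)) := by
        field_simp; ring
      rw [h1, norm_neg, norm_mul, norm_inv, he1, inv_one, one_mul]
      have := hp j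
      rw [lam_pow_eq_exp] at this
      exact this
    have h5 : cq q j / 2 = ‖((cq q j / 2 : ℝ) : ℂ)‖ := by
      rw [Complex.norm_real, Real.norm_of_nonneg]
      have := cq_nonneg q j
      positivity
    rw [h5, hmain, norm_mul]
    exact mul_le_mul hnorm hIN (norm_nonneg _) (by positivity)
  -- contradiction: `q j ^ (1/2) ≤ 4 π N`
  have key2 : ∀ j, (q j : ℝ) ^ (1 / 2 : ℝ) ≤ 4 * Real.pi * N := by
    intro j
    have hq0 : 0 < (q j : ℝ) := by exact_mod_cast q_pos hq j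
    have h1 := key j
    have h2 : (q j : ℝ) ^ (1 / 2 : ℝ) = q j * cq q j := by
      unfold cq
      nth_rewrite 2 [← Real.rpow_one (q j : ℝ)]
      rw [← Real.rpow_add hq0]
      norm_num
    have h3 : (q j : ℝ) * (cq q j / 2) ≤ q j * (2 * Real.pi / q j * N) :=
      mul_le_mul_of_nonneg_left h1 hq0.le
    have h4 : (q j : ℝ) * (2 * Real.pi / q j * N) = 2 * Real.pi * N := by field_simp
    rw [h2]
    linarith
  obtain ⟨j, hj⟩ := pow_unbounded_of_one_lt ((4 * Real.pi * N) ^ 2) (by norm_num : (1:ℝ) < 2)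
  have h6 : (2 : ℝ) ^ j ≤ q j := by exact_mod_cast hq j
  have h7 : ((q j : ℝ) ^ (1 / 2 : ℝ)) ^ 2 ≤ (4 * Real.pi * N) ^ 2 :=
    pow_le_pow_left₀ (Real.rpow_nonneg (Nat.cast_nonneg _) _) (key2 j) 2
  have h8 : ((q j : ℝ) ^ (1 / 2 : ℝ)) ^ 2 = q j := by
    rw [← Real.rpow_natCast, ← Real.rpow_mul (Nat.cast_nonneg _)]
    norm_num
  linarith

theorem obs_average (h1 : ∀ m : ℕ, 1 ≤ m → 1 / (m : ℝ) ≤ ‖lam ^ m - 1‖) :
    ∀ ε > 0, ∀ᶠ n : ℕ in atTop, ∀ θ,
      |∑ i ∈ Finset.range n, obs q (θ + i • ((Real.sqrt 2 : ℝ) : UnitAddCircle))| / n < ε := by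
  -- bounds of the averages of the terms
  have hterm : ∀ (k n : ℕ) (θ : UnitAddCircle),
      |∑ i ∈ Finset.range n, tq q k (θ + i • ((Real.sqrt 2 : ℝ) : UnitAddCircle))| / n ≤
        cq q k * min 1 (2 * (q k : ℝ) / n) := by
    intro k n θ
    rcases Nat.eq_zero_or_pos n with hn | hn
    · subst hn
      simp
    have hn' : 0 < (n : ℝ) := by exact_mod_cast hn
    have hqk := q_pos hq k
    set R : UnitAddCircle := ((Real.sqrt 2 : ℝ) : UnitAddCircle) with hR
    have hfi : ∀ i : ℕ, (fourier (q k : ℤ) (θ + i • R) : ℂ) =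
        (lam ^ (q k)) ^ i * fourier (q k : ℤ) θ := by
      intro i
      induction i with
      | zero => simp
      | succ i ih =>
        rw [succ_nsmul, ← add_assoc, fourier_add_sqrt, ih, lam_pow_eq_exp, pow_succ]
        ring
    have hsum : ∑ i ∈ Finset.range n, tq q k (θ + i • R) =
        cq q k * ((∑ i ∈ Finset.range n, (lam ^ (q k)) ^ i) * fourier (q k : ℤ) θ).re := by
      rw [Finset.sum_mul, Complex.re_sum, Finset.mul_sum]
      refine Finset.sum_congr rfl fun i _ => ?_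
      rw [tq, hfi]
    have hlam : ‖lam ^ (q k)‖ = 1 := by
      rw [lam_pow_eq_exp, show 2 * Real.pi * Complex.I * (((q k : ℕ) : ℤ) : ℂ) *
        ((Real.sqrt 2 : ℝ) : ℂ) = ((2 * Real.pi * (q k : ℝ) * Real.sqrt 2 : ℝ) : ℂ) * Complex.I by
          push_cast; ring]
      exact Complex.norm_exp_ofReal_mul_I _
    have hS1 : ‖∑ i ∈ Finset.range n, (lam ^ (q k)) ^ i‖ ≤ n := by
      refine (norm_sum_le _ _).trans ?_
      simp [hlam]
    have hS2 : ‖∑ i ∈ Finset.range n, (lam ^ (q k)) ^ i‖ ≤ 2 * q k := by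
      have hge := h1 (q k) hqk
      have hqk' : 0 < (q k : ℝ) := by exact_mod_cast hqk
      have hpos : 0 < ‖lam ^ (q k) - 1‖ := lt_of_lt_of_le (by positivity) hge
      have hmul := mul_geom_sum (lam ^ (q k)) n
      have h2 : ‖lam ^ (q k) - 1‖ * ‖∑ i ∈ Finset.range n, (lam ^ (q k)) ^ i‖ ≤ 2 := by
        rw [← norm_mul, hmul]
        refine (norm_sub_le _ _).trans ?_
        rw [norm_pow, hlam]
        norm_num
      have h3 : 1 / (q k : ℝ) * ‖∑ i ∈ Finset.range n, (lam ^ (q k)) ^ i‖ ≤ 2 :=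
        (mul_le_mul_of_nonneg_right hge (norm_nonneg _)).trans h2
      rw [one_div, inv_mul_le_iff₀ hqk'] at h3
      linarith
    rw [hsum, abs_mul, abs_of_nonneg (cq_nonneg q k), mul_div_assoc]
    refine mul_le_mul_of_nonneg_left ?_ (cq_nonneg q k)
    have hre : |((∑ i ∈ Finset.range n, (lam ^ (q k)) ^ i) * fourier (q k : ℤ) θ).re| ≤
        ‖∑ i ∈ Finset.range n, (lam ^ (q k)) ^ i‖ := by
      refine (Complex.abs_re_le_norm _).trans ?_
      rw [norm_mul, norm_fourier_apply, mul_one]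
    refine le_min ?_ ?_
    · rw [div_le_one hn']
      exact hre.trans hS1
    · exact div_le_div_of_nonneg_right (hre.trans hS2) hn'.le
  -- dominated convergence
  have hlim : Tendsto (fun n : ℕ => ∑' k, cq q k * min 1 (2 * (q k : ℝ) / n)) atTop
      (𝓝 (∑' _ : ℕ, (0 : ℝ))) := by
    refine tendsto_tsum_of_dominated_convergence (summable_cq hq) ?_ ?_
    · intro k
      have h2 : Tendsto (fun n : ℕ => 2 * (q k : ℝ) / n) atTop (𝓝 0) :=
        tendsto_const_div_atTop_nhds_zero_nat _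
      have h3 : Tendsto (fun n : ℕ => min 1 (2 * (q k : ℝ) / n)) atTop (𝓝 (min 1 0)) :=
        tendsto_const_nhds.min h2
      have := h3.const_mul (cq q k)
      simpa using this
    · refine Eventually.of_forall fun n k => ?_
      have h0 : 0 ≤ min 1 (2 * (q k : ℝ) / n) := le_min zero_le_one (by positivity)
      rw [Real.norm_of_nonneg (mul_nonneg (cq_nonneg q k) h0)]
      exact mul_le_of_le_one_right (cq_nonneg q k) (min_le_left _ _)
  rw [tsum_zero] at hlim
  intro ε hε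
  filter_upwards [hlim.eventually_lt_const hε] with n hn θ
  refine lt_of_le_of_lt ?_ hn
  have hsw : ∑ i ∈ Finset.range n, obs q (θ + i • ((Real.sqrt 2 : ℝ) : UnitAddCircle)) =
      ∑' k, ∑ i ∈ Finset.range n, tq q k (θ + i • ((Real.sqrt 2 : ℝ) : UnitAddCircle)) := by
    unfold obs
    rw [Summable.tsum_finsetSum fun i _ => summable_tq hq _]
  have hsb : Summable fun k => cq q k * min 1 (2 * (q k : ℝ) / n) := by
    refine Summable.of_nonneg_of_le (fun k => mul_nonneg (cq_nonneg q k)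
      (le_min zero_le_one (by positivity))) (fun k => ?_) (summable_cq hq)
    exact mul_le_of_le_one_right (cq_nonneg q k) (min_le_left _ _)
  have hsa : Summable fun k => |∑ i ∈ Finset.range n,
      tq q k (θ + i • ((Real.sqrt 2 : ℝ) : UnitAddCircle))| / n :=
    Summable.of_nonneg_of_le (fun k => by positivity) (fun k => hterm k n θ) hsb
  rcases Nat.eq_zero_or_pos n with hn0 | hn0
  · subst hn0
    simp
  have hn' : 0 < (n : ℝ) := by exact_mod_cast hn0
  have hsc : Summable fun k => ‖∑ i ∈ Finset.range n,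
      tq q k (θ + i • ((Real.sqrt 2 : ℝ) : UnitAddCircle))‖ := by
    have := hsa.mul_right (n : ℝ)
    refine this.congr fun k => ?_
    rw [div_mul_cancel₀ _ hn'.ne', Real.norm_eq_abs]
  rw [hsw]
  calc |∑' k, ∑ i ∈ Finset.range n, tq q k (θ + i • ((Real.sqrt 2 : ℝ) : UnitAddCircle))| / n
      ≤ (∑' k, ‖∑ i ∈ Finset.range n, tq q k (θ + i • ((Real.sqrt 2 : ℝ) : UnitAddCircle))‖) / n :=
        div_le_div_of_nonneg_right (norm_tsum_le_tsum_norm hsc) hn'.le
    _ = ∑' k, |∑ i ∈ Finset.range n, tq q k (θ + i • ((Real.sqrt 2 : ℝ) : UnitAddCircle))| / n := by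
        rw [← tsum_div_const]
        simp [Real.norm_eq_abs]
    _ ≤ ∑' k, cq q k * min 1 (2 * (q k : ℝ) / n) := hsa.tsum_le_tsum (fun k => hterm k n θ) hsb

end

/-- The observable, from the two arithmetic inputs. -/
theorem exists_observable_of
    (hpell : ∃ q : ℕ → ℕ, (∀ k, 2 ^ k ≤ q k) ∧ StrictMono q ∧
      ∀ k, ‖lam ^ (q k) - 1‖ ≤ 2 * Real.pi / q k)
    (hsd : ∀ m : ℕ, 1 ≤ m → 1 / (m : ℝ) ≤ ‖lam ^ m - 1‖) :
    ∃ G : UnitAddCircle → ℝ,
    (∃ C : ℝ, 0 ≤ C ∧ ∀ x y, |G x - G y| ≤ C * dist x y ^ (1 / 4 : ℝ)) ∧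
    ∫ θ, G θ ∂AddCircle.haarAddCircle = 0 ∧
    (¬ ∃ Φ : UnitAddCircle → ℝ, Integrable Φ AddCircle.haarAddCircle ∧
      ∀ᵐ θ ∂(AddCircle.haarAddCircle : Measure UnitAddCircle),
        G θ = Φ (θ + ((Real.sqrt 2 : ℝ) : UnitAddCircle)) - Φ θ) ∧
    (∀ ε > 0, ∀ᶠ n : ℕ in atTop, ∀ θ,
      |∑ i ∈ Finset.range n, G (θ + i • ((Real.sqrt 2 : ℝ) : UnitAddCircle))| / n < ε) := by
  obtain ⟨q, hq, hmono, hp⟩ := hpell
  exact ⟨obs q, obs_holder hq, integral_obs hq, obs_not_coboundary hq hmono.injective hp,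
    obs_average hq hsd⟩

theorem exists_observable : ∃ G : UnitAddCircle → ℝ,
    (∃ C : ℝ, 0 ≤ C ∧ ∀ x y, |G x - G y| ≤ C * dist x y ^ (1 / 4 : ℝ)) ∧
    ∫ θ, G θ ∂AddCircle.haarAddCircle = 0 ∧
    (¬ ∃ Φ : UnitAddCircle → ℝ, Integrable Φ AddCircle.haarAddCircle ∧
      ∀ᵐ θ ∂(AddCircle.haarAddCircle : Measure UnitAddCircle),
        G θ = Φ (θ + ((Real.sqrt 2 : ℝ) : UnitAddCircle)) - Φ θ) ∧
    (∀ ε > 0, ∀ᶠ n : ℕ in atTop, ∀ θ,
      |∑ i ∈ Finset.range n, G (θ + i • ((Real.sqrt 2 : ℝ) : UnitAddCircle))| / n < ε) :=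
  exists_observable_of exists_pell lam_pow_sub_one

end Pool.Agent.MP_3779a0
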