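import Pool.Agent.MP_3779a0.Objects

/-! Module C3: extension of Hoelder functions (McShane with exponent `1/4`). -/

open MeasureTheory Filter Topology

namespace Pool.Agent.MP_3779a0

theorem holder_extend (S : Set (ℂ × ℂ)) (hS : S.Nonempty) (g : ℂ × ℂ → ℝ) (C : ℝ) (hC : 0 ≤ C)
    (hg : ∀ x ∈ S, ∀ y ∈ S, |g x - g y| ≤ C * dist x y ^ (1 / 4 : ℝ)) :
    ∃ g' : ℂ × ℂ → ℝ, IsHoelder g' ∧ ∀ x ∈ S, g' x = g x := by
  obtain ⟨s0, hs0⟩ := hS
  have : Nonempty S := ⟨⟨s0, hs0⟩⟩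
  -- the snowflake distance
  set δ : ℂ × ℂ → ℂ × ℂ → ℝ := fun x y => dist x y ^ (1 / 4 : ℝ) with hδ
  have δ0 : ∀ x y, 0 ≤ δ x y := fun x y => Real.rpow_nonneg dist_nonneg _
  have δcomm : ∀ x y, δ x y = δ y x := fun x y => by simp only [hδ, dist_comm]
  have δself : ∀ x, δ x x = 0 := fun x => by
    simp only [hδ, dist_self]
    exact Real.zero_rpow (by norm_num)
  have δtri : ∀ x y z, δ x z ≤ δ x y + δ y z := by
    intro x y z
    calc dist x z ^ (1 / 4 : ℝ) ≤ (dist x y + dist y z) ^ (1 / 4 : ℝ) :=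
          Real.rpow_le_rpow dist_nonneg (dist_triangle x y z) (by norm_num)
      _ ≤ dist x y ^ (1 / 4 : ℝ) + dist y z ^ (1 / 4 : ℝ) :=
          Real.rpow_add_le_add_rpow dist_nonneg dist_nonneg (by norm_num) (by norm_num)
  have bdd : ∀ x, BddBelow (Set.range fun s : S => g s + C * δ x s) := by
    intro x
    refine ⟨g s0 - C * δ x s0, ?_⟩
    rintro _ ⟨s, rfl⟩
    have h1 := hg s s.2 s0 hs0
    have h2 := (abs_le.1 h1).1
    have h3 : δ s s0 ≤ δ x s + δ x s0 := by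
      have := δtri s x s0
      rwa [δcomm s x] at this
    have h4 : C * δ s s0 ≤ C * (δ x s + δ x s0) := mul_le_mul_of_nonneg_left h3 hC
    have h5 : -(C * δ s s0) ≤ g s - g s0 := h2
    show g s0 - C * δ x s0 ≤ g s + C * δ x s
    linarith
  let G : ℂ × ℂ → ℝ := fun x => ⨅ s : S, (g s + C * δ x s)
  have hGdiff : ∀ x y, G x - G y ≤ C * δ x y := by
    intro x y
    have : G x - C * δ x y ≤ G y := by
      refine le_ciInf fun s => ?_
      have h1 : G x ≤ g s + C * δ x s := ciInf_le (bdd x) s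
      have h2 : C * δ x s ≤ C * (δ x y + δ y s) := mul_le_mul_of_nonneg_left (δtri x y s) hC
      linarith
    linarith
  have hGabs : ∀ x y, dist (G x) (G y) ≤ C * dist x y ^ (1 / 4 : ℝ) := by
    intro x y
    rw [Real.dist_eq, abs_le]
    have h1 := hGdiff x y
    have h2 := hGdiff y x
    rw [δcomm y x] at h2
    exact ⟨by linarith, h1⟩
  refine ⟨G, ⟨⟨C, hC⟩, (1 / 4 : NNReal), by norm_num, ?_, ?_⟩, ?_⟩
  · rw [div_le_iff₀ (by norm_num)]; norm_num
  · intro x y
    have e1 : ((1 / 4 : NNReal) : ℝ) = 1 / 4 := by norm_num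
    rw [e1, edist_dist, edist_dist]
    calc ENNReal.ofReal (dist (G x) (G y)) ≤ ENNReal.ofReal (C * dist x y ^ (1 / 4 : ℝ)) :=
          ENNReal.ofReal_le_ofReal (hGabs x y)
      _ = ENNReal.ofReal C * ENNReal.ofReal (dist x y) ^ (1 / 4 : ℝ) := by
          rw [ENNReal.ofReal_mul hC, ENNReal.ofReal_rpow_of_nonneg dist_nonneg (by norm_num)]
      _ = _ := by
          rw [ENNReal.ofReal_eq_coe_nnreal hC]; rfl
  · intro x hx
    apply le_antisymm
    · have h1 : G x ≤ g x + C * δ x x := ciInf_le (bdd x) ⟨x, hx⟩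
      rw [δself] at h1
      linarith
    · refine le_ciInf fun s => ?_
      have h1 := (abs_le.1 (hg x hx s s.2)).2
      show g x ≤ g s + C * δ x s
      have h2 : g x - g s ≤ C * δ x s := h1
      linarith

end Pool.Agent.MP_3779a0
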