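import Pool.Agent.MP_3779a0.SmallDiv

open MeasureTheory Filter Topology

namespace Pool.Agent.MP_3779a0

/-- Davie counting function attached to a set `S` of indices. -/
noncomputable def NN (S : ℕ → Prop) [DecidablePred S] : ℕ → ℕ
  | 0 => 0
  | m + 1 => (if S (m + 1) then 1 else 0) +
      (Finset.univ : Finset (Fin m.succ)).sup (fun i => NN S i + NN S (m - i))

section NN
variable (S : ℕ → Prop) [DecidablePred S]

theorem NN_zero : NN S 0 = 0 := by rw [NN]

theorem NN_succ_ge (m i j : ℕ) (h : i + j = m) :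
    (if S (m + 1) then 1 else 0) + (NN S i + NN S j) ≤ NN S (m + 1) := by
  rw [NN]
  have hi : i < m.succ := by omega
  have hj : j = m - i := by omega
  have := Finset.le_sup (f := fun i : Fin m.succ => NN S i + NN S (m - i))
    (Finset.mem_univ (⟨i, hi⟩ : Fin m.succ))
  simp only at this
  rw [hj]
  omega

theorem NN_succ_exists (m : ℕ) : ∃ i j, i + j = m ∧
    NN S (m + 1) = (if S (m + 1) then 1 else 0) + (NN S i + NN S j) := by
  rw [NN]
  obtain ⟨i, _, hi⟩ := Finset.exists_mem_eq_sup (Finset.univ : Finset (Fin m.succ))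
    Finset.univ_nonempty (fun i : Fin m.succ => NN S i + NN S (m - i))
  refine ⟨i, m - i, ?_, ?_⟩
  · have := i.2
    omega
  · rw [hi]

theorem NN_bound (q : ℕ) (h1 : ∀ m, S m → 2 * q < m)
    (h2 : ∀ m m', S m → S m' → m < m' → q < m' - m) (m : ℕ) :
    q * NN S m ≤ 2 * m - q := by
  induction m using Nat.strong_induction_on with
  | _ m ih =>
    rcases m with _ | m
    · simp [NN_zero]
    obtain ⟨i, j, hij, hN⟩ := NN_succ_exists S m
    by_cases hS : S (m + 1)
    · rw [if_pos hS] at hN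
      have hm := h1 _ hS
      -- sublemma
      have sub : ∀ i, i < m + 1 → 2 * (m + 1 - i) < q → q * NN S i ≤ 2 * (m + 1) - 2 * q := by
        intro i
        induction i using Nat.strong_induction_on with
        | _ i ih2 =>
          intro hi hq
          rcases i with _ | i
          · simp [NN_zero]
          obtain ⟨a, b, hab, hN'⟩ := NN_succ_exists S i
          have hnS : ¬ S (i + 1) := by
            intro hS'
            have := h2 _ _ hS' hS hi
            omega
          rw [if_neg hnS, zero_add] at hN'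
          rw [hN', mul_add]
          have ha := ih a (by omega)
          have hb := ih b (by omega)
          by_cases c1 : 2 * (m + 1 - a) < q
          · have := ih2 a (by omega) (by omega) c1
            omega
          · by_cases c2 : 2 * (m + 1 - b) < q
            · have := ih2 b (by omega) (by omega) c2
              omega
            · omega
      rw [hN, mul_add, mul_add]
      have hi := ih i (by omega)
      have hj := ih j (by omega)
      by_cases c1 : 2 * (m + 1 - i) < q
      · have := sub i (by omega) c1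
        omega
      · by_cases c2 : 2 * (m + 1 - j) < q
        · have := sub j (by omega) c2
          omega
        · omega
    · rw [if_neg hS, zero_add] at hN
      rw [hN, mul_add]
      have hi := ih i (by omega)
      have hj := ih j (by omega)
      omega

end NN

/-- indices with small divisor at level `k` -/
def Sm (k : ℕ) (m : ℕ) : Prop := 1 ≤ m ∧ ‖lam ^ m - 1‖ < 1 / 2 ^ (k + 1)

noncomputable instance (k : ℕ) : DecidablePred (Sm k) := fun _ => Classical.propDecidable _

theorem Sm_large (k m : ℕ) (h : Sm k m) : 2 * 2 ^ k < m := by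
  obtain ⟨h1, h2⟩ := h
  have h3 := (lam_pow_sub_one m h1).trans_lt h2
  have hm : (0 : ℝ) < m := by exact_mod_cast h1
  rw [div_lt_div_iff₀ hm (by positivity), one_mul, one_mul] at h3
  have : 2 ^ (k + 1) < m := by exact_mod_cast h3
  rw [pow_succ] at this
  omega

theorem Sm_gap (k m m' : ℕ) (h : Sm k m) (h' : Sm k m') (hlt : m < m') : 2 ^ k < m' - m := by
  obtain ⟨h1, h2⟩ := h
  obtain ⟨h1', h2'⟩ := h'
  have h3 := lam_pow_sub_one (m' - m) (by omega)
  have h4 : lam ^ m * (lam ^ (m' - m) - 1) = (lam ^ m' - 1) - (lam ^ m - 1) := by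
    have : lam ^ m' = lam ^ m * lam ^ (m' - m) := by
      rw [← pow_add]; congr 1; omega
    rw [this]; ring
  have h5 : ‖lam ^ (m' - m) - 1‖ ≤ ‖lam ^ m' - 1‖ + ‖lam ^ m - 1‖ := by
    calc ‖lam ^ (m' - m) - 1‖ = ‖lam ^ m * (lam ^ (m' - m) - 1)‖ := by
          rw [norm_mul, lam_pow_norm, one_mul]
      _ ≤ _ := by rw [h4]; exact norm_sub_le _ _
  have h6 : 1 / ((m' - m : ℕ) : ℝ) < 1 / 2 ^ k := by
    calc 1 / ((m' - m : ℕ) : ℝ) ≤ ‖lam ^ m' - 1‖ + ‖lam ^ m - 1‖ := h3.trans h5
      _ < 1 / 2 ^ (k + 1) + 1 / 2 ^ (k + 1) := add_lt_add h2' h2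
      _ = 1 / 2 ^ k := by rw [pow_succ]; field_simp; norm_num
  have hm : (0 : ℝ) < (m' - m : ℕ) := by
    have : 0 < m' - m := by omega
    exact_mod_cast this
  rw [div_lt_div_iff₀ hm (by positivity), one_mul, one_mul] at h6
  exact_mod_cast h6

theorem NN_Sm_bound (k m : ℕ) : (NN (Sm k) m : ℝ) ≤ 2 * m * (1 / 2) ^ k := by
  have h := NN_bound (Sm k) (2 ^ k) (fun m h => Sm_large k m h)
    (fun m m' h h' hlt => Sm_gap k m m' h h' hlt) m
  have h' : 2 ^ k * NN (Sm k) m ≤ 2 * m := h.trans (Nat.sub_le _ _)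
  have h'' : (2 : ℝ) ^ k * NN (Sm k) m ≤ 2 * m := by exact_mod_cast h'
  rw [one_div, inv_pow, ← div_eq_mul_inv, le_div_iff₀ (by positivity)]
  linarith

/-- total count -/
noncomputable def GG (K m : ℕ) : ℕ := ∑ k ∈ Finset.range K, NN (Sm k) m

noncomputable def cnt (K m : ℕ) : ℕ := ∑ k ∈ Finset.range K, (if Sm k m then 1 else 0)

theorem GG_le (K m : ℕ) : GG K m ≤ 4 * m := by
  have h : ((GG K m : ℕ) : ℝ) ≤ 4 * m := by
    unfold GG
    push_cast
    calc ∑ k ∈ Finset.range K, (NN (Sm k) m : ℝ)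
        ≤ ∑ k ∈ Finset.range K, 2 * m * (1 / 2 : ℝ) ^ k :=
          Finset.sum_le_sum fun k _ => NN_Sm_bound k m
      _ = 2 * m * ∑ k ∈ Finset.range K, (1 / 2 : ℝ) ^ k := by rw [Finset.mul_sum]
      _ ≤ 2 * m * 2 := by
          gcongr
          exact sum_geometric_two_le K
      _ = 4 * m := by ring
  exact_mod_cast h

theorem GG_zero (K : ℕ) : GG K 0 = 0 := by simp [GG, NN_zero]

theorem GG_succ (K m i j : ℕ) (h : i + j = m) :
    cnt K (m + 1) + (GG K i + GG K j) ≤ GG K (m + 1) := by
  unfold cnt GG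
  rw [← Finset.sum_add_distrib, ← Finset.sum_add_distrib]
  exact Finset.sum_le_sum fun k _ => NN_succ_ge (Sm k) m i j h

theorem cnt_bound (K m : ℕ) (hm : 1 ≤ m) (hK : 1 / (2 : ℝ) ^ K ≤ ‖lam ^ m - 1‖) :
    1 ≤ ‖lam ^ m - 1‖ * (2 * 2 ^ (cnt K m)) := by
  induction K with
  | zero =>
    simp only [pow_zero, div_one] at hK
    simp [cnt]
    linarith
  | succ K ih =>
    have hns : ¬ Sm K m := by
      intro h
      exact absurd h.2 (not_lt.mpr hK)
    have hc : cnt (K + 1) m = cnt K m := by
      unfold cnt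
      rw [Finset.sum_range_succ, if_neg hns, add_zero]
    rw [hc]
    by_cases h : 1 / (2 : ℝ) ^ K ≤ ‖lam ^ m - 1‖
    · exact ih h
    · push Not at h
      have hcK : cnt K m = K := by
        unfold cnt
        rw [Finset.sum_congr rfl (g := fun _ => 1)]
        · simp
        · intro k hk
          rw [if_pos]
          refine ⟨hm, h.trans_le ?_⟩
          apply one_div_le_one_div_of_le (by positivity)
          apply pow_le_pow_right₀ (by norm_num)
          have := Finset.mem_range.mp hk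
          omega
      rw [hcK]
      rw [pow_succ, div_le_iff₀ (by positivity)] at hK
      linarith

theorem den_bound (m : ℕ) : ‖lam ^ m - 1‖ / 2 ≤ ‖den m‖ := by
  have h0 := lam_ne_zero
  have h1 : den m = lam * (lam ^ m - 1) * (1 - 1 / (2 * lam ^ (m + 2))) := by
    unfold den tt
    field_simp
    ring
  rw [h1, norm_mul, norm_mul, lam_norm, one_mul]
  have h2 : (1 : ℝ) / 2 ≤ ‖1 - 1 / (2 * lam ^ (m + 2))‖ := by
    have h3 : ‖1 / (2 * lam ^ (m + 2))‖ = 1 / 2 := by
      rw [norm_div, norm_mul, lam_pow_norm]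
      norm_num
    have h4 := norm_sub_norm_le (1 : ℂ) (1 / (2 * lam ^ (m + 2)))
    rw [h3] at h4
    norm_num at h4 ⊢
    linarith
  have := norm_nonneg (lam ^ m - 1)
  nlinarith

theorem coef_succ (n : ℕ) :
    coef (n + 1) = (∑ p ∈ Finset.HasAntidiagonal.antidiagonal n, coef p.1 * coef p.2) / den (n + 1) := by
  rw [coef, Finset.Nat.sum_antidiagonal_eq_sum_range_succ (fun x y => coef x * coef y) n,
    Finset.sum_range]

theorem coef_bound_aux (K : ℕ) (m : ℕ) (hm : m ≤ 2 ^ K) :
    ‖coef m‖ ≤ 4 ^ m * 2 ^ (GG K m) * catalan m := by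
  induction m using Nat.strong_induction_on with
  | _ m ih =>
    rcases m with _ | m
    · simp [coef, GG_zero]
    rw [coef_succ, norm_div]
    set x := ‖lam ^ (m + 1) - 1‖ with hx
    have hx0 : 1 / (2 : ℝ) ^ K ≤ x := by
      refine le_trans ?_ (lam_pow_sub_one (m + 1) (by omega))
      apply one_div_le_one_div_of_le (by positivity)
      exact_mod_cast hm
    have hxpos : 0 < x := lt_of_lt_of_le (by positivity) hx0
    have hcnt := cnt_bound K (m + 1) (by omega) hx0
    have hden := den_bound (m + 1)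
    rw [← hx] at hden hcnt
    have hdenpos : 0 < ‖den (m + 1)‖ := lt_of_lt_of_le (by linarith) hden
    rw [div_le_iff₀ hdenpos]
    have hsum : ‖∑ p ∈ Finset.HasAntidiagonal.antidiagonal m, coef p.1 * coef p.2‖ ≤
        ∑ p ∈ Finset.HasAntidiagonal.antidiagonal m, 4 ^ m * (2 : ℝ) ^ (GG K p.1 + GG K p.2) *
          (catalan p.1 * catalan p.2) := by
      refine (norm_sum_le _ _).trans (Finset.sum_le_sum ?_)
      intro p hp
      have hp' := Finset.HasAntidiagonal.mem_antidiagonal.mp hp
      rw [norm_mul]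
      have h1 := ih p.1 (by omega) (by omega)
      have h2 := ih p.2 (by omega) (by omega)
      calc ‖coef p.1‖ * ‖coef p.2‖
          ≤ (4 ^ p.1 * 2 ^ (GG K p.1) * catalan p.1) * (4 ^ p.2 * 2 ^ (GG K p.2) * catalan p.2) := by
            gcongr
        _ = 4 ^ m * (2 : ℝ) ^ (GG K p.1 + GG K p.2) * (catalan p.1 * catalan p.2) := by
            rw [← hp', pow_add, pow_add]
            ring
    refine hsum.trans ?_
    have hgoal : (∑ p ∈ Finset.HasAntidiagonal.antidiagonal m, 4 ^ m * (2 : ℝ) ^ (GG K p.1 + GG K p.2) *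
          (catalan p.1 * catalan p.2)) * 2 ^ (cnt K (m + 1)) ≤
        4 ^ m * 2 ^ (GG K (m + 1)) * catalan (m + 1) := by
      rw [catalan_succ']
      push_cast
      rw [Finset.sum_mul, Finset.mul_sum]
      apply Finset.sum_le_sum
      intro p hp
      have hp' := Finset.HasAntidiagonal.mem_antidiagonal.mp hp
      have h3 := GG_succ K m p.1 p.2 hp'
      calc 4 ^ m * (2 : ℝ) ^ (GG K p.1 + GG K p.2) * (catalan p.1 * catalan p.2) *
            2 ^ (cnt K (m + 1))
          = 4 ^ m * (2 : ℝ) ^ (cnt K (m + 1) + (GG K p.1 + GG K p.2)) *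
            (catalan p.1 * catalan p.2) := by rw [pow_add]; ring
        _ ≤ 4 ^ m * (2 : ℝ) ^ (GG K (m + 1)) * (catalan p.1 * catalan p.2) := by
            gcongr
            norm_num
    set Q := (∑ p ∈ Finset.HasAntidiagonal.antidiagonal m, 4 ^ m * (2 : ℝ) ^ (GG K p.1 + GG K p.2) *
          (catalan p.1 * catalan p.2)) with hQ
    have hQ0 : 0 ≤ Q := Finset.sum_nonneg fun p _ => by positivity
    set R := (4 : ℝ) ^ m * 2 ^ (GG K (m + 1)) * catalan (m + 1) with hR
    have hR0 : 0 ≤ R := by positivity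
    calc Q = Q * 1 := by ring
      _ ≤ Q * (x * (2 * 2 ^ (cnt K (m + 1)))) := by gcongr
      _ = 4 * (Q * 2 ^ (cnt K (m + 1))) * (x / 2) := by ring
      _ ≤ 4 * R * ‖den (m + 1)‖ := by gcongr
      _ = 4 ^ (m + 1) * 2 ^ (GG K (m + 1)) * catalan (m + 1) * ‖den (m + 1)‖ := by
          rw [hR, pow_succ]; ring

theorem catalan_le (m : ℕ) : catalan m ≤ 4 ^ m := by
  rw [catalan_eq_centralBinom_div]
  refine (Nat.div_le_self _ _).trans ?_
  unfold Nat.centralBinom
  refine (Nat.choose_le_two_pow (2 * m) m).trans ?_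
  rw [pow_mul]
  norm_num

theorem coef_bound (m : ℕ) : ‖coef m‖ ≤ 256 ^ m := by
  have h := coef_bound_aux m m (Nat.lt_two_pow_self).le
  refine h.trans ?_
  have h1 : ((catalan m : ℕ) : ℝ) ≤ 4 ^ m := by exact_mod_cast catalan_le m
  calc (4 : ℝ) ^ m * 2 ^ (GG m m) * catalan m ≤ 4 ^ m * 2 ^ (4 * m) * 4 ^ m := by
        gcongr
        · norm_num
        · exact GG_le m m
    _ = 256 ^ m := by
        rw [pow_mul, ← mul_pow, ← mul_pow]
        norm_num

theorem coef_zero : coef 0 = 1 := by rw [coef]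

end Pool.Agent.MP_3779a0
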