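import Pool.Agent.MP_3779a0.SmallDiv

open MeasureTheory Filter Topology

namespace Pool.Agent.MP_3779a0

theorem tt_norm : ‖tt‖ ≤ 3 / 2 := by
  unfold tt
  refine (norm_add_le _ _).trans ?_
  rw [norm_div, norm_mul, lam_norm]
  norm_num

theorem fmap_continuous : Continuous fmap := by
  have : fmap = fun z : ℂ × ℂ => (z.1 ^ 2 + tt * z.1 - z.2 / 2, z.1) := by
    ext1 z; exact fmap_apply z
  rw [this]
  fun_prop

def Vp (s : ℝ) : Set (ℂ × ℂ) := {x | ‖x.2‖ ≤ ‖x.1‖ ∧ s ≤ ‖x.1‖}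
def Vm (s : ℝ) : Set (ℂ × ℂ) := {x | ‖x.1‖ ≤ ‖x.2‖ ∧ s ≤ ‖x.2‖}

theorem Vp_meas (s : ℝ) : MeasurableSet (Vp s) := by
  apply IsClosed.measurableSet
  apply IsClosed.and
  · exact isClosed_le (by fun_prop) (by fun_prop)
  · exact isClosed_le (by fun_prop) (by fun_prop)

theorem Vm_meas (s : ℝ) : MeasurableSet (Vm s) := by
  apply IsClosed.measurableSet
  apply IsClosed.and
  · exact isClosed_le (by fun_prop) (by fun_prop)
  · exact isClosed_le (by fun_prop) (by fun_prop)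

theorem first_coord_ge (x : ℂ × ℂ) : ‖x.1‖ ^ 2 - 3 / 2 * ‖x.1‖ - ‖x.2‖ / 2 ≤ ‖(fmap x).1‖ := by
  rw [fmap_apply]
  simp only
  have h1 : x.1 ^ 2 = (x.1 ^ 2 + tt * x.1 - x.2 / 2) - tt * x.1 + x.2 / 2 := by ring
  have h2 : ‖x.1 ^ 2‖ ≤ ‖x.1 ^ 2 + tt * x.1 - x.2 / 2‖ + ‖tt * x.1‖ + ‖x.2 / 2‖ := by
    conv_lhs => rw [h1]
    exact (norm_add_le _ _).trans (add_le_add_left (norm_sub_le _ _) _)
  rw [norm_pow, norm_mul, norm_div] at h2
  have h3 : ‖tt‖ * ‖x.1‖ ≤ 3 / 2 * ‖x.1‖ := by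
    gcongr
    exact tt_norm
  have h4 : ‖(2 : ℂ)‖ = 2 := by norm_num
  rw [h4] at h2
  linarith

theorem second_coord (x : ℂ × ℂ) : (fmap x).2 = x.1 := by rw [fmap_apply]

theorem Vp_step (s : ℝ) (hs : 4 ≤ s) (x : ℂ × ℂ) (hx : x ∈ Vp s) : fmap x ∈ Vp (2 * s) := by
  obtain ⟨h1, h2⟩ := hx
  have h3 := first_coord_ge x
  have h4 : 2 * ‖x.1‖ ≤ ‖(fmap x).1‖ := by nlinarith
  refine ⟨?_, ?_⟩
  · rw [second_coord]
    have := norm_nonneg x.1
    linarith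
  · linarith

theorem Vm_step (s : ℝ) (hs : 4 ≤ s) (x : ℂ × ℂ) (hx : fmap x ∈ Vm s) : x ∈ Vm (2 * s) := by
  obtain ⟨h1, h2⟩ := hx
  rw [second_coord] at h1 h2
  have h3 := first_coord_ge x
  have h4 : 2 * ‖x.1‖ ≤ ‖x.2‖ := by nlinarith
  refine ⟨?_, ?_⟩
  · have := norm_nonneg x.1
    linarith
  · linarith

theorem measure_zero_of_doubling (ν : Measure (ℂ × ℂ)) [IsProbabilityMeasure ν]
    (V : ℝ → Set (ℂ × ℂ)) (hV : ∀ s, MeasurableSet (V s))
    (hsub : ∀ s, V s ⊆ {x | s ≤ ‖x‖}) (hstep : ∀ s, 4 ≤ s → ν (V s) ≤ ν (V (2 * s))) :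
    ν (V 4) = 0 := by
  have h1 : ∀ n : ℕ, ν (V 4) ≤ ν {x : ℂ × ℂ | (n : ℝ) ≤ ‖x‖} := by
    intro n
    have h2 : ∀ n : ℕ, ν (V 4) ≤ ν (V (4 * 2 ^ n)) := by
      intro n
      induction n with
      | zero => simp
      | succ n ih =>
        refine ih.trans ?_
        have := hstep (4 * 2 ^ n) (by
          have : (1 : ℝ) ≤ 2 ^ n := one_le_pow₀ (by norm_num)
          linarith)
        rwa [show (2 : ℝ) * (4 * 2 ^ n) = 4 * 2 ^ (n + 1) by ring] at this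
    refine (h2 n).trans (measure_mono ?_)
    intro x hx
    have h3 := hsub _ hx
    simp only [Set.mem_ofPred_eq] at h3 ⊢
    have h4 : (n : ℝ) ≤ 2 ^ n := by
      have := (Nat.lt_two_pow_self (n := n)).le
      exact_mod_cast this
    have h5 : (0 : ℝ) < 2 ^ n := by positivity
    linarith
  have h2 : Tendsto (fun n : ℕ => ν {x : ℂ × ℂ | (n : ℝ) ≤ ‖x‖}) atTop (𝓝 (ν (⋂ n : ℕ, {x : ℂ × ℂ | (n : ℝ) ≤ ‖x‖}))) := by
    apply tendsto_measure_iInter_atTop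
    · intro n
      apply MeasurableSet.nullMeasurableSet
      exact (isClosed_le (by fun_prop) (by fun_prop)).measurableSet
    · intro m n hmn x hx
      simp only [Set.mem_ofPred_eq] at hx ⊢
      have : (m : ℝ) ≤ n := by exact_mod_cast hmn
      linarith
    · exact ⟨0, measure_ne_top _ _⟩
  have h3 : (⋂ n : ℕ, {x : ℂ × ℂ | (n : ℝ) ≤ ‖x‖}) = ∅ := by
    ext x
    simp only [Set.mem_iInter, Set.mem_ofPred_eq, Set.mem_empty_iff_false, iff_false, not_forall,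
      not_le]
    exact exists_nat_gt ‖x‖
  rw [h3, measure_empty] at h2
  exact le_antisymm (ge_of_tendsto' h2 h1) (zero_le)

theorem trap (ν : Measure (ℂ × ℂ)) (hν : IsInvProb fmap ν) :
    ∀ᵐ x ∂ν, ∀ n : ℕ, fmap^[n] x ∈ Metric.ball (0 : ℂ × ℂ) 4 := by
  obtain ⟨hp, hinv⟩ := hν
  have hp4 : ν (Vp 4) = 0 := by
    apply measure_zero_of_doubling ν Vp Vp_meas
    · intro s x hx
      exact hx.2.trans (norm_fst_le x)
    · intro s hs
      calc ν (Vp s) ≤ ν (fmap ⁻¹' (Vp (2 * s))) := measure_mono fun x hx => Vp_step s hs x hx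
        _ = ν (Vp (2 * s)) := hinv.measure_preimage (Vp_meas _).nullMeasurableSet
  have hm4 : ν (Vm 4) = 0 := by
    apply measure_zero_of_doubling ν Vm Vm_meas
    · intro s x hx
      exact hx.2.trans (norm_snd_le x)
    · intro s hs
      calc ν (Vm s) = ν (fmap ⁻¹' (Vm s)) :=
            (hinv.measure_preimage (Vm_meas _).nullMeasurableSet).symm
        _ ≤ ν (Vm (2 * s)) := measure_mono fun x hx => Vm_step s hs x hx
  have hball : ∀ᵐ x ∂ν, x ∈ Metric.ball (0 : ℂ × ℂ) 4 := by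
    have h : ν (Vp 4 ∪ Vm 4) = 0 := measure_union_null hp4 hm4
    refine measure_mono_null ?_ h
    intro x hx
    simp only [Set.mem_compl_iff, Set.mem_ofPred_eq, Metric.mem_ball, dist_zero_right, not_lt] at hx
    rw [Prod.norm_def] at hx
    rcases le_total ‖x.2‖ ‖x.1‖ with h | h
    · left
      rw [max_eq_left h] at hx
      exact ⟨h, hx⟩
    · right
      rw [max_eq_right h] at hx
      exact ⟨h, hx⟩
  rw [ae_all_iff]
  intro n
  exact (hinv.iterate n).quasiMeasurePreserving.ae hball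

end Pool.Agent.MP_3779a0
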