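import Pool.Agent.MP_3779a0.Series
import Pool.Agent.MP_3779a0.Trap

open MeasureTheory Filter Topology

namespace Pool.Agent.MP_3779a0

theorem small_of_norm_le {z : ℂ} (hz : ‖z‖ ≤ 1) : ‖z / 8192‖ < 1 / 4096 := by
  rw [norm_div]
  norm_num
  linarith

theorem small_of_norm_le' {z : ℂ} (hz : ‖z‖ ≤ 1) : ‖z / 8192 / lam‖ < 1 / 4096 := by
  rw [norm_div, lam_norm, div_one]
  exact small_of_norm_le hz

theorem fmap_hh (z : ℂ) (hz : ‖z‖ ≤ 1) : fmap (hh z) = hh (lam * z) := by
  have h := uu_eq (z / 8192) (small_of_norm_le hz)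
  have h0 := lam_ne_zero
  rw [fmap_apply]
  unfold hh
  simp only
  have e1 : lam * z / 8192 = lam * (z / 8192) := by ring
  have e2 : lam * z / 8192 / lam = z / 8192 := by field_simp
  rw [e1, ← e1, e2, e1]
  congr 1
  linear_combination -h

theorem hh_lower (z w : ℂ) (hz : ‖z‖ ≤ 1) (hw : ‖w‖ ≤ 1) :
    ‖z - w‖ ≤ 16384 * ‖hh z - hh w‖ := by
  have h := uu_close (z / 8192) (w / 8192) (small_of_norm_le hz) (small_of_norm_le hw)
  have h1 : ‖uu (z / 8192) - uu (w / 8192)‖ ≤ ‖hh z - hh w‖ := by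
    exact norm_fst_le (hh z - hh w)
  have h2 : ‖z / 8192 - w / 8192‖ = ‖z - w‖ / 8192 := by
    rw [← sub_div, norm_div]; norm_num
  have h3 : ‖z / 8192 - w / 8192‖ ≤ ‖uu (z / 8192) - uu (w / 8192)‖ +
      ‖uu (z / 8192) - uu (w / 8192) - (z / 8192 - w / 8192)‖ := by
    have e : z / 8192 - w / 8192 = (uu (z / 8192) - uu (w / 8192)) -
      (uu (z / 8192) - uu (w / 8192) - (z / 8192 - w / 8192)) := by ring
    conv_lhs => rw [e]
    exact norm_sub_le _ _
  rw [h2] at h h3
  have := norm_nonneg (z - w)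
  linarith

theorem uu_lip (z w : ℂ) (hz : ‖z‖ < 1 / 4096) (hw : ‖w‖ < 1 / 4096) :
    ‖uu z - uu w‖ ≤ 5 / 4 * ‖z - w‖ := by
  have h := uu_close z w hz hw
  have h3 : ‖uu z - uu w‖ ≤ ‖uu z - uu w - (z - w)‖ + ‖z - w‖ := by
    have e : uu z - uu w = (uu z - uu w - (z - w)) + (z - w) := by ring
    conv_lhs => rw [e]
    exact norm_add_le _ _
  linarith

theorem hh_upper (z w : ℂ) (hz : ‖z‖ ≤ 1) (hw : ‖w‖ ≤ 1) :
    ‖hh z - hh w‖ ≤ ‖z - w‖ := by
  have h1 := uu_lip (z / 8192) (w / 8192) (small_of_norm_le hz) (small_of_norm_le hw)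
  have h2 := uu_lip (z / 8192 / lam) (w / 8192 / lam) (small_of_norm_le' hz) (small_of_norm_le' hw)
  have e1 : ‖z / 8192 - w / 8192‖ = ‖z - w‖ / 8192 := by
    rw [← sub_div, norm_div]; norm_num
  have e2 : ‖z / 8192 / lam - w / 8192 / lam‖ = ‖z - w‖ / 8192 := by
    rw [← sub_div, norm_div, lam_norm, e1, div_one]
  rw [e1] at h1
  rw [e2] at h2
  have := norm_nonneg (z - w)
  rw [Prod.norm_def]
  apply max_le
  · simp only [hh, Prod.fst_sub]
    linarith
  · simp only [hh, Prod.snd_sub]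
    linarith

theorem hh_continuousOn : ContinuousOn hh (Metric.closedBall 0 1) := by
  have : LipschitzOnWith 1 hh (Metric.closedBall 0 1) := by
    apply LipschitzOnWith.of_dist_le_mul
    intro x hx y hy
    rw [dist_eq_norm, dist_eq_norm, NNReal.coe_one, one_mul]
    exact hh_upper x y (by simpa using hx) (by simpa using hy)
  exact this.continuousOn

theorem TT_compact : IsCompact TT := by
  apply (isCompact_sphere (0 : ℂ) 1).image_of_continuousOn
  exact hh_continuousOn.mono Metric.sphere_subset_closedBall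

theorem toC_norm (θ : UnitAddCircle) : ‖(AddCircle.toCircle θ : ℂ)‖ = 1 := Circle.norm_coe _

theorem range_gam : Set.range gam = TT := by
  ext x
  constructor
  · rintro ⟨θ, rfl⟩
    refine ⟨(AddCircle.toCircle θ : ℂ), ?_, rfl⟩
    rw [mem_sphere_zero_iff_norm]
    exact toC_norm θ
  · rintro ⟨z, hz, rfl⟩
    have hz' : ‖z‖ = 1 := by simpa using hz
    have h1 : (1 : ℝ) ≠ 0 := one_ne_zero
    let c : Circle := ⟨z, hz⟩
    obtain ⟨θ, hθ⟩ := (AddCircle.homeomorphCircle h1).surjective c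
    rw [AddCircle.homeomorphCircle_apply] at hθ
    refine ⟨θ, ?_⟩
    unfold gam
    rw [hθ]

theorem TT_nonempty : TT.Nonempty := ⟨hh 1, 1, by simp, rfl⟩

theorem gam_continuous : Continuous gam := by
  unfold gam
  apply hh_continuousOn.comp_continuous
  · have h : (fun θ : UnitAddCircle => (AddCircle.toCircle θ : ℂ)) = fourier 1 := by
      ext θ; rw [fourier_one]
    rw [h]
    exact (fourier 1).continuous
  · intro θ
    rw [mem_closedBall_zero_iff]
    exact (toC_norm θ).le

theorem toCircle_sqrt : (AddCircle.toCircle ((Real.sqrt 2 : ℝ) : UnitAddCircle) : ℂ) = lam := by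
  rw [AddCircle.toCircle_apply_mk, Circle.coe_exp]
  unfold lam
  congr 1
  push_cast
  ring

theorem fmap_gam (θ : UnitAddCircle) :
    fmap (gam θ) = gam (θ + ((Real.sqrt 2 : ℝ) : UnitAddCircle)) := by
  unfold gam
  rw [fmap_hh _ (toC_norm θ).le, AddCircle.toCircle_add, Circle.coe_mul, toCircle_sqrt, mul_comm]

theorem dist_le_toCircle (x y : UnitAddCircle) :
    4 * dist x y ≤ ‖(AddCircle.toCircle x : ℂ) - AddCircle.toCircle y‖ := by
  have h1 : ‖(AddCircle.toCircle x : ℂ) - AddCircle.toCircle y‖ =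
      ‖(AddCircle.toCircle (x - y) : ℂ) - 1‖ := by
    have : (AddCircle.toCircle x : ℂ) = AddCircle.toCircle (x - y) * AddCircle.toCircle y := by
      rw [← Circle.coe_mul, ← AddCircle.toCircle_add, sub_add_cancel]
    rw [this, show (AddCircle.toCircle (x - y) : ℂ) * (AddCircle.toCircle y : ℂ)
      - (AddCircle.toCircle y : ℂ) = ((AddCircle.toCircle (x - y) : ℂ) - 1) *
        (AddCircle.toCircle y : ℂ) by ring, norm_mul, toC_norm, mul_one]
  rw [h1, dist_eq_norm]
  generalize x - y = θ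
  induction θ using QuotientAddGroup.induction_on with
  | H r =>
    change 4 * ‖(r : UnitAddCircle)‖ ≤ ‖(AddCircle.toCircle (r : UnitAddCircle) : ℂ) - 1‖
    rw [UnitAddCircle.norm_eq, AddCircle.toCircle_apply_mk, Circle.coe_exp]
    have e : Complex.exp (((2 * Real.pi / 1 * r : ℝ) : ℂ) * Complex.I) =
        Complex.exp (Complex.I * ((2 * Real.pi * (r - round r) : ℝ) : ℂ)) := by
      have : (Complex.I * ((2 * Real.pi * (r - round r) : ℝ) : ℂ))
          = ((2 * Real.pi / 1 * r : ℝ) : ℂ) * Complex.I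
            - (round r : ℤ) * (2 * Real.pi * Complex.I) := by
        push_cast
        ring
      rw [this, Complex.exp_sub, Complex.exp_int_mul_two_pi_mul_I, div_one (Complex.exp _)]
    rw [e, Complex.norm_exp_I_mul_ofReal_sub_one, Real.norm_eq_abs, abs_mul, abs_two]
    have hx1 : |r - round r| ≤ 1 / 2 := abs_sub_round _
    have hsin := Real.mul_abs_le_abs_sin (x := Real.pi * (r - round r)) (by
      rw [abs_mul, abs_of_pos Real.pi_pos]
      nlinarith [Real.pi_pos])
    rw [abs_mul, abs_of_pos Real.pi_pos] at hsin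
    have h5 : 2 / Real.pi * (Real.pi * |r - round r|) = 2 * |r - round r| := by
      field_simp
    rw [h5] at hsin
    rw [show 2 * Real.pi * (r - round r) / 2 = Real.pi * (r - round r) by ring]
    linarith

theorem dist_gam' (x y : UnitAddCircle) : dist x y ≤ 4096 * dist (gam x) (gam y) := by
  have h1 := dist_le_toCircle x y
  have h2 := hh_lower (AddCircle.toCircle x) (AddCircle.toCircle y) (toC_norm x).le (toC_norm y).le
  rw [dist_eq_norm (gam x)]
  unfold gam
  linarith

theorem dist_gam : ∃ C : ℝ, 0 ≤ C ∧ ∀ x y : UnitAddCircle, dist x y ≤ C * dist (gam x) (gam y) :=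
  ⟨4096, by norm_num, dist_gam'⟩

theorem gam_injective : Function.Injective gam := by
  intro x y h
  have := dist_gam' x y
  rw [h, dist_self, mul_zero] at this
  exact dist_le_zero.mp this

end Pool.Agent.MP_3779a0
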