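import Mathlib

/-!
Definitions for the problem on large deviations for equilibrium states of
complex Henon maps.  All measures are Borel measures on `ℂ × ℂ`.
-/

open MeasureTheory Filter Topology

namespace Pool.Agent.MP_3779a0

/-- The elementary Henon map `(x, y) ↦ (P(x) - a y, x)`. -/
noncomputable def elem (a : ℂ) (P : Polynomial ℂ) (z : ℂ × ℂ) : ℂ × ℂ :=
  (P.eval z.1 - a * z.2, z.1)

/-- `f` is a complex Henon map: a composition of one or more elementary Henon maps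
with `a ≠ 0` and `deg P ≥ 2`. -/
def IsHenon (f : ℂ × ℂ → ℂ × ℂ) : Prop :=
  ∃ l : List (ℂ × Polynomial ℂ), l ≠ [] ∧ (∀ p ∈ l, p.1 ≠ 0 ∧ 2 ≤ p.2.natDegree) ∧
    f = (l.map fun p => elem p.1 p.2).foldr (fun F G => F ∘ G) id

/-- `ν` is an `f`-invariant Borel probability measure. -/
def IsInvProb (f : ℂ × ℂ → ℂ × ℂ) (ν : Measure (ℂ × ℂ)) : Prop :=
  IsProbabilityMeasure ν ∧ MeasurePreserving f ν ν

/-- Shannon entropy of the join of `β, β ∘ f, …, β ∘ f^(n-1)` for a finite labelled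
partition `β`: the sum over words `w` of `-ν[w] log ν[w]`. -/
noncomputable def wordEntropy (f : ℂ × ℂ → ℂ × ℂ) (ν : Measure (ℂ × ℂ)) {k : ℕ}
    (β : ℂ × ℂ → Fin k) (n : ℕ) : ℝ :=
  ∑ w : Fin n → Fin k, Real.negMulLog (ν.real {x | ∀ i : Fin n, β (f^[i] x) = w i})

/-- Kolmogorov-Sinai entropy `h_ν(f)`: the supremum over finite measurable partitions
of the growth rate of the entropy of the refined partitions. -/
noncomputable def entropy (f : ℂ × ℂ → ℂ × ℂ) (ν : Measure (ℂ × ℂ)) : EReal :=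
  ⨆ (k : ℕ) (β : ℂ × ℂ → Fin k) (_ : Measurable β),
    limsup (fun n : ℕ => ((wordEntropy f ν β n / n : ℝ) : EReal)) atTop

/-- Pressure `P(φ) = sup_ν (h_ν(f) + ∫ φ dν)` over all invariant Borel probability measures. -/
noncomputable def pressure (f : ℂ × ℂ → ℂ × ℂ) (φ : ℂ × ℂ → ℝ) : EReal :=
  ⨆ (ν : Measure (ℂ × ℂ)) (_ : IsInvProb f ν), entropy f ν + ((∫ x, φ x ∂ν : ℝ) : EReal)

/-- `μ` is an equilibrium state of `f` for the weight `φ`. -/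
def IsEquilibrium (f : ℂ × ℂ → ℂ × ℂ) (φ : ℂ × ℂ → ℝ) (μ : Measure (ℂ × ℂ)) : Prop :=
  IsInvProb f μ ∧ entropy f μ + ((∫ x, φ x ∂μ : ℝ) : EReal) = pressure f φ

/-- Globally Hoelder continuous observable. -/
def IsHoelder (g : ℂ × ℂ → ℝ) : Prop :=
  ∃ C r : NNReal, 0 < r ∧ r ≤ 1 ∧ HolderWith C r g

/-- `g = ψ ∘ f - ψ` holds `μ`-almost everywhere for some `ψ ∈ L²(μ)`. -/
def IsCoboundary (f : ℂ × ℂ → ℂ × ℂ) (μ : Measure (ℂ × ℂ)) (g : ℂ × ℂ → ℝ) : Prop :=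
  ∃ ψ : ℂ × ℂ → ℝ, MemLp ψ 2 μ ∧ ∀ᵐ x ∂μ, g x = ψ (f x) - ψ x

/-- The set `{x : S_n(g)(x) / n > ε}`. -/
def devSet (f : ℂ × ℂ → ℂ × ℂ) (g : ℂ × ℂ → ℝ) (ε : ℝ) (n : ℕ) : Set (ℂ × ℂ) :=
  {x | ε < (∑ i ∈ Finset.range n, g (f^[i] x)) / n}

/-- There is a function `c` on a neighbourhood `(-δ, δ)` of `0`, non-negative, strictly
convex, vanishing at most at `0`, with `(1/n) log μ(S_n g / n > ε) → -c(ε)` for every
sufficiently small `ε > 0` (limit in `[-∞, ∞]`, with `log 0 = -∞`). -/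
def HasRateFunction (f : ℂ × ℂ → ℂ × ℂ) (μ : Measure (ℂ × ℂ)) (g : ℂ × ℂ → ℝ) : Prop :=
  ∃ (δ : ℝ) (c : ℝ → ℝ), 0 < δ ∧ (∀ t ∈ Set.Ioo (-δ) δ, 0 ≤ c t) ∧
    StrictConvexOn ℝ (Set.Ioo (-δ) δ) c ∧ (∀ t ∈ Set.Ioo (-δ) δ, c t = 0 → t = 0) ∧
    ∀ᶠ ε : ℝ in 𝓝[>] 0,
      Tendsto (fun n : ℕ => (((n : ℝ)⁻¹ : ℝ) : EReal) * ENNReal.log (μ (devSet f g ε n)))
        atTop (𝓝 (((-c ε : ℝ)) : EReal))

end Pool.Agent.MP_3779a0
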