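import Pool.Agent.MP_3779a0.Geom
import Pool.Agent.MP_3779a0.B5
import Pool.Agent.MP_3779a0.C1
import Pool.Agent.MP_3779a0.C2
import Pool.Agent.MP_3779a0.C3

open MeasureTheory Filter Topology

namespace Pool.Agent.MP_3779a0

theorem gam_embedding : MeasurableEmbedding gam :=
  (gam_continuous.isClosedEmbedding gam_injective).measurableEmbedding

theorem fmap_comp_gam : fmap ∘ gam =
    gam ∘ (fun θ => θ + ((Real.sqrt 2 : ℝ) : UnitAddCircle)) := by
  ext1 θ
  exact fmap_gam θ

theorem iterate_gam (i : ℕ) (θ : UnitAddCircle) :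
    fmap^[i] (gam θ) = gam (θ + i • ((Real.sqrt 2 : ℝ) : UnitAddCircle)) := by
  induction i with
  | zero => simp
  | succ i ih =>
    rw [Function.iterate_succ_apply', ih, fmap_gam, add_assoc]
    congr 2

theorem rot_preserving : MeasurePreserving
    (fun θ => θ + ((Real.sqrt 2 : ℝ) : UnitAddCircle)) AddCircle.haarAddCircle
      AddCircle.haarAddCircle :=
  measurePreserving_add_right _ _

theorem muT_inv : IsInvProb fmap muT := by
  refine ⟨?_, ?_⟩
  · unfold muT
    exact Measure.isProbabilityMeasure_map gam_continuous.aemeasurable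
  · refine ⟨fmap_continuous.measurable, ?_⟩
    unfold muT
    rw [Measure.map_map fmap_continuous.measurable gam_continuous.measurable, fmap_comp_gam,
      ← Measure.map_map gam_continuous.measurable rot_preserving.measurable, rot_preserving.map_eq]

theorem unique_on_TT (ν : Measure (ℂ × ℂ)) (hν : IsInvProb fmap ν) (hT : ∀ᵐ x ∂ν, x ∈ TT) :
    ν = muT := by
  obtain ⟨hp, hinv⟩ := hν
  set ν' := ν.comap gam with hν'
  have hmap : ν'.map gam = ν := by
    rw [hν', gam_embedding.map_comap, range_gam]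
    exact Measure.restrict_eq_self_of_ae_mem hT
  have hprob : IsProbabilityMeasure ν' := by
    constructor
    have h1 : ν'.map gam Set.univ = 1 := by rw [hmap]; exact measure_univ
    rwa [gam_embedding.map_apply, Set.preimage_univ] at h1
  have hrot : Measurable (fun θ => θ + ((Real.sqrt 2 : ℝ) : UnitAddCircle)) :=
    rot_preserving.measurable
  have hpres : MeasurePreserving (fun θ => θ + ((Real.sqrt 2 : ℝ) : UnitAddCircle)) ν' ν' := by
    refine ⟨hrot, ?_⟩
    have h1 : (ν'.map (fun θ => θ + ((Real.sqrt 2 : ℝ) : UnitAddCircle))).map gam = ν'.map gam := by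
      rw [Measure.map_map gam_continuous.measurable hrot, ← fmap_comp_gam,
        ← Measure.map_map fmap_continuous.measurable gam_continuous.measurable, hmap, hinv.map_eq]
    have h2 := congrArg (fun m : Measure (ℂ × ℂ) => m.comap gam) h1
    simp only [gam_embedding.comap_map] at h2
    exact h2
  have heq := circle_unique ν' AddCircle.haarAddCircle hpres rot_preserving
  rw [← hmap, heq]
  rfl

theorem entropy_nonneg (f : ℂ × ℂ → ℂ × ℂ) (ν : Measure (ℂ × ℂ)) [IsProbabilityMeasure ν] :
    0 ≤ entropy f ν := by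
  unfold entropy
  refine le_iSup_of_le 1 (le_iSup_of_le (fun _ => 0) (le_iSup_of_le measurable_const ?_))
  refine le_limsup_of_frequently_le (Frequently.of_forall fun n => ?_)
  have : 0 ≤ wordEntropy f ν (fun _ => (0 : Fin 1)) n / n := by
    apply div_nonneg _ (Nat.cast_nonneg n)
    unfold wordEntropy
    apply Finset.sum_nonneg
    intro w _
    exact Real.negMulLog_nonneg measureReal_nonneg measureReal_le_one
  exact_mod_cast this

theorem infDist_integrable (ν : Measure (ℂ × ℂ)) (hν : IsInvProb fmap ν) :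
    Integrable (fun x => Metric.infDist x TT) ν := by
  have hp := hν.1
  have h1 := trap ν hν
  apply Integrable.of_bound (C := 8)
    (Metric.continuous_infDist_pt TT).aestronglyMeasurable
  filter_upwards [h1] with x hx
  have hx0 := hx 0
  simp only [Function.iterate_zero, id_eq, Metric.mem_ball, dist_zero_right] at hx0
  rw [Real.norm_eq_abs, abs_of_nonneg Metric.infDist_nonneg]
  have hmem : hh 1 ∈ TT := ⟨1, by simp, rfl⟩
  refine (Metric.infDist_le_dist_of_mem hmem).trans ?_
  rw [dist_eq_norm]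
  refine (norm_sub_le _ _).trans ?_
  have := hh_norm 1 (by simp)
  linarith

theorem ae_TT_muT : ∀ᵐ x ∂muT, x ∈ TT := by
  unfold muT
  rw [gam_embedding.ae_map_iff]
  filter_upwards with θ
  rw [← range_gam]
  exact ⟨θ, rfl⟩

/-- The weight. -/
noncomputable def weight (A : ℝ) (x : ℂ × ℂ) : ℝ := -(A * Metric.infDist x TT)

theorem weight_lip (A : ℝ) : ∃ L, LipschitzWith L (weight A) := by
  have h1 : LipschitzWith 1 (fun x => Metric.infDist x TT) := Metric.lipschitz_infDist_pt TT
  refine ⟨Real.toNNReal |A|, LipschitzWith.of_dist_le_mul fun x y => ?_⟩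
  have h2 := h1.dist_le_mul x y
  rw [Real.dist_eq] at h2 ⊢
  unfold weight
  rw [show -(A * Metric.infDist x TT) - -(A * Metric.infDist y TT) =
    (-A) * (Metric.infDist x TT - Metric.infDist y TT) by ring, abs_mul, abs_neg,
    Real.coe_toNNReal _ (abs_nonneg A)]
  simp only [NNReal.coe_one, one_mul] at h2
  gcongr

theorem equilibrium : ∃ A : ℝ, 0 < A ∧ IsEquilibrium fmap (weight A) muT ∧
    ∀ ν, IsEquilibrium fmap (weight A) ν → ν = muT := by
  obtain ⟨C, C1, hC, hC1, hgeom⟩ := geom
  have hent : ∀ ν, IsInvProb fmap ν →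
      entropy fmap ν ≤ ((4 * C * ∫ x, Metric.infDist x TT ∂ν : ℝ) : EReal) := fun ν hν =>
    entropy_le_of_expansion fmap fmap_continuous ν hν 4 (trap ν hν)
      (fun x => Metric.infDist x TT) (Metric.continuous_infDist_pt TT)
      (fun x => Metric.infDist_nonneg) C C1 hC hC1 hgeom
  set A := 4 * C + 1 with hA
  have hA0 : 0 < A := by positivity
  have hint : ∀ ν : Measure (ℂ × ℂ), ∫ x, weight A x ∂ν = -(A * ∫ x, Metric.infDist x TT ∂ν) := by
    intro ν
    unfold weight
    rw [integral_neg, integral_const_mul]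
  have hle : ∀ ν, IsInvProb fmap ν →
      entropy fmap ν + ((∫ x, weight A x ∂ν : ℝ) : EReal) ≤
        ((-(∫ x, Metric.infDist x TT ∂ν) : ℝ) : EReal) := by
    intro ν hν
    calc entropy fmap ν + ((∫ x, weight A x ∂ν : ℝ) : EReal)
        ≤ ((4 * C * ∫ x, Metric.infDist x TT ∂ν : ℝ) : EReal) +
          ((∫ x, weight A x ∂ν : ℝ) : EReal) := by gcongr; exact hent ν hν
      _ = ((-(∫ x, Metric.infDist x TT ∂ν) : ℝ) : EReal) := by
          rw [← EReal.coe_add, hint, hA]
          congr 1
          ring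
  have hI0 : ∀ ν : Measure (ℂ × ℂ), 0 ≤ ∫ x, Metric.infDist x TT ∂ν := fun ν =>
    integral_nonneg fun x => Metric.infDist_nonneg
  have hle0 : ∀ ν, IsInvProb fmap ν →
      entropy fmap ν + ((∫ x, weight A x ∂ν : ℝ) : EReal) ≤ 0 := by
    intro ν hν
    refine (hle ν hν).trans ?_
    have := hI0 ν
    have h : (-(∫ x, Metric.infDist x TT ∂ν) : ℝ) ≤ 0 := by linarith
    exact_mod_cast h
  have hImu : ∫ x, Metric.infDist x TT ∂muT = 0 := by
    rw [integral_eq_zero_iff_of_nonneg (fun x => Metric.infDist_nonneg)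
      (infDist_integrable muT muT_inv)]
    filter_upwards [ae_TT_muT] with x hx
    exact Metric.infDist_zero_of_mem hx
  have hprob := muT_inv.1
  have hmu : entropy fmap muT + ((∫ x, weight A x ∂muT : ℝ) : EReal) = 0 := by
    apply le_antisymm (hle0 muT muT_inv)
    rw [hint, hImu, mul_zero, neg_zero, EReal.coe_zero, add_zero]
    exact entropy_nonneg fmap muT
  have hpres : pressure fmap (weight A) = 0 := by
    apply le_antisymm
    · exact iSup₂_le hle0
    · rw [← hmu]
      exact le_iSup₂_of_le muT muT_inv le_rfl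
  refine ⟨A, hA0, ⟨muT_inv, by rw [hpres, hmu]⟩, ?_⟩
  rintro ν ⟨hν, heq⟩
  rw [hpres] at heq
  have h1 := hle ν hν
  rw [heq] at h1
  have h2 : (0 : ℝ) ≤ -(∫ x, Metric.infDist x TT ∂ν) := by exact_mod_cast h1
  have h3 : ∫ x, Metric.infDist x TT ∂ν = 0 := le_antisymm (by linarith) (hI0 ν)
  rw [integral_eq_zero_iff_of_nonneg (fun x => Metric.infDist_nonneg)
      (infDist_integrable ν hν)] at h3
  apply unique_on_TT ν hν
  filter_upwards [h3] with x hx
  exact (TT_compact.isClosed.mem_iff_infDist_zero TT_nonempty).mpr hx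

theorem no_rate (f : ℂ × ℂ → ℂ × ℂ) (μ : Measure (ℂ × ℂ)) (g : ℂ × ℂ → ℝ)
    (h : ∀ ε : ℝ, 0 < ε → ∀ᶠ n : ℕ in atTop, μ (devSet f g ε n) = 0) :
    ¬ HasRateFunction f μ g := by
  rintro ⟨δ, c, _, _, _, _, hev⟩
  obtain ⟨ε, hε, hε0⟩ := (hev.and self_mem_nhdsWithin).exists
  have hε0' : 0 < ε := hε0
  have hbot : Tendsto (fun n : ℕ => (((n : ℝ)⁻¹ : ℝ) : EReal) * ENNReal.log (μ (devSet f g ε n)))
        atTop (𝓝 ⊥) := by
    apply tendsto_const_nhds.congr'
    filter_upwards [h ε hε0', eventually_ge_atTop 1] with n hn hn1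
    rw [hn, ENNReal.log_zero, EReal.coe_mul_bot_of_pos]
    have : (1 : ℝ) ≤ n := by exact_mod_cast hn1
    positivity
  exact EReal.coe_ne_bot _ (tendsto_nhds_unique hε hbot)

theorem observable : ∃ g : ℂ × ℂ → ℝ, IsHoelder g ∧ ∫ x, g x ∂muT = 0 ∧
    ¬ IsCoboundary fmap muT g ∧
    ∀ ε : ℝ, 0 < ε → ∀ᶠ n : ℕ in atTop, muT (devSet fmap g ε n) = 0 := by
  obtain ⟨G, ⟨C, hC0, hC⟩, hmean, hcob, hunif⟩ := exists_observable
  have hinv : Function.LeftInverse (Function.invFun gam) gam :=
    Function.leftInverse_invFun gam_injective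
  obtain ⟨g, hg1, hg2⟩ := holder_extend TT TT_nonempty (fun x => G (Function.invFun gam x))
    (C * 4096 ^ (1 / 4 : ℝ)) (by positivity) (by
      intro x hx y hy
      rw [← range_gam] at hx hy
      obtain ⟨θ, rfl⟩ := hx
      obtain ⟨θ', rfl⟩ := hy
      rw [hinv θ, hinv θ']
      refine (hC θ θ').trans ?_
      rw [mul_assoc, ← Real.mul_rpow (by norm_num) dist_nonneg]
      gcongr
      exact dist_gam' θ θ')
  have hgG : ∀ θ, g (gam θ) = G θ := by
    intro θ
    rw [hg2 _ (by rw [← range_gam]; exact ⟨θ, rfl⟩), hinv θ]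
  refine ⟨g, hg1, ?_, ?_, ?_⟩
  · unfold muT
    rw [gam_embedding.integral_map]
    simp only [hgG]
    exact hmean
  · rintro ⟨ψ, hψ, hae⟩
    apply hcob
    have hprob := muT_inv.1
    refine ⟨fun θ => ψ (gam θ), ?_, ?_⟩
    · have h1 : Integrable ψ muT := hψ.integrable (by norm_num)
      unfold muT at h1
      rw [gam_embedding.integrable_map_iff] at h1
      exact h1
    · unfold muT at hae
      rw [gam_embedding.ae_map_iff] at hae
      filter_upwards [hae] with θ hθ
      rw [← hgG, hθ, fmap_gam]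
  · intro ε hε
    filter_upwards [hunif ε hε] with n hn
    unfold muT
    rw [gam_embedding.map_apply]
    have : gam ⁻¹' (devSet fmap g ε n) = ∅ := by
      ext θ
      simp only [Set.mem_preimage, devSet, Set.mem_ofPred_eq, Set.mem_empty_iff_false, iff_false,
        not_lt]
      have h1 := hn θ
      simp only [iterate_gam, hgG]
      refine le_trans ?_ h1.le
      gcongr
      exact le_abs_self _
    rw [this, measure_empty]

end Pool.Agent.MP_3779a0
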