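import Pool.Agent.MP_3779a0.Curve

open MeasureTheory Filter Topology

namespace Pool.Agent.MP_3779a0

/-- `P z = z u'(z)` -/
noncomputable def PP (z : ℂ) : ℂ := z * deriv uu z

theorem uu_differentiableAt (z : ℂ) (hz : ‖z‖ < 1 / 4096) : DifferentiableAt ℂ uu z :=
  uu_diff.differentiableAt (Metric.isOpen_ball.mem_nhds (by simpa using hz))

theorem PP_eq (z : ℂ) (hz : ‖z‖ < 1 / 4096) :
    PP (lam * z) + PP (z / lam) / 2 = (tt + 2 * uu z) * PP z := by
  have h0 := lam_ne_zero
  have hz1 : ‖lam * z‖ < 1 / 4096 := by rwa [norm_mul, lam_norm, one_mul]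
  have hz2 : ‖z / lam‖ < 1 / 4096 := by rwa [norm_div, lam_norm, div_one]
  have d0 := (uu_differentiableAt z hz).hasDerivAt
  have d1 := (uu_differentiableAt _ hz1).hasDerivAt
  have d2 := (uu_differentiableAt _ hz2).hasDerivAt
  have e1 : HasDerivAt (fun w => uu (lam * w)) (deriv uu (lam * z) * lam) z := by
    have : HasDerivAt (fun w : ℂ => lam * w) lam z := by
      simpa using (hasDerivAt_id z).const_mul lam
    exact d1.comp z this
  have e2 : HasDerivAt (fun w => uu (w / lam)) (deriv uu (z / lam) * (1 / lam)) z := by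
    have : HasDerivAt (fun w : ℂ => w / lam) (1 / lam) z := by
      simpa using (hasDerivAt_id z).div_const lam
    exact d2.comp z this
  have e3 := e1.add (e2.div_const 2)
  have e4 := (d0.const_mul tt).add (d0.pow 2)
  have hev : (fun w => uu (lam * w) + uu (w / lam) / 2) =ᶠ[𝓝 z]
      (fun w => tt * uu w + uu w ^ 2) := by
    have : Metric.ball (0 : ℂ) (1 / 4096) ∈ 𝓝 z :=
      Metric.isOpen_ball.mem_nhds (by simpa using hz)
    filter_upwards [this] with w hw
    exact uu_eq w (by simpa using hw)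
  have e5 := e3.congr_of_eventuallyEq hev.symm
  have e6 := e5.unique e4
  unfold PP
  have : deriv uu (lam * z) * lam + deriv uu (z / lam) * (1 / lam) / 2 =
      tt * deriv uu z + 2 * uu z * deriv uu z := by
    simpa using e6
  linear_combination z * this

theorem deriv_uu_close (z : ℂ) (hz : ‖z‖ < 1 / 4096) : ‖deriv uu z - 1‖ ≤ 1 / 4 := by
  have h1 : deriv (fun w => uu w - w) z = deriv uu z - 1 := by
    have d0 := (uu_differentiableAt z hz).hasDerivAt
    exact (d0.sub (hasDerivAt_id z)).deriv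
  rw [← h1]
  have hl : LipschitzOnWith (1 / 4) (fun w => uu w - w) (Metric.ball 0 (1 / 4096)) := by
    apply LipschitzOnWith.of_dist_le_mul
    intro a ha b hb
    rw [dist_eq_norm, dist_eq_norm]
    have h := uu_close a b (by simpa using ha) (by simpa using hb)
    rw [show uu a - a - (uu b - b) = uu a - uu b - (a - b) by ring]
    simpa using h
  have := norm_deriv_le_of_lipschitzOn
    (Metric.isOpen_ball.mem_nhds (by simpa using hz : z ∈ Metric.ball (0 : ℂ) (1 / 4096))) hl
  simpa using this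

/-- `pp z = P(z / 8192)` for `z` in the unit circle -/
noncomputable def pp (z : ℂ) : ℂ := PP (z / 8192)

theorem pp_eq (z : ℂ) (hz : ‖z‖ ≤ 1) :
    pp (lam * z) + pp (z / lam) / 2 = (tt + 2 * uu (z / 8192)) * pp z := by
  unfold pp
  rw [← PP_eq _ (small_of_norm_le hz)]
  congr 2
  · ring_nf
  · congr 1; ring

theorem pp_norm (z : ℂ) (hz : ‖z‖ = 1) : 1 / 16384 ≤ ‖pp z‖ ∧ ‖pp z‖ ≤ 1 := by
  unfold pp PP
  have h := deriv_uu_close _ (small_of_norm_le hz.le)
  have h1 : ‖z / 8192‖ = 1 / 8192 := by rw [norm_div, hz]; norm_num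
  rw [norm_mul, h1]
  have h2 : ‖deriv uu (z / 8192)‖ ≤ 1 / 4 + 1 := by
    have e : deriv uu (z / 8192) = (deriv uu (z / 8192) - 1) + 1 := by ring
    rw [e]
    refine (norm_add_le _ _).trans ?_
    rw [norm_one]
    linarith
  have h3 : 1 - 1 / 4 ≤ ‖deriv uu (z / 8192)‖ := by
    have e : ‖(1 : ℂ)‖ ≤ ‖deriv uu (z / 8192)‖ + ‖deriv uu (z / 8192) - 1‖ := by
      have e' : (1 : ℂ) = deriv uu (z / 8192) - (deriv uu (z / 8192) - 1) := by ring
      conv_lhs => rw [e']
      exact norm_sub_le _ _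
    rw [norm_one] at e
    linarith
  constructor
  · linarith
  · linarith

theorem pp_lip : ∃ L : ℝ, 0 ≤ L ∧ ∀ z w : ℂ, ‖z‖ ≤ 1 → ‖w‖ ≤ 1 → ‖pp z - pp w‖ ≤ L * ‖z - w‖ := by
  have hd : DifferentiableOn ℂ PP (Metric.ball 0 (1 / 4096)) := by
    unfold PP
    exact differentiableOn_id.mul (uu_diff.deriv Metric.isOpen_ball)
  have hsub : Metric.closedBall (0 : ℂ) (1 / 8192) ⊆ Metric.ball 0 (1 / 4096) :=
    Metric.closedBall_subset_ball (by norm_num)
  have hcont : ContinuousOn (deriv PP) (Metric.closedBall 0 (1 / 8192)) :=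
    ((hd.deriv Metric.isOpen_ball).continuousOn).mono hsub
  obtain ⟨M, hM⟩ := (isCompact_closedBall (0 : ℂ) (1 / 8192)).exists_bound_of_continuousOn hcont
  have hM0 : 0 ≤ M := (norm_nonneg _).trans (hM 0 (by simp))
  refine ⟨M, hM0, fun z w hz hw => ?_⟩
  have hz' : z / 8192 ∈ Metric.closedBall (0 : ℂ) (1 / 8192) := by
    rw [mem_closedBall_zero_iff, norm_div]
    norm_num
    linarith
  have hw' : w / 8192 ∈ Metric.closedBall (0 : ℂ) (1 / 8192) := by
    rw [mem_closedBall_zero_iff, norm_div]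
    norm_num
    linarith
  have := Convex.norm_image_sub_le_of_norm_deriv_le (f := PP) (C := M)
    (fun x hx => hd.differentiableAt (Metric.isOpen_ball.mem_nhds (hsub hx)))
    (fun x hx => hM x hx) (convex_closedBall (0 : ℂ) (1 / 8192)) hw' hz'
  unfold pp
  refine this.trans ?_
  have e1 : ‖z / 8192 - w / 8192‖ = ‖z - w‖ / 8192 := by
    rw [← sub_div, norm_div]; norm_num
  rw [e1]
  have := norm_nonneg (z - w)
  gcongr
  linarith

end Pool.Agent.MP_3779a0
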