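import Pool.Agent.MP_3779a0.Frame

open MeasureTheory Filter Topology

namespace Pool.Agent.MP_3779a0

/-- Adapted norm at the point `hh z`. -/
noncomputable def Nm (K : ℝ) (z : ℂ) (V : ℂ × ℂ) : ℝ :=
  ‖V.1 / pp z‖ + K * ‖pp z * V.2 - pp (z / lam) * V.1‖

/-- Derivative of `fmap` at `hh z`. -/
noncomputable def AA (z : ℂ) (V : ℂ × ℂ) : ℂ × ℂ :=
  ((tt + 2 * uu (z / 8192)) * V.1 - V.2 / 2, V.1)

theorem norm_div_lam (z : ℂ) : ‖z / lam‖ = ‖z‖ := by rw [norm_div, lam_norm, div_one]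
theorem norm_lam_mul (z : ℂ) : ‖lam * z‖ = ‖z‖ := by rw [norm_mul, lam_norm, one_mul]

theorem Nm_add (K : ℝ) (hK : 0 ≤ K) (z : ℂ) (V W : ℂ × ℂ) :
    Nm K z (V + W) ≤ Nm K z V + Nm K z W := by
  unfold Nm
  have h1 : ‖(V + W).1 / pp z‖ ≤ ‖V.1 / pp z‖ + ‖W.1 / pp z‖ := by
    rw [Prod.fst_add, add_div]
    exact norm_add_le _ _
  have h2 : ‖pp z * (V + W).2 - pp (z / lam) * (V + W).1‖ ≤
      ‖pp z * V.2 - pp (z / lam) * V.1‖ + ‖pp z * W.2 - pp (z / lam) * W.1‖ := by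
    rw [Prod.fst_add, Prod.snd_add, show pp z * (V.2 + W.2) - pp (z / lam) * (V.1 + W.1) =
      (pp z * V.2 - pp (z / lam) * V.1) + (pp z * W.2 - pp (z / lam) * W.1) by ring]
    exact norm_add_le _ _
  have h3 := mul_le_mul_of_nonneg_left h2 hK
  linarith

theorem Nm_nonneg (K : ℝ) (hK : 0 ≤ K) (z : ℂ) (V : ℂ × ℂ) : 0 ≤ Nm K z V := by
  unfold Nm; positivity

theorem Nm_upper (K : ℝ) (hK : 0 ≤ K) (z : ℂ) (hz : ‖z‖ = 1) (V : ℂ × ℂ) :
    Nm K z V ≤ (16384 + 2 * K) * ‖V‖ := by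
  unfold Nm
  obtain ⟨hp1, hp2⟩ := pp_norm z hz
  obtain ⟨hq1, hq2⟩ := pp_norm (z / lam) (by rw [norm_div_lam, hz])
  have hV1 := norm_fst_le V
  have hV2 := norm_snd_le V
  have h1 : ‖V.1 / pp z‖ ≤ 16384 * ‖V‖ := by
    rw [norm_div, div_le_iff₀ (by linarith)]
    have : 0 ≤ ‖V‖ := norm_nonneg V
    nlinarith
  have h2 : ‖pp z * V.2 - pp (z / lam) * V.1‖ ≤ 2 * ‖V‖ := by
    refine (norm_sub_le _ _).trans ?_
    rw [norm_mul, norm_mul]
    have : ‖pp z‖ * ‖V.2‖ ≤ 1 * ‖V‖ := by gcongr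
    have : ‖pp (z / lam)‖ * ‖V.1‖ ≤ 1 * ‖V‖ := by gcongr
    linarith
  have h3 := mul_le_mul_of_nonneg_left h2 hK
  linarith

theorem Nm_lower (K : ℝ) (hK : 1 ≤ K) (z : ℂ) (hz : ‖z‖ = 1) (V : ℂ × ℂ) :
    ‖V‖ ≤ 32768 * Nm K z V := by
  obtain ⟨hp1, hp2⟩ := pp_norm z hz
  obtain ⟨hq1, hq2⟩ := pp_norm (z / lam) (by rw [norm_div_lam, hz])
  have hp0 : pp z ≠ 0 := by
    intro h
    rw [h, norm_zero] at hp1
    norm_num at hp1
  set E1 := ‖V.1 / pp z‖ with hE1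
  set E2 := ‖pp z * V.2 - pp (z / lam) * V.1‖ with hE2
  have hN : Nm K z V = E1 + K * E2 := rfl
  have hE10 : 0 ≤ E1 := norm_nonneg _
  have hE20 : 0 ≤ E2 := norm_nonneg _
  have hX : ‖V.1‖ ≤ E1 := by
    rw [hE1, norm_div, le_div_iff₀ (by linarith)]
    have := norm_nonneg V.1
    nlinarith
  have hY : ‖V.2‖ ≤ 16384 * (E2 + E1) := by
    have e : pp z * V.2 = (pp z * V.2 - pp (z / lam) * V.1) + pp (z / lam) * V.1 := by ring
    have h1 : ‖pp z‖ * ‖V.2‖ ≤ E2 + ‖pp (z / lam)‖ * ‖V.1‖ := by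
      rw [← norm_mul, ← norm_mul, e]
      exact norm_add_le _ _
    have h2 : ‖pp (z / lam)‖ * ‖V.1‖ ≤ 1 * E1 := by gcongr
    have h3 : 1 / 16384 * ‖V.2‖ ≤ ‖pp z‖ * ‖V.2‖ := by gcongr
    linarith
  rw [hN, Prod.norm_def]
  have hKE : E2 ≤ K * E2 := by nlinarith
  apply max_le <;> linarith

theorem alg1 (p q r c X Y : ℂ) (hp : p ≠ 0) (hr : r ≠ 0) (h : r + q / 2 = c * p) :
    (c * X - Y / 2) / r = X / p - (p * Y - q * X) / (2 * p * r) := by
  field_simp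
  linear_combination (-2 * X) * h

theorem Nm_step (K : ℝ) (hK : 16384 ^ 2 ≤ K) (z : ℂ) (hz : ‖z‖ = 1) (V : ℂ × ℂ) :
    Nm K (lam * z) (AA z V) ≤ Nm K z V := by
  obtain ⟨hp1, hp2⟩ := pp_norm z hz
  obtain ⟨hr1, hr2⟩ := pp_norm (lam * z) (by rw [norm_lam_mul, hz])
  have hp0 : pp z ≠ 0 := by
    intro h
    rw [h, norm_zero] at hp1
    norm_num at hp1
  have hr0 : pp (lam * z) ≠ 0 := by
    intro h
    rw [h, norm_zero] at hr1
    norm_num at hr1
  have hpe := pp_eq z hz.le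
  have hlz : lam * z / lam = z := by
    rw [mul_comm, mul_div_assoc, div_self lam_ne_zero, mul_one]
  unfold Nm AA
  simp only
  rw [hlz]
  have i1 : ((tt + 2 * uu (z / 8192)) * V.1 - V.2 / 2) / pp (lam * z) =
      V.1 / pp z - (pp z * V.2 - pp (z / lam) * V.1) / (2 * pp z * pp (lam * z)) := by
    exact alg1 _ _ _ _ _ _ hp0 hr0 hpe
  have i2 : pp (lam * z) * V.1 - pp z * ((tt + 2 * uu (z / 8192)) * V.1 - V.2 / 2) =
      (pp z * V.2 - pp (z / lam) * V.1) / 2 := by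
    linear_combination (V.1) * hpe
  rw [i1, i2]
  set E := pp z * V.2 - pp (z / lam) * V.1 with hE
  have h1 : ‖V.1 / pp z - E / (2 * pp z * pp (lam * z))‖ ≤
      ‖V.1 / pp z‖ + 16384 ^ 2 / 2 * ‖E‖ := by
    refine (norm_sub_le _ _).trans ?_
    gcongr
    have h2' : ‖(2 : ℂ)‖ = 2 := by norm_num
    rw [norm_div, norm_mul, norm_mul, h2', div_le_iff₀ (by positivity)]
    have : (1 : ℝ) / 16384 * (1 / 16384) ≤ ‖pp z‖ * ‖pp (lam * z)‖ := by gcongr
    have hE0 := norm_nonneg E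
    norm_num at this ⊢
    nlinarith
  have h2 : ‖E / 2‖ = ‖E‖ / 2 := by rw [norm_div]; norm_num
  rw [h2]
  have hE0 := norm_nonneg E
  nlinarith

theorem Nm_lip (K L : ℝ) (hK : 0 ≤ K) (hL0 : 0 ≤ L)
    (hL : ∀ z w : ℂ, ‖z‖ ≤ 1 → ‖w‖ ≤ 1 → ‖pp z - pp w‖ ≤ L * ‖z - w‖)
    (z w : ℂ) (hz : ‖z‖ = 1) (hw : ‖w‖ = 1) (V : ℂ × ℂ) :
    Nm K z V ≤ Nm K w V + (16384 ^ 2 * L + 2 * K * L) * ‖z - w‖ * ‖V‖ := by
  obtain ⟨hp1, hp2⟩ := pp_norm z hz
  obtain ⟨hr1, hr2⟩ := pp_norm w hw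
  have hp0 : pp z ≠ 0 := by
    intro h
    rw [h, norm_zero] at hp1
    norm_num at hp1
  have hr0 : pp w ≠ 0 := by
    intro h
    rw [h, norm_zero] at hr1
    norm_num at hr1
  have hV1 := norm_fst_le V
  have hV2 := norm_snd_le V
  have hzw := norm_nonneg (z - w)
  have hVn := norm_nonneg V
  have hL1 := hL z w hz.le hw.le
  have hL2 := hL (z / lam) (w / lam) (by rw [norm_div_lam, hz]) (by rw [norm_div_lam, hw])
  rw [← sub_div, norm_div_lam] at hL2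
  unfold Nm
  have h1 : ‖V.1 / pp z‖ ≤ ‖V.1 / pp w‖ + 16384 ^ 2 * L * ‖z - w‖ * ‖V‖ := by
    have e : V.1 / pp z = V.1 / pp w + (-(V.1 * (pp z - pp w))) / (pp z * pp w) := by
      field_simp
      ring
    rw [e]
    refine (norm_add_le _ _).trans ?_
    gcongr
    rw [norm_div, norm_neg, norm_mul, norm_mul, div_le_iff₀ (by positivity)]
    have h3 : ‖V.1‖ * ‖pp z - pp w‖ ≤ ‖V‖ * (L * ‖z - w‖) := by gcongr
    have h4 : (1 : ℝ) / 16384 * (1 / 16384) ≤ ‖pp z‖ * ‖pp w‖ := by gcongr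
    have h5 : 0 ≤ L * ‖z - w‖ * ‖V‖ := by positivity
    norm_num at h4 ⊢
    nlinarith
  have h2 : ‖pp z * V.2 - pp (z / lam) * V.1‖ ≤ ‖pp w * V.2 - pp (w / lam) * V.1‖ +
      2 * L * ‖z - w‖ * ‖V‖ := by
    have e : pp z * V.2 - pp (z / lam) * V.1 = (pp w * V.2 - pp (w / lam) * V.1) +
      ((pp z - pp w) * V.2 - (pp (z / lam) - pp (w / lam)) * V.1) := by ring
    rw [e]
    refine (norm_add_le _ _).trans ?_
    gcongr
    refine (norm_sub_le _ _).trans ?_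
    rw [norm_mul, norm_mul]
    have h3 : ‖pp z - pp w‖ * ‖V.2‖ ≤ L * ‖z - w‖ * ‖V‖ := by gcongr
    have h4 : ‖pp (z / lam) - pp (w / lam)‖ * ‖V.1‖ ≤ L * ‖z - w‖ * ‖V‖ := by gcongr
    linarith
  have h3 := mul_le_mul_of_nonneg_left h2 hK
  linarith

theorem fmap_sub (z : ℂ) (x y : ℂ × ℂ) : fmap y - fmap x = AA z (y - x) +
    (2 * (x.1 - uu (z / 8192)) * (y.1 - x.1) + (y.1 - x.1) ^ 2, 0) := by
  rw [fmap_apply, fmap_apply]
  unfold AA
  ext
  · simp only [Prod.fst_sub, Prod.snd_sub, Prod.fst_add]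
    ring
  · simp

theorem fmap_lip (x y : ℂ × ℂ) (hx : ‖x‖ ≤ 5) (hy : ‖y‖ ≤ 5) :
    ‖fmap y - fmap x‖ ≤ 12 * ‖y - x‖ := by
  have h1 := norm_fst_le (y - x)
  have h2 := norm_snd_le (y - x)
  rw [Prod.fst_sub] at h1
  rw [Prod.snd_sub] at h2
  have hx1 := (norm_fst_le x).trans hx
  have hy1 := (norm_fst_le y).trans hy
  have htt := tt_norm
  have h0 := norm_nonneg (y - x)
  rw [Prod.norm_def]
  apply max_le
  · rw [Prod.fst_sub, fmap_apply, fmap_apply]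
    simp only
    have e : y.1 ^ 2 + tt * y.1 - y.2 / 2 - (x.1 ^ 2 + tt * x.1 - x.2 / 2) =
      (y.1 + x.1 + tt) * (y.1 - x.1) - (y.2 - x.2) / 2 := by ring
    rw [e]
    have h3 : ‖y.1 + x.1 + tt‖ ≤ 5 + 5 + 3 / 2 :=
      (norm_add_le _ _).trans (add_le_add ((norm_add_le _ _).trans (add_le_add hy1 hx1)) htt)
    calc ‖(y.1 + x.1 + tt) * (y.1 - x.1) - (y.2 - x.2) / 2‖
        ≤ ‖(y.1 + x.1 + tt)‖ * ‖y.1 - x.1‖ + ‖y.2 - x.2‖ / 2 := by
          refine (norm_sub_le _ _).trans ?_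
          rw [norm_mul, norm_div]
          norm_num
      _ ≤ (5 + 5 + 3 / 2) * ‖y - x‖ + ‖y - x‖ / 2 := by gcongr
      _ = 12 * ‖y - x‖ := by ring
  · rw [Prod.snd_sub, second_coord, second_coord]
    linarith

theorem hh_norm (z : ℂ) (hz : ‖z‖ ≤ 1) : ‖hh z‖ ≤ 1 := by
  have h0 : hh 0 = 0 := by
    unfold hh uu
    simp
  have := hh_upper z 0 hz (by simp)
  rw [h0, sub_zero, sub_zero] at this
  linarith

theorem exists_nearest (x : ℂ × ℂ) : ∃ z : ℂ, ‖z‖ = 1 ∧ ‖x - hh z‖ = Metric.infDist x TT := by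
  obtain ⟨y, hy, hd⟩ := TT_compact.exists_infDist_eq_dist TT_nonempty x
  obtain ⟨z, hz, rfl⟩ := hy
  refine ⟨z, by simpa using hz, ?_⟩
  rw [hd, dist_eq_norm]

theorem main_step : ∃ (K C : ℝ) (ζ : ℂ × ℂ → ℂ), 16384 ^ 2 ≤ K ∧ 0 ≤ C ∧ (∀ x, ‖ζ x‖ = 1) ∧
    ∀ x y : ℂ × ℂ, ‖x‖ < 4 → ‖y - x‖ ≤ 1 →
      Nm K (ζ (fmap x)) (fmap y - fmap x) ≤
        (1 + C * (Metric.infDist x TT + ‖y - x‖)) * Nm K (ζ x) (y - x) := by
  obtain ⟨L, hL0, hL⟩ := pp_lip
  choose ζ hζ1 hζ2 using exists_nearest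
  set K : ℝ := 16384 ^ 2 with hKdef
  have hK0 : (0 : ℝ) ≤ K := by positivity
  set CU : ℝ := 16384 + 2 * K with hCU
  set L2 : ℝ := 16384 ^ 2 * L + 2 * K * L with hL2
  have hL20 : 0 ≤ L2 := by positivity
  set C0 : ℝ := 2 * CU + L2 * 16384 * 288 with hC0
  have hC00 : 0 ≤ C0 := by positivity
  refine ⟨K, 32768 * C0, ζ, le_refl _, by positivity, hζ1, ?_⟩
  intro x y hx hxy
  have hy : ‖y‖ ≤ 5 := by
    have e : y = x + (y - x) := by ring
    rw [e]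
    exact (norm_add_le _ _).trans (by linarith)
  set D := Metric.infDist x TT with hD
  have hD0 : 0 ≤ D := Metric.infDist_nonneg
  set v := ‖y - x‖ with hv
  have hv0 : 0 ≤ v := norm_nonneg _
  set N := Nm K (ζ x) (y - x) with hN
  have hvN : v ≤ 32768 * N := Nm_lower K (by rw [hKdef]; norm_num) (ζ x) (hζ1 x) (y - x)
  have hN0 : 0 ≤ N := Nm_nonneg K hK0 _ _
  have hxD : ‖x.1 - uu (ζ x / 8192)‖ ≤ D := by
    have := norm_fst_le (x - hh (ζ x))
    rw [hζ2 x, Prod.fst_sub] at this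
    exact this
  have hX : ‖y.1 - x.1‖ ≤ v := norm_fst_le (y - x)
  -- term 1
  have t1 : Nm K (lam * ζ x) (fmap y - fmap x) ≤ N + CU * (2 * D * v + v ^ 2) := by
    rw [fmap_sub (ζ x) x y]
    refine (Nm_add K hK0 _ _ _).trans ?_
    have s1 := Nm_step K (le_refl _) (ζ x) (hζ1 x) (y - x)
    have s2 := Nm_upper K hK0 (lam * ζ x) (by rw [norm_lam_mul, hζ1])
      ((2 * (x.1 - uu (ζ x / 8192)) * (y.1 - x.1) + (y.1 - x.1) ^ 2, 0) : ℂ × ℂ)
    have s3 : ‖((2 * (x.1 - uu (ζ x / 8192)) * (y.1 - x.1) + (y.1 - x.1) ^ 2, 0) : ℂ × ℂ)‖ ≤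
        2 * D * v + v ^ 2 := by
      rw [Prod.norm_def]
      apply max_le
      · simp only
        refine (norm_add_le _ _).trans ?_
        rw [norm_mul, norm_mul, norm_pow]
        have : ‖(2 : ℂ)‖ = 2 := by norm_num
        rw [this]
        gcongr
      · simp only [norm_zero]
        positivity
    have s4 : (16384 + 2 * K) * ‖((2 * (x.1 - uu (ζ x / 8192)) * (y.1 - x.1) +
        (y.1 - x.1) ^ 2, 0) : ℂ × ℂ)‖ ≤ CU * (2 * D * v + v ^ 2) := by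
      rw [hCU]; gcongr
    exact add_le_add s1 (s2.trans s4)
  -- distance of parameters
  have hff : ‖fmap x - hh (lam * ζ x)‖ ≤ 12 * D := by
    rw [← fmap_hh _ (hζ1 x).le]
    have := fmap_lip (hh (ζ x)) x ((hh_norm _ (hζ1 x).le).trans (by norm_num)) (by linarith)
    rwa [hζ2 x] at this
  have hmem : hh (lam * ζ x) ∈ TT := ⟨lam * ζ x, by
    rw [mem_sphere_zero_iff_norm, norm_lam_mul, hζ1], rfl⟩
  have hdf : ‖fmap x - hh (ζ (fmap x))‖ ≤ 12 * D := by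
    rw [hζ2]
    have := Metric.infDist_le_dist_of_mem (x := fmap x) hmem
    rw [dist_eq_norm] at this
    exact this.trans hff
  have hzz : ‖ζ (fmap x) - lam * ζ x‖ ≤ 16384 * (24 * D) := by
    refine (hh_lower _ _ (hζ1 _).le (by rw [norm_lam_mul, hζ1])).trans ?_
    have e : hh (ζ (fmap x)) - hh (lam * ζ x) =
      (fmap x - hh (lam * ζ x)) - (fmap x - hh (ζ (fmap x))) := by ring
    have : ‖hh (ζ (fmap x)) - hh (lam * ζ x)‖ ≤ 24 * D := by
      rw [e]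
      refine (norm_sub_le _ _).trans ?_
      linarith
    gcongr
  have hfyx := fmap_lip x y (by linarith) hy
  have t2 := Nm_lip K L hK0 hL0 hL (ζ (fmap x)) (lam * ζ x) (hζ1 _)
    (by rw [norm_lam_mul, hζ1]) (fmap y - fmap x)
  have t3 : L2 * ‖ζ (fmap x) - lam * ζ x‖ * ‖fmap y - fmap x‖ ≤
      L2 * (16384 * (24 * D)) * (12 * v) := by
    gcongr
  have hCU0 : 0 ≤ CU := by positivity
  have hDv : 0 ≤ D + v := by positivity
  calc Nm K (ζ (fmap x)) (fmap y - fmap x)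
      ≤ N + CU * (2 * D * v + v ^ 2) + L2 * (16384 * (24 * D)) * (12 * v) := by linarith
    _ ≤ N + C0 * (D + v) * v := by
        rw [hC0]
        have a1 : 0 ≤ CU * v ^ 2 := by positivity
        have a2 : 0 ≤ L2 * v ^ 2 := by positivity
        nlinarith
    _ ≤ N + C0 * (D + v) * (32768 * N) := by gcongr
    _ = (1 + 32768 * C0 * (D + v)) * N := by ring

theorem geom : ∃ C C1 : ℝ, 0 ≤ C ∧ 1 ≤ C1 ∧ ∀ (m : ℕ) (η : ℝ), 0 < η → ∃ ε0 > 0,
    ∀ x y : ℂ × ℂ, (∀ i < m, fmap^[i] x ∈ Metric.ball (0 : ℂ × ℂ) 4) → dist x y ≤ ε0 →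
      dist (fmap^[m] x) (fmap^[m] y) ≤
        C1 * (∏ i ∈ Finset.range m, (1 + C * (Metric.infDist (fmap^[i] x) TT + η))) * dist x y := by
  obtain ⟨K, C, ζ, hK, hC, hζ, hstep⟩ := main_step
  have hK0 : 0 ≤ K := le_trans (by positivity) hK
  have hK1 : 1 ≤ K := le_trans (by norm_num) hK
  refine ⟨C, 32768 * (16384 + 2 * K), hC, by nlinarith, ?_⟩
  intro m η hη
  refine ⟨min η 1 / 12 ^ m, by positivity, ?_⟩
  intro x y hball hdist
  rw [dist_comm, dist_eq_norm] at hdist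
  rw [dist_comm, dist_eq_norm, dist_comm x y, dist_eq_norm]
  have hdist' : 12 ^ m * ‖y - x‖ ≤ min η 1 := by
    rw [le_div_iff₀ (by positivity)] at hdist
    linarith
  have h0 := norm_nonneg (y - x)
  have crude : ∀ i ≤ m, ‖fmap^[i] y - fmap^[i] x‖ ≤ 12 ^ i * ‖y - x‖ := by
    intro i
    induction i with
    | zero => intro _; simp
    | succ i ih =>
      intro hi
      have ih' := ih (by omega)
      rw [Function.iterate_succ_apply', Function.iterate_succ_apply']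
      have hx : ‖fmap^[i] x‖ < 4 := by simpa using hball i (by omega)
      have h1 : (12 : ℝ) ^ i * ‖y - x‖ ≤ 12 ^ m * ‖y - x‖ := by
        gcongr
        · norm_num
        · omega
      have h2 : ‖fmap^[i] y - fmap^[i] x‖ ≤ 1 :=
        ih'.trans (h1.trans (hdist'.trans (min_le_right _ _)))
      have hy : ‖fmap^[i] y‖ ≤ 5 := by
        have e : fmap^[i] y = fmap^[i] x + (fmap^[i] y - fmap^[i] x) := by ring
        rw [e]
        exact (norm_add_le _ _).trans (by linarith)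
      refine (fmap_lip _ _ (by linarith) hy).trans ?_
      rw [pow_succ]
      linarith
  have small : ∀ i ≤ m, ‖fmap^[i] y - fmap^[i] x‖ ≤ min η 1 := by
    intro i hi
    refine (crude i hi).trans (le_trans ?_ hdist')
    gcongr
    norm_num
  have key : ∀ i ≤ m, Nm K (ζ (fmap^[i] x)) (fmap^[i] y - fmap^[i] x) ≤
      (∏ j ∈ Finset.range i, (1 + C * (Metric.infDist (fmap^[j] x) TT + η))) *
        Nm K (ζ x) (y - x) := by
    intro i
    induction i with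
    | zero => intro _; simp
    | succ i ih =>
      intro hi
      have ih' := ih (by omega)
      rw [Function.iterate_succ_apply', Function.iterate_succ_apply']
      have hx : ‖fmap^[i] x‖ < 4 := by simpa using hball i (by omega)
      have hs := small i (by omega)
      have h1 := hstep (fmap^[i] x) (fmap^[i] y) hx (hs.trans (min_le_right _ _))
      refine h1.trans ?_
      rw [Finset.prod_range_succ]
      have hd0 : 0 ≤ Metric.infDist (fmap^[i] x) TT := Metric.infDist_nonneg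
      have h2 : 1 + C * (Metric.infDist (fmap^[i] x) TT + ‖fmap^[i] y - fmap^[i] x‖) ≤
          1 + C * (Metric.infDist (fmap^[i] x) TT + η) := by
        gcongr
        exact hs.trans (min_le_left _ _)
      have hN0 := Nm_nonneg K hK0 (ζ (fmap^[i] x)) (fmap^[i] y - fmap^[i] x)
      have hpos : 0 ≤ 1 + C * (Metric.infDist (fmap^[i] x) TT + η) := by positivity
      calc (1 + C * (Metric.infDist (fmap^[i] x) TT + ‖fmap^[i] y - fmap^[i] x‖)) *
            Nm K (ζ (fmap^[i] x)) (fmap^[i] y - fmap^[i] x)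
          ≤ (1 + C * (Metric.infDist (fmap^[i] x) TT + η)) *
            ((∏ j ∈ Finset.range i, (1 + C * (Metric.infDist (fmap^[j] x) TT + η))) *
        Nm K (ζ x) (y - x)) := by gcongr
        _ = _ := by ring
  have hk := key m le_rfl
  have hl := Nm_lower K hK1 (ζ (fmap^[m] x)) (hζ _) (fmap^[m] y - fmap^[m] x)
  have hu := Nm_upper K hK0 (ζ x) (hζ x) (y - x)
  have hprod : 0 ≤ ∏ j ∈ Finset.range m, (1 + C * (Metric.infDist (fmap^[j] x) TT + η)) := by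
    apply Finset.prod_nonneg
    intro j _
    have hd0 : 0 ≤ Metric.infDist (fmap^[j] x) TT := Metric.infDist_nonneg
    positivity
  calc ‖fmap^[m] y - fmap^[m] x‖
      ≤ 32768 * ((∏ j ∈ Finset.range m, (1 + C * (Metric.infDist (fmap^[j] x) TT + η))) *
        ((16384 + 2 * K) * ‖y - x‖)) := by
        refine hl.trans ?_
        refine mul_le_mul_of_nonneg_left (hk.trans ?_) (by norm_num)
        gcongr
    _ = _ := by ring

end Pool.Agent.MP_3779a0
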