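import Pool.Agent.MP_3779a0.Defs

/-!
The concrete objects: multiplier `lam = exp(2 π i √2)`, the quadratic Henon map `fmap`,
the linearising series `uu`, the invariant circle `TT`, its parametrisation `gam`.
-/

open MeasureTheory Filter Topology

namespace Pool.Agent.MP_3779a0

/-- `lam = exp(2 π i √2)`. -/
noncomputable def lam : ℂ := Complex.exp (2 * Real.pi * Complex.I * (Real.sqrt 2 : ℝ))

/-- `tt = lam + 1/(2 lam)`. -/
noncomputable def tt : ℂ := lam + 1 / (2 * lam)

/-- The polynomial `X² + tt X`. -/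
noncomputable def poly : Polynomial ℂ := Polynomial.X ^ 2 + Polynomial.C tt * Polynomial.X

/-- The Henon map `(x,y) ↦ (x² + tt x - y/2, x)`. -/
noncomputable def fmap : ℂ × ℂ → ℂ × ℂ := elem (1 / 2) poly

/-- denominators `D(n) = lam^(n+1) + lam^(-(n+1))/2 - tt` -/
noncomputable def den (n : ℕ) : ℂ := lam ^ (n + 1) + 1 / (2 * lam ^ (n + 1)) - tt

/-- Coefficients of the linearising series: `coef m` is the coefficient of `z^(m+1)`. -/
noncomputable def coef : ℕ → ℂ
  | 0 => 1
  | n + 1 => (∑ i : Fin n.succ, coef i * coef (n - i)) / den (n + 1)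

/-- The linearising series `u(z) = ∑ coef m z^(m+1)`. -/
noncomputable def uu (z : ℂ) : ℂ := ∑' m : ℕ, coef m * z ^ (m + 1)

/-- The map `h(z) = (u(r z), u(r z / lam))` with `r = 1/8192`. -/
noncomputable def hh (z : ℂ) : ℂ × ℂ := (uu (z / 8192), uu (z / 8192 / lam))

/-- The invariant circle. -/
noncomputable def TT : Set (ℂ × ℂ) := hh '' Metric.sphere 0 1

/-- Parametrisation of the invariant circle by `ℝ/ℤ`. -/
noncomputable def gam (θ : UnitAddCircle) : ℂ × ℂ := hh (AddCircle.toCircle θ : ℂ)

/-- The measure on the invariant circle. -/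
noncomputable def muT : Measure (ℂ × ℂ) := Measure.map gam AddCircle.haarAddCircle

theorem fmap_apply (z : ℂ × ℂ) : fmap z = (z.1 ^ 2 + tt * z.1 - z.2 / 2, z.1) := by
  simp [fmap, elem, poly, div_eq_inv_mul]

theorem fmap_isHenon : IsHenon fmap := by
  refine ⟨[(1 / 2, poly)], by simp, ?_, ?_⟩
  · intro p hp
    simp only [List.mem_singleton] at hp
    subst hp
    refine ⟨by norm_num, ?_⟩
    have h : poly.natDegree = 2 := by
      unfold poly
      compute_degree!
    simp [h]
  · simp [fmap]

end Pool.Agent.MP_3779a0
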