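import Pool.Agent.MP_3779a0.Coef

open MeasureTheory Filter Topology

namespace Pool.Agent.MP_3779a0

theorem term_bound (m : ℕ) (z : ℂ) (hz : ‖z‖ < 1 / 4096) :
    ‖coef m * z ^ (m + 1)‖ ≤ (1 / 16 : ℝ) ^ m := by
  rw [norm_mul, norm_pow]
  have h1 := coef_bound m
  calc ‖coef m‖ * ‖z‖ ^ (m + 1) ≤ 256 ^ m * (1 / 4096) ^ (m + 1) := by gcongr
    _ = (1 / 16 : ℝ) ^ m * (1 / 4096) := by
        rw [pow_succ, ← mul_assoc, ← mul_pow]
        norm_num
    _ ≤ (1 / 16 : ℝ) ^ m * 1 := by gcongr; norm_num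
    _ = (1 / 16 : ℝ) ^ m := mul_one _

theorem summable_sixteen : Summable (fun m : ℕ => (1 / 16 : ℝ) ^ m) :=
  summable_geometric_of_lt_one (by norm_num) (by norm_num)

theorem uu_summable_norm (z : ℂ) (hz : ‖z‖ < 1 / 4096) :
    Summable (fun m => ‖coef m * z ^ (m + 1)‖) :=
  Summable.of_nonneg_of_le (fun _ => norm_nonneg _) (fun m => term_bound m z hz) summable_sixteen

theorem uu_summable (z : ℂ) (hz : ‖z‖ < 1 / 4096) :
    Summable (fun m => coef m * z ^ (m + 1)) := (uu_summable_norm z hz).of_norm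

theorem uu_diff : DifferentiableOn ℂ uu (Metric.ball 0 (1 / 4096)) := by
  have := Complex.differentiableOn_tsum_of_summable_norm (F := fun m (z : ℂ) => coef m * z ^ (m + 1))
    (U := Metric.ball 0 (1 / 4096)) summable_sixteen
    (fun m => by
      apply Differentiable.differentiableOn
      fun_prop) Metric.isOpen_ball
    (fun m z hz => term_bound m z (by simpa using hz))
  exact this

theorem den_mul_coef (n : ℕ) : den (n + 1) * coef (n + 1) =
    ∑ p ∈ Finset.HasAntidiagonal.antidiagonal n, coef p.1 * coef p.2 := by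
  rw [coef_succ]
  have h : den (n + 1) ≠ 0 := by
    intro h
    have h1 := den_bound (n + 1)
    have h2 := lam_pow_sub_one (n + 1) (by omega)
    rw [h, norm_zero] at h1
    have h3 : (0 : ℝ) < 1 / ((n + 1 : ℕ) : ℝ) := by positivity
    linarith
  rw [mul_div_cancel₀ _ h]

theorem uu_eq (z : ℂ) (hz : ‖z‖ < 1 / 4096) :
    uu (lam * z) + uu (z / lam) / 2 = tt * uu z + uu z ^ 2 := by
  have h0 := lam_ne_zero
  have hz1 : ‖lam * z‖ < 1 / 4096 := by rwa [norm_mul, lam_norm, one_mul]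
  have hz2 : ‖z / lam‖ < 1 / 4096 := by rwa [norm_div, lam_norm, div_one]
  have s0 := uu_summable z hz
  have s1 := uu_summable _ hz1
  have s2 := uu_summable _ hz2
  have key : uu (lam * z) + uu (z / lam) / 2 - tt * uu z
      = ∑' m, den m * coef m * z ^ (m + 1) := by
    unfold uu
    rw [← tsum_div_const, ← tsum_mul_left, ← s1.tsum_add (s2.div_const 2),
      ← (s1.add (s2.div_const 2)).tsum_sub (s0.mul_left tt)]
    congr 1
    ext m
    unfold den
    rw [mul_pow, div_pow]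
    have : lam ^ (m + 1) ≠ 0 := pow_ne_zero _ h0
    field_simp
  have hs : Summable (fun m => den m * coef m * z ^ (m + 1)) := by
    have : (fun m => den m * coef m * z ^ (m + 1)) = fun m =>
        (coef m * (lam * z) ^ (m + 1) + coef m * (z / lam) ^ (m + 1) / 2) -
          tt * (coef m * z ^ (m + 1)) := by
      ext m
      unfold den
      rw [mul_pow, div_pow]
      have : lam ^ (m + 1) ≠ 0 := pow_ne_zero _ h0
      field_simp
    rw [this]
    exact (s1.add (s2.div_const 2)).sub (s0.mul_left tt)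
  have hden0 : den 0 = 0 := by
    unfold den tt
    simp
  rw [hs.tsum_eq_zero_add, hden0, zero_mul, zero_mul, zero_add] at key
  have hsq : uu z ^ 2 = ∑' n, ∑ p ∈ Finset.HasAntidiagonal.antidiagonal n,
      (coef p.1 * z ^ (p.1 + 1)) * (coef p.2 * z ^ (p.2 + 1)) := by
    rw [sq]
    unfold uu
    exact tsum_mul_tsum_eq_tsum_sum_antidiagonal_of_summable_norm
      (uu_summable_norm z hz) (uu_summable_norm z hz)
  have hsum : (∑' n, den (n + 1) * coef (n + 1) * z ^ (n + 1 + 1)) = uu z ^ 2 := by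
    rw [hsq]
    congr 1
    ext n
    rw [den_mul_coef, Finset.sum_mul]
    apply Finset.sum_congr rfl
    intro p hp
    have hp' := Finset.HasAntidiagonal.mem_antidiagonal.mp hp
    rw [← hp']
    ring
  rw [hsum] at key
  linear_combination key

theorem pow_sub_pow_bound (R : ℝ) (z w : ℂ) (hz : ‖z‖ ≤ R) (hw : ‖w‖ ≤ R) (m : ℕ) :
    ‖z ^ (m + 1) - w ^ (m + 1)‖ ≤ (m + 1) * R ^ m * ‖z - w‖ := by
  have hR : 0 ≤ R := (norm_nonneg z).trans hz
  induction m with
  | zero => simp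
  | succ m ih =>
    have h : z ^ (m + 1 + 1) - w ^ (m + 1 + 1) = z * (z ^ (m + 1) - w ^ (m + 1)) +
      (z - w) * w ^ (m + 1) := by ring
    rw [h]
    calc ‖z * (z ^ (m + 1) - w ^ (m + 1)) + (z - w) * w ^ (m + 1)‖
        ≤ ‖z‖ * ‖z ^ (m + 1) - w ^ (m + 1)‖ + ‖z - w‖ * ‖w‖ ^ (m + 1) := by
          refine (norm_add_le _ _).trans ?_
          rw [norm_mul, norm_mul, norm_pow]
      _ ≤ R * ((m + 1) * R ^ m * ‖z - w‖) + ‖z - w‖ * R ^ (m + 1) := by gcongr
      _ = ((m + 1 : ℕ) + 1) * R ^ (m + 1) * ‖z - w‖ := by push_cast; ring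

theorem uu_close (z w : ℂ) (hz : ‖z‖ < 1 / 4096) (hw : ‖w‖ < 1 / 4096) :
    ‖uu z - uu w - (z - w)‖ ≤ 1 / 4 * ‖z - w‖ := by
  have s0 := uu_summable z hz
  have s1 := uu_summable w hw
  have key : uu z - uu w - (z - w) = ∑' m, coef (m + 1) * (z ^ (m + 1 + 1) - w ^ (m + 1 + 1)) := by
    unfold uu
    rw [s0.tsum_eq_zero_add, s1.tsum_eq_zero_add, coef_zero]
    have s0' := (summable_nat_add_iff 1).mpr s0
    have s1' := (summable_nat_add_iff 1).mpr s1
    have : ∑' m, coef (m + 1) * (z ^ (m + 1 + 1) - w ^ (m + 1 + 1)) =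
        ∑' m, coef (m + 1) * z ^ (m + 1 + 1) - ∑' m, coef (m + 1) * w ^ (m + 1 + 1) := by
      rw [← s0'.tsum_sub s1']
      congr 1
      ext m
      ring
    rw [this]
    ring
  rw [key]
  have hb : ∀ m, ‖coef (m + 1) * (z ^ (m + 1 + 1) - w ^ (m + 1 + 1))‖ ≤
      (1 / 8 : ℝ) ^ (m + 1) * ‖z - w‖ := by
    intro m
    rw [norm_mul]
    have h1 := coef_bound (m + 1)
    have h2 := pow_sub_pow_bound (1 / 4096) z w hz.le hw.le (m + 1)
    have h3 : ((m + 1 : ℕ) : ℝ) + 1 ≤ 2 ^ (m + 1) := by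
      have : m + 1 + 1 ≤ 2 ^ (m + 1) := by
        have := Nat.lt_two_pow_self (n := m + 1)
        omega
      exact_mod_cast this
    calc ‖coef (m + 1)‖ * ‖z ^ (m + 1 + 1) - w ^ (m + 1 + 1)‖
        ≤ 256 ^ (m + 1) * ((2 ^ (m + 1)) * (1 / 4096) ^ (m + 1) * ‖z - w‖) := by
          gcongr
          refine h2.trans ?_
          gcongr
      _ = (1 / 8 : ℝ) ^ (m + 1) * ‖z - w‖ := by
          rw [← mul_assoc, ← mul_assoc, ← mul_pow, ← mul_pow]
          norm_num
  have hs : HasSum (fun m : ℕ => (1 / 8 : ℝ) ^ (m + 1) * ‖z - w‖) (1 / 7 * ‖z - w‖) := by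
    apply HasSum.mul_right
    have := (hasSum_geometric_of_lt_one (r := (1 / 8 : ℝ)) (by norm_num) (by norm_num)).mul_left
      (1 / 8 : ℝ)
    convert this using 1
    · ext m; rw [pow_succ]; ring
    · norm_num
  refine (tsum_of_norm_bounded hs hb).trans ?_
  have := norm_nonneg (z - w)
  linarith

end Pool.Agent.MP_3779a0
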